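import Mathlib

/-!
# Package CB: finite combinatorics (45 min)

`theorem window`: at most `P` indices, `P + 1` disjoint windows `(τ l, τ (l+1)]`, one contains no
value.

`theorem star`: let `Q = X ^ m * ∏ j ∈ 𝒦, (X - C (u j))`. Then `Q(u j) = 0` for `j ∈ 𝒦`, and
`‖Q(u j)‖ ≤ e2 ^ m * (2 * D) ^ P` for the other `1 ≤ j < J` (`#𝒦 ≤ P`, `1 ≤ 2 * D`), while
`‖Q(u 0)‖ = ∏ ‖u 0 - u j‖ ≥ e1 ^ P` (`‖u 0‖ = 1`, `0 < e1 ≤ 1`). `w 0 = 1`. So the sum is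
`≥ e1 ^ P - J * W * e2 ^ m * (2 D) ^ P`. `Q.eval 0 = 0` as `1 ≤ m`. For `‖x‖ ≤ 2 D`:
`‖Q(x)‖ ≤ (2 D) ^ m * (3 D) ^ P` (`1 ≤ 3 D`).
-/

set_option autoImplicit false
open Polynomial

namespace Pool.Agent.T2H09.LU

theorem window {P : ℕ} (D : Finset ℕ) (hD : D.card ≤ P) (k : ℕ → ℝ) (τ : ℕ → ℝ)
    (hτ : Monotone τ) : ∃ l ≤ P, ∀ j ∈ D, ¬ (τ l < k j ∧ k j ≤ τ (l + 1)) := by
  by_contra hcon
  push Not at hcon
  have h1 : ∀ l : ℕ, ∃ j, l ≤ P → j ∈ D ∧ τ l < k j ∧ k j ≤ τ (l + 1) := by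
    intro l
    by_cases hl : l ≤ P
    · obtain ⟨j, hj, h⟩ := hcon l hl
      exact ⟨j, fun _ => ⟨hj, h⟩⟩
    · exact ⟨0, fun h => absurd h hl⟩
  choose f hf using h1
  have hcard : D.card < (Finset.range (P + 1)).card := by
    rw [Finset.card_range]; omega
  obtain ⟨a, ha, b, hb, hab, hfab⟩ := Finset.exists_ne_map_eq_of_card_lt_of_maps_to hcard
    (f := f) (fun l hl => (hf l (by have := Finset.mem_range.1 hl; omega)).1)
  have ha' : a ≤ P := by have := Finset.mem_range.1 ha; omega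
  have hb' : b ≤ P := by have := Finset.mem_range.1 hb; omega
  obtain ⟨-, a1, a2⟩ := hf a ha'
  obtain ⟨-, b1, b2⟩ := hf b hb'
  rw [hfab] at a1 a2
  rcases lt_or_gt_of_ne hab with h | h
  · have := hτ (show a + 1 ≤ b by omega)
    linarith
  · have := hτ (show b + 1 ≤ a by omega)
    linarith

theorem star {J P m : ℕ} (hm : 1 ≤ m) (𝒦 : Finset ℕ) (h𝒦 : 𝒦.card ≤ P) (w u : ℕ → ℂ)
    {D W e1 e2 : ℝ} (hJ : 1 ≤ J) (hw0 : w 0 = 1) (hu0 : ‖u 0‖ = 1) (hD : 1 ≤ D) (hW : 0 ≤ W)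
    (h1 : 0 < e1) (h1' : e1 ≤ 1) (h2 : 0 ≤ e2)
    (hu : ∀ j, ‖u j‖ ≤ D) (hw : ∀ j < J, ‖w j‖ ≤ W)
    (hmid : ∀ j ∈ 𝒦, e1 ≤ ‖u 0 - u j‖) (hsh : ∀ j, 1 ≤ j → j < J → j ∉ 𝒦 → ‖u j‖ ≤ e2) :
    ∃ Q : ℂ[X], Q.eval 0 = 0 ∧ (∀ x : ℂ, ‖x‖ ≤ 2 * D → ‖Q.eval x‖ ≤ (3 * D) ^ (m + P)) ∧
      e1 ^ P - J * W * (e2 ^ m * (2 * D) ^ P) ≤ ‖∑ j ∈ Finset.range J, w j * Q.eval (u j)‖ := by
  set Q : ℂ[X] := X ^ m * ∏ j ∈ 𝒦, (X - C (u j)) with hQ
  have hev : ∀ x : ℂ, Q.eval x = x ^ m * ∏ j ∈ 𝒦, (x - u j) := by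
    intro x
    rw [hQ, eval_mul, eval_pow, eval_X, eval_prod]
    simp
  have hnorm : ∀ x : ℂ, ‖Q.eval x‖ = ‖x‖ ^ m * ∏ j ∈ 𝒦, ‖x - u j‖ := by
    intro x
    rw [hev, norm_mul, norm_pow, norm_prod]
  have hprod : ∀ (x : ℂ) (B : ℝ), 1 ≤ B → (∀ j ∈ 𝒦, ‖x - u j‖ ≤ B) →
      ∏ j ∈ 𝒦, ‖x - u j‖ ≤ B ^ P := by
    intro x B hB h
    calc ∏ j ∈ 𝒦, ‖x - u j‖ ≤ ∏ _j ∈ 𝒦, B := Finset.prod_le_prod (fun _ _ => norm_nonneg _) h
      _ = B ^ 𝒦.card := by rw [Finset.prod_const]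
      _ ≤ B ^ P := pow_le_pow_right₀ hB h𝒦
  refine ⟨Q, ?_, ?_, ?_⟩
  · rw [hev, zero_pow (by omega), zero_mul]
  · intro x hx
    rw [hnorm, pow_add]
    have e1' : ‖x‖ ^ m ≤ (3 * D) ^ m := pow_le_pow_left₀ (norm_nonneg _) (by linarith) m
    have e2' : ∏ j ∈ 𝒦, ‖x - u j‖ ≤ (3 * D) ^ P := hprod x (3 * D) (by linarith) (fun j _ => by
      have := norm_sub_le x (u j)
      linarith [hu j])
    exact mul_le_mul e1' e2' (Finset.prod_nonneg fun _ _ => norm_nonneg _) (by positivity)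
  · obtain ⟨J', rfl⟩ : ∃ J', J = J' + 1 := ⟨J - 1, by omega⟩
    rw [Finset.sum_range_succ']
    have h3 : e1 ^ P ≤ ‖w 0 * Q.eval (u 0)‖ := by
      rw [hw0, one_mul, hnorm, hu0, one_pow, one_mul]
      calc e1 ^ P ≤ e1 ^ 𝒦.card := pow_le_pow_of_le_one h1.le h1' h𝒦
        _ = ∏ _j ∈ 𝒦, e1 := by rw [Finset.prod_const]
        _ ≤ _ := Finset.prod_le_prod (fun _ _ => h1.le) hmid
    have h4 : ‖∑ j ∈ Finset.range J', w (j + 1) * Q.eval (u (j + 1))‖ ≤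
        J' * W * (e2 ^ m * (2 * D) ^ P) := by
      refine (norm_sum_le _ _).trans ?_
      have h5 : ∀ j ∈ Finset.range J', ‖w (j + 1) * Q.eval (u (j + 1))‖ ≤
          W * (e2 ^ m * (2 * D) ^ P) := by
        intro j hj
        have hj' : j + 1 < J' + 1 := by have := Finset.mem_range.1 hj; omega
        rw [norm_mul]
        refine mul_le_mul (hw _ hj') ?_ (norm_nonneg _) hW
        rw [hnorm]
        by_cases hk : j + 1 ∈ 𝒦
        · have : ∏ i ∈ 𝒦, ‖u (j + 1) - u i‖ = 0 := by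
            apply Finset.prod_eq_zero hk
            rw [sub_self, norm_zero]
          rw [this, mul_zero]
          positivity
        · refine mul_le_mul (pow_le_pow_left₀ (norm_nonneg _) (hsh _ (by omega) hj' hk) m)
            (hprod _ (2 * D) (by linarith) (fun i _ => ?_))
            (Finset.prod_nonneg fun _ _ => norm_nonneg _) (by positivity)
          have := norm_sub_le (u (j + 1)) (u i)
          linarith [hu (j + 1), hu i]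
      refine (Finset.sum_le_sum h5).trans ?_
      rw [Finset.sum_const, Finset.card_range, nsmul_eq_mul]
      linarith
    have h6 : (J' : ℝ) * W * (e2 ^ m * (2 * D) ^ P) ≤
        ((J' + 1 : ℕ) : ℝ) * W * (e2 ^ m * (2 * D) ^ P) := by
      push_cast
      have : 0 ≤ W * (e2 ^ m * (2 * D) ^ P) := by positivity
      nlinarith
    have h7 := norm_sub_le (∑ j ∈ Finset.range J', w (j + 1) * Q.eval (u (j + 1)) +
      w 0 * Q.eval (u 0)) (∑ j ∈ Finset.range J', w (j + 1) * Q.eval (u (j + 1)))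
    rw [add_sub_cancel_left] at h7
    linarith

end Pool.Agent.T2H09.LU
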