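import Pool.Agent.T2H09.DH.Pow

/-!
# The number of deep returns
-/

set_option autoImplicit false
open Set Filter Topology Metric

namespace Pool.Agent.T2H09.LU

open Pool.Agent.W746.LD Pool.Agent.T2H09.DH N62a1eb23

theorem deep_count {n : ℕ} (hn : 2 ≤ n) {c : ℂ} (hc : c ∈ multibrotSet n)
    (h0 : ∀ j, orb n c c j ≠ 0) {M : ℕ} (hM : 1 ≤ M) (hP : 1 ≤ ‖P n c c M‖) {b : ℝ} (hb : 0 < b) :
    (((Finset.Icc 1 M).filter fun j => b * M ≤ -Real.log ‖orb n c c j - c‖).card : ℝ) ≤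
      (2 * Real.log n + Real.log 4) / b := by
  have hM0 : (0 : ℝ) < M := by exact_mod_cast hM
  have hn0 : (0 : ℝ) < n := by exact_mod_cast (by omega : 0 < n)
  have hn2 : (2 : ℝ) ≤ n := by exact_mod_cast hn
  have hlogn : 0 ≤ Real.log n := Real.log_nonneg (by linarith)
  have hpos : ∀ j, 0 < ‖orb n c c j‖ := fun j => norm_pos_iff.mpr (h0 j)
  set D : Finset ℕ := (Finset.Icc 1 M).filter fun j => b * M ≤ -Real.log ‖orb n c c j - c‖ with hD
  -- the sum of the logarithms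
  have h1 : Real.log ‖P n c c M‖ = M * Real.log n +
      (n - 1) * ∑ j ∈ Finset.range M, Real.log ‖orb n c c j‖ := by
    rw [norm_P, Real.log_mul (by positivity)
      (pow_ne_zero _ (Finset.prod_ne_zero_iff.mpr fun j _ => (hpos j).ne')),
      Real.log_pow, Real.log_pow, Real.log_prod (fun j _ => (hpos j).ne'), Nat.cast_sub (by omega)]
    push_cast
    ring
  have h2 : 0 ≤ Real.log ‖P n c c M‖ := Real.log_nonneg hP
  have h3 : ∑ j ∈ Finset.Icc 1 M, -Real.log ‖orb n c c j - c‖ =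
      -(n * ∑ j ∈ Finset.range M, Real.log ‖orb n c c j‖) := by
    rw [Finset.mul_sum, ← Finset.sum_neg_distrib]
    have e : Finset.Icc 1 M = Finset.Ico (0 + 1) (M + 1) := by
      ext x; simp only [Finset.mem_Icc, Finset.mem_Ico]; omega
    rw [e, ← Finset.sum_Ico_add' (fun j => -Real.log ‖orb n c c j - c‖) 0 M 1, ← Finset.range_eq_Ico]
    refine Finset.sum_congr rfl fun j _ => ?_
    rw [norm_orb_succ_sub, Real.log_pow]
  set s : ℝ := ∑ j ∈ Finset.range M, Real.log ‖orb n c c j‖ with hs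
  have h4 : -(n * s) ≤ 2 * M * Real.log n := by
    have h5 : -((n - 1) * s) ≤ M * Real.log n := by linarith
    have h6 : 0 ≤ (M : ℝ) * Real.log n := by positivity
    rcases le_or_gt 0 s with h7 | h7
    · have : 0 ≤ (n : ℝ) * s := by positivity
      linarith
    · nlinarith
  have hterm : ∀ j, 1 ≤ j → 0 ≤ -Real.log ‖orb n c c j - c‖ + Real.log 4 := by
    intro j hj
    obtain ⟨i, rfl⟩ : ∃ i, j = i + 1 := ⟨j - 1, by omega⟩
    have h5 : 0 < ‖orb n c c (i + 1) - c‖ := by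
      rw [norm_orb_succ_sub]
      exact pow_pos (hpos i) _
    have h6 : ‖orb n c c (i + 1) - c‖ ≤ 4 := by
      refine (norm_sub_le _ _).trans ?_
      have := mem_multibrot_orb hn hc (i + 1)
      have := norm_le_two hn hc
      linarith
    have := Real.log_le_log h5 h6
    linarith
  have h5 : (D.card : ℝ) * (b * M) ≤ ∑ j ∈ D, (-Real.log ‖orb n c c j - c‖ + Real.log 4) := by
    rw [← nsmul_eq_mul]
    apply Finset.card_nsmul_le_sum
    intro j hj
    rw [hD, Finset.mem_filter] at hj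
    have : 0 ≤ Real.log 4 := Real.log_nonneg (by norm_num)
    linarith [hj.2]
  have h6 : ∑ j ∈ D, (-Real.log ‖orb n c c j - c‖ + Real.log 4) ≤
      ∑ j ∈ Finset.Icc 1 M, (-Real.log ‖orb n c c j - c‖ + Real.log 4) := by
    apply Finset.sum_le_sum_of_subset_of_nonneg (Finset.filter_subset _ _)
    intro j hj _
    exact hterm j (Finset.mem_Icc.mp hj).1
  have h6' : ∑ j ∈ Finset.Icc 1 M, (-Real.log ‖orb n c c j - c‖ + Real.log 4) =
      -(n * s) + ((M + 1 - 1 : ℕ) : ℝ) * Real.log 4 := by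
    rw [Finset.sum_add_distrib, h3, Finset.sum_const, Nat.card_Icc, nsmul_eq_mul]
  rw [h6'] at h6
  rw [le_div_iff₀ hb]
  have e : ((M + 1 - 1 : ℕ) : ℝ) = M := by simp
  rw [e] at h6
  have h7 : (D.card : ℝ) * b * M ≤ (2 * Real.log n + Real.log 4) * M := by
    calc (D.card : ℝ) * b * M = D.card * (b * M) := by ring
      _ ≤ _ := h5.trans h6
      _ ≤ _ := by linarith
  exact le_of_mul_le_mul_right h7 hM0

theorem inv_le {n : ℕ} (hn : 2 ≤ n) {c : ℂ} (hc : c ∈ multibrotSet n) {M : ℕ}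
    (hP : 1 ≤ ‖P n c c M‖) {j : ℕ} (hj : j ≤ M) : ‖(P n c c j)⁻¹‖ ≤ (2 * n) ^ M := by
  have hn1 : (1 : ℝ) ≤ n := by exact_mod_cast (by omega : 1 ≤ n)
  have key : ∀ i, ‖P n c c (j + i)‖ ≤ ‖P n c c j‖ * (2 * n) ^ i := by
    intro i
    induction i with
    | zero => simp
    | succ i ih =>
      rw [← add_assoc, norm_P_succ, pow_succ]
      have h5 := orbit_bound hn (mem_multibrot_orb hn hc) (j + i)
      calc ‖P n c c (j + i)‖ * (n * ‖orb n c c (j + i)‖ ^ (n - 1))
          ≤ (‖P n c c j‖ * (2 * n) ^ i) * (n * 2) := by gcongr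
        _ = _ := by ring
  have h1 := key (M - j)
  rw [show j + (M - j) = M by omega] at h1
  have h2 : (2 * (n : ℝ)) ^ (M - j) ≤ (2 * n) ^ M := pow_le_pow_right₀ (by linarith) (by omega)
  have h3 : 1 ≤ ‖P n c c j‖ * (2 * n) ^ M :=
    hP.trans (h1.trans (mul_le_mul_of_nonneg_left h2 (norm_nonneg _)))
  have h4 : 0 < ‖P n c c j‖ := by
    rcases (norm_nonneg (P n c c j)).eq_or_lt with h | h
    · rw [← h, zero_mul] at h3
      linarith
    · exact h
  rw [norm_inv, inv_le_iff_one_le_mul₀ h4, mul_comm]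
  exact h3

end Pool.Agent.T2H09.LU
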