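import Pool.Agent.T2H09.DH.Final

/-!
# Package DS: the distance from `c` to the complement of the nested sets (50 min)

`UU n c k = {z | ‖orb n c z k‖ < 3}` is open (`orb` is a polynomial in `z`:
`W746.LD.hasDerivAt_orb`), decreasing in `k` when `‖c‖ ≤ 2`, `n ≥ 2`: `‖w ^ n + c‖ < 3` gives
`‖w‖ < 3`. `dl n c k` is the distance from `c` to its complement. Throughout `c ∈ multibrotSet n`:
`‖orb n c c j‖ ≤ 2` for all `j` (`mem_multibrot_orb`; see `DH.Final` for its use) and `‖c‖ ≤ 2`.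

* `UU_nonempty_compl`: the complement contains `4` (`‖4‖ = 4`, `‖w ^ n + c‖ ≥ 4` if `‖w‖ ≥ 4`).
* `UU_mem` : the orbit of `c` is in every `UU n c k`.
* `ball_sub`: `ball c (dl n c k) ⊆ UU n c k` (if `‖z - c‖ < infDist` then `z ∉ complement`).
* `dl_pos`: `UU` open and `c ∈ UU`.
* `dl_exists`: the complement is closed and nonempty in a proper space:
  `IsClosed.exists_infDist_eq_dist`.
* `dl_zero`: a point `y` with `‖y‖ ≥ 3` has `‖y - c‖ ≥ 1`.
* `dl_anti`: `UU n c (k+1) ⊆ UU n c k`, `infDist_anti`-type lemma (`Metric.infDist_le_infDist_of_subset`).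
* `dl_step`: let `δ = dl n c k`. On `ball c δ`: `‖orb n c z k‖ < 3`, so
  `‖orb n c z (k+1)‖ < 3 ^ n + 2`, `orb n c c (k+1)` has norm `≤ 2`; Schwarz
  (`Complex.dist_le_div_mul_dist_of_mapsTo_ball` or a similar lemma):
  `‖orb n c z (k+1) - orb n c c (k+1)‖ ≤ (3^n+4)/δ * ‖z - c‖` so for `‖z-c‖ < δ/(3^n+4)` the point `z`
  is in `UU n c (k+1)`, hence `dl n c (k+1) ≥ δ/(3^n+4)`.
* `dl_der`: Cauchy's estimate: `‖P n c c k‖ ≤ 3 / δ` (`hasDerivAt_orb`; on `ball c δ` the function is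
  bounded by `3`; use spheres of radius `s < δ` and let `s → δ`, as in `DH.far`, or
  `Complex.norm_deriv_le_div_of_mapsTo_ball`).
-/

set_option autoImplicit false
open Set Filter Topology Metric

namespace Pool.Agent.T2H09.LU

open Pool.Agent.W746.LD Pool.Agent.T2H09.DH N62a1eb23

/-- The points whose `k`-th iterate has norm less than `3`. -/
def UU (n : ℕ) (c : ℂ) (k : ℕ) : Set ℂ := {z | ‖orb n c z k‖ < 3}

/-- The distance from `c` to the complement of `UU n c k`. -/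
noncomputable def dl (n : ℕ) (c : ℂ) (k : ℕ) : ℝ := infDist c (UU n c k)ᶜ

theorem ds_diff (n : ℕ) (c : ℂ) (k : ℕ) : Differentiable ℂ (fun z => orb n c z k) :=
  fun z => (hasDerivAt_orb z k).differentiableAt

theorem ds_c {n : ℕ} (hn : 2 ≤ n) {c : ℂ} (hc : c ∈ multibrotSet n) : ‖c‖ ≤ 2 := by
  have := mem_multibrot_orb hn hc 0
  rwa [orb_zero] at this

theorem ds_open (n : ℕ) (c : ℂ) (k : ℕ) : IsOpen (UU n c k) :=
  isOpen_lt (ds_diff n c k).continuous.norm continuous_const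

theorem ds_closed (n : ℕ) (c : ℂ) (k : ℕ) : IsClosed (UU n c k)ᶜ := (ds_open n c k).isClosed_compl

theorem ds_four {n : ℕ} (hn : 2 ≤ n) {c : ℂ} (hc : c ∈ multibrotSet n) (k : ℕ) :
    4 ≤ ‖orb n c 4 k‖ := by
  have h2 := ds_c hn hc
  induction k with
  | zero => rw [orb_zero]; norm_num
  | succ k ih =>
    rw [orb_succ]
    have h3 : (4 : ℝ) ^ 2 ≤ ‖orb n c 4 k‖ ^ n :=
      (pow_le_pow_left₀ (by norm_num) ih 2).trans (pow_le_pow_right₀ (by linarith) hn)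
    have h4 : ‖orb n c 4 k ^ n‖ ≤ ‖orb n c 4 k ^ n + c‖ + ‖c‖ := by
      calc ‖orb n c 4 k ^ n‖ = ‖(orb n c 4 k ^ n + c) - c‖ := by rw [add_sub_cancel_right]
        _ ≤ _ := norm_sub_le _ _
    rw [norm_pow] at h4
    linarith

theorem ds_ne {n : ℕ} (hn : 2 ≤ n) {c : ℂ} (hc : c ∈ multibrotSet n) (k : ℕ) :
    (UU n c k)ᶜ.Nonempty := by
  refine ⟨4, ?_⟩
  intro h
  have h1 : ‖orb n c 4 k‖ < 3 := h
  linarith [ds_four hn hc k]

theorem ball_sub {n : ℕ} {c : ℂ} (k : ℕ) : ball c (dl n c k) ⊆ UU n c k := by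
  intro z hz
  by_contra h
  have h1 : infDist c (UU n c k)ᶜ ≤ dist c z := infDist_le_dist_of_mem h
  rw [mem_ball, dist_comm] at hz
  unfold dl at hz
  linarith

theorem UU_anti {n : ℕ} (hn : 2 ≤ n) {c : ℂ} (hc : c ∈ multibrotSet n) (k : ℕ) :
    UU n c (k + 1) ⊆ UU n c k := by
  intro z hz
  have hz' : ‖orb n c z (k + 1)‖ < 3 := hz
  show ‖orb n c z k‖ < 3
  by_contra h
  push Not at h
  have h2 := ds_c hn hc
  rw [orb_succ] at hz'
  have h3 : (3 : ℝ) ^ 2 ≤ ‖orb n c z k‖ ^ n :=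
    (pow_le_pow_left₀ (by norm_num) h 2).trans (pow_le_pow_right₀ (by linarith) hn)
  have h4 : ‖orb n c z k ^ n‖ ≤ ‖orb n c z k ^ n + c‖ + ‖c‖ := by
    calc ‖orb n c z k ^ n‖ = ‖(orb n c z k ^ n + c) - c‖ := by rw [add_sub_cancel_right]
      _ ≤ _ := norm_sub_le _ _
  rw [norm_pow] at h4
  linarith

theorem UU_mem {n : ℕ} (hn : 2 ≤ n) {c : ℂ} (hc : c ∈ multibrotSet n) (j k : ℕ) :
    orb n c c j ∈ UU n c k := by
  show ‖orb n c (orb n c c j) k‖ < 3
  rw [← orb_add]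
  linarith [mem_multibrot_orb hn hc (j + k)]

theorem dl_pos {n : ℕ} (hn : 2 ≤ n) {c : ℂ} (hc : c ∈ multibrotSet n) (k : ℕ) :
    0 < dl n c k := by
  have h1 : c ∉ (UU n c k)ᶜ := by
    intro h
    exact h (by simpa using UU_mem hn hc 0 k)
  exact ((ds_closed n c k).notMem_iff_infDist_pos (ds_ne hn hc k)).1 h1

theorem dl_exists {n : ℕ} (hn : 2 ≤ n) {c : ℂ} (hc : c ∈ multibrotSet n) (k : ℕ) :
    ∃ y : ℂ, ‖y - c‖ = dl n c k ∧ 3 ≤ ‖orb n c y k‖ := by
  obtain ⟨y, hy, h⟩ := (ds_closed n c k).exists_infDist_eq_dist (ds_ne hn hc k) c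
  refine ⟨y, ?_, ?_⟩
  · unfold dl
    rw [h, dist_comm, dist_eq_norm]
  · by_contra h1
    exact hy (not_le.1 h1)

theorem dl_zero {n : ℕ} (hn : 2 ≤ n) {c : ℂ} (hc : c ∈ multibrotSet n) :
    1 ≤ dl n c 0 := by
  obtain ⟨y, h1, h2⟩ := dl_exists hn hc 0
  rw [orb_zero] at h2
  rw [← h1]
  have h3 := ds_c hn hc
  have h4 : ‖y‖ ≤ ‖y - c‖ + ‖c‖ := by
    calc ‖y‖ = ‖(y - c) + c‖ := by rw [sub_add_cancel]
      _ ≤ _ := norm_add_le _ _
  linarith

theorem dl_anti {n : ℕ} (hn : 2 ≤ n) {c : ℂ} (hc : c ∈ multibrotSet n) (k : ℕ) :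
    dl n c (k + 1) ≤ dl n c k :=
  infDist_le_infDist_of_subset (compl_subset_compl.2 (UU_anti hn hc k)) (ds_ne hn hc k)

theorem dl_step {n : ℕ} (hn : 2 ≤ n) {c : ℂ} (hc : c ∈ multibrotSet n) (k : ℕ) :
    dl n c k ≤ (3 ^ n + 4) * dl n c (k + 1) := by
  obtain ⟨y, h1, h2⟩ := dl_exists hn hc (k + 1)
  have hδ := dl_pos hn hc k
  have hδ1 := dl_pos hn hc (k + 1)
  have hc2 := ds_c hn hc
  have h3 : (1 : ℝ) ≤ 3 ^ n + 4 := by
    have : (0 : ℝ) ≤ 3 ^ n := by positivity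
    linarith
  by_cases hy : dl n c k ≤ ‖y - c‖
  · rw [h1] at hy
    calc dl n c k ≤ 1 * dl n c (k + 1) := by linarith
      _ ≤ _ := mul_le_mul_of_nonneg_right h3 hδ1.le
  · push Not at hy
    have hmaps : MapsTo (fun z => orb n c z (k + 1)) (ball c (dl n c k))
        (closedBall (orb n c c (k + 1)) (3 ^ n + 4)) := by
      intro z hz
      have hz3 : ‖orb n c z k‖ < 3 := ball_sub k hz
      rw [mem_closedBall, dist_eq_norm]
      have e1 : ‖orb n c z (k + 1)‖ ≤ 3 ^ n + 2 := by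
        rw [orb_succ]
        refine (norm_add_le _ _).trans ?_
        rw [norm_pow]
        exact add_le_add (pow_le_pow_left₀ (norm_nonneg _) hz3.le n) hc2
      have e2 := mem_multibrot_orb hn hc (k + 1)
      have e3 := norm_sub_le (orb n c z (k + 1)) (orb n c c (k + 1))
      linarith
    have hyb : y ∈ ball c (dl n c k) := by rw [mem_ball, dist_eq_norm]; exact hy
    have h4 := Complex.dist_le_div_mul_dist_of_mapsTo_ball
      (ds_diff n c (k + 1)).differentiableOn hmaps hyb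
    rw [dist_eq_norm, dist_eq_norm, h1] at h4
    have e2 := mem_multibrot_orb hn hc (k + 1)
    have e4 : ‖orb n c y (k + 1)‖ ≤ ‖orb n c y (k + 1) - orb n c c (k + 1)‖ + ‖orb n c c (k + 1)‖ := by
      calc ‖orb n c y (k + 1)‖ = ‖(orb n c y (k + 1) - orb n c c (k + 1)) + orb n c c (k + 1)‖ := by
            rw [sub_add_cancel]
        _ ≤ _ := norm_add_le _ _
    have h5 : 1 ≤ (3 ^ n + 4) / dl n c k * dl n c (k + 1) := by linarith
    rw [div_mul_eq_mul_div, le_div_iff₀ hδ] at h5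
    linarith

theorem dl_der {n : ℕ} (hn : 2 ≤ n) {c : ℂ} (hc : c ∈ multibrotSet n) (k : ℕ) :
    dl n c k * ‖P n c c k‖ ≤ 3 := by
  have hδ := dl_pos hn hc k
  have h1 : ∀ z ∈ closedBall c (dl n c k), ‖orb n c z k‖ ≤ 3 := by
    rw [← closure_ball c hδ.ne']
    have hcl : IsClosed {z : ℂ | ‖orb n c z k‖ ≤ 3} :=
      isClosed_le (ds_diff n c k).continuous.norm continuous_const
    have hsub : ball c (dl n c k) ⊆ {z : ℂ | ‖orb n c z k‖ ≤ 3} := by
      intro z hz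
      have h3 : ‖orb n c z k‖ < 3 := ball_sub k hz
      exact h3.le
    intro z hz
    exact closure_minimal hsub hcl hz
  have h2 := Complex.norm_deriv_le_of_forall_mem_sphere_norm_le hδ
    (ds_diff n c k).diffContOnCl (fun z hz => h1 z (sphere_subset_closedBall hz))
  rw [(hasDerivAt_orb c k).deriv, le_div_iff₀ hδ] at h2
  linarith

end Pool.Agent.T2H09.LU
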