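import Mathlib

/-!
# A pigeonhole for a monotone sequence
-/

set_option autoImplicit false

namespace Pool.Agent.T2H09.LU

theorem scale (κ : ℕ → ℝ) (hmono : Monotone κ) (h0 : κ 0 ≤ 0) {L : ℝ}
    (hL : ∀ k, κ (k + 1) ≤ κ k + L) {B1 B2 : ℝ} (hB1 : 0 ≤ B1) {C0 M : ℕ} (hC0 : 0 < C0)
    (hcond : B1 + 2 * C0 * L + (M : ℝ) / C0 * Real.log 2 ≤ B2) (hM : B2 < κ M) :
    ∃ k, C0 ≤ k ∧ k ≤ M ∧ B1 ≤ κ k ∧ κ k ≤ B2 ∧ κ (k - C0) + Real.log 2 ≤ κ k := by
  by_contra hcon
  push Not at hcon
  have hL0 : 0 ≤ L := by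
    have := hL 0
    have := hmono (Nat.le_succ 0)
    linarith
  have hlog2 : 0 < Real.log 2 := Real.log_pos (by norm_num)
  have hLi : ∀ i k, κ (k + i) ≤ κ k + i * L := by
    intro i
    induction i with
    | zero => intro k; simp
    | succ i ih =>
      intro k
      have h1 := ih k
      have h2 := hL (k + i)
      rw [← add_assoc]
      push_cast
      linarith
  have hC0' : (0 : ℝ) < C0 := by exact_mod_cast hC0
  set Q : ℕ := M / C0 with hQ
  have hQM : Q * C0 ≤ M := Nat.div_mul_le_self M C0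
  have hQr : (Q : ℝ) ≤ (M : ℝ) / C0 := by
    rw [le_div_iff₀ hC0']
    exact_mod_cast hQM
  have hC0L : 0 ≤ C0 * L := by positivity
  have key : ∀ q ≤ Q, κ (q * C0) ≤ B1 + C0 * L + q * Real.log 2 := by
    intro q
    induction q with
    | zero =>
      intro _
      rw [zero_mul]
      simp only [Nat.cast_zero, zero_mul]
      linarith
    | succ q ih =>
      intro hq
      have h1 := ih (by omega)
      have h2 : κ ((q + 1) * C0) ≤ κ (q * C0) + C0 * L := by
        have := hLi C0 (q * C0)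
        rwa [show q * C0 + C0 = (q + 1) * C0 by ring] at this
      have hq0 : (0 : ℝ) ≤ q * Real.log 2 := by positivity
      rcases le_or_gt (κ ((q + 1) * C0)) B1 with h3 | h3
      · push_cast
        nlinarith
      · have hqQ : (q : ℝ) * Real.log 2 ≤ (M : ℝ) / C0 * Real.log 2 := by
          have : (q : ℝ) ≤ Q := by exact_mod_cast (by omega : q ≤ Q)
          gcongr
          exact this.trans hQr
        have h4 := hcon ((q + 1) * C0) (Nat.le_mul_of_pos_left _ (by omega))
          ((Nat.mul_le_mul_right _ hq).trans hQM) h3.le (by nlinarith)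
        rw [show (q + 1) * C0 - C0 = q * C0 by rw [Nat.succ_mul]; omega] at h4
        push_cast
        linarith
  have h1 := key Q le_rfl
  have h2 : κ M ≤ κ (Q * C0) + C0 * L := by
    have h3 := hLi (M - Q * C0) (Q * C0)
    rw [show Q * C0 + (M - Q * C0) = M by omega] at h3
    have h4 : M - Q * C0 < C0 := by
      have h5 := Nat.div_add_mod' M C0
      have h6 := Nat.mod_lt M hC0
      rw [← hQ] at h5
      omega
    have h5 : ((M - Q * C0 : ℕ) : ℝ) * L ≤ C0 * L := by
      have : ((M - Q * C0 : ℕ) : ℝ) ≤ C0 := by exact_mod_cast h4.le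
      gcongr
    linarith
  have h3 : (Q : ℝ) * Real.log 2 ≤ (M : ℝ) / C0 * Real.log 2 := by gcongr
  linarith

end Pool.Agent.T2H09.LU
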