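import Pool.Agent.T2H09.DH.Final

/-!
# Package TR: a ball around the critical value which returns into itself (50 min)

`attr_of_disc`: `F = (x ↦ orb n c x N)` maps `closedBall c s` into `closedBall c (s/4)` and is entire
(`hasDerivAt_orb`). For `x ∈ closedBall c (s/4)` Cauchy's estimate on the circle of radius `3s/4`
around `x` for the function `F - c` gives `‖F'(x)‖ ≤ (s/4)/(3s/4) = 1/3`, so `F` is a contraction with
constant `1/3` of the complete set `closedBall c (s/4)` (convex: `Convex.norm_image_sub_le_of_norm_deriv_le`);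
fixed point `z` (`ContractingWith.exists_fixedPoint'` or a Cauchy sequence), `‖F'(z)‖ ≤ 1/3 < 1`. This
is an attracting cycle: `IsAttractingCycle` is in `Pool/Prelude/Def_F_c31e40fa.lean` (`0 < N`, periodic
point, derivative of the iterate `< 1` in norm), `orb n c x N = (fun z => z ^ n + c)^[N] x`
definitionally, and `Hy n = {c | ∃ m z, IsAttractingCycle (fun z => z ^ n + c) m z}`.

`trap`: write `z i = orb n c c i`, `ρ = ‖z N - c‖ > 0`, `s = 8 ρ`.
Claim: for all `x` with `‖x - c‖ ≤ s` and all `i ≤ N`,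
`‖orb n c x i - z i‖ ≤ θ ^ i * ‖P n c c i‖ * s`. Induction: `i = 0` is clear. For `i < N` put
`t = orb n c x i - z i`, `‖t‖ ≤ θ ^ i ‖P_i‖ s ≤ ‖z i‖ / K` by the hypothesis `h`, and
`‖(z+t)^n - z^n‖ ≤ n (‖z‖ + ‖t‖)^(n-1) ‖t‖ ≤ n ‖z‖^(n-1) (1+1/K)^(n-1) ‖t‖ ≤ n ‖z‖^(n-1) θ ‖t‖`
(`‖a^n - b^n‖ ≤ n * max^(n-1) * ‖a-b‖`: geometric sum), and
`‖P_{i+1}‖ = ‖P_i‖ n ‖z i‖^(n-1)` (`norm_P_succ`).
So for `‖x - c‖ ≤ s`: `‖orb n c x N - c‖ ≤ ρ + θ^N ‖P_N‖ s ≤ s/8 + s/8 = s/4`; apply `attr_of_disc`.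
-/

set_option autoImplicit false
open Set Filter Topology Metric

namespace Pool.Agent.T2H09.LU

open Pool.Agent.W746.LD Pool.Agent.T2H09.DH N62a1eb23

/-- A holomorphic map of a disc into a much smaller concentric disc. -/
theorem attr_of_disc {n : ℕ} {c : ℂ} {N : ℕ} (hN : 1 ≤ N) {s : ℝ} (hs : 0 < s)
    (h : ∀ x : ℂ, ‖x - c‖ ≤ s → ‖orb n c x N - c‖ ≤ s / 4) : c ∈ Hy n := by
  have hder : ∀ x : ℂ, HasDerivAt (fun z => orb n c z N) (P n c x N) x :=
    fun x => hasDerivAt_orb x N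
  have hbd : ∀ x ∈ closedBall c (s / 4), ‖P n c x N‖ ≤ 1 / 3 := by
    intro x hx
    have hx' : ‖x - c‖ ≤ s / 4 := by simpa [dist_eq_norm] using hx
    have h1 : HasDerivAt (fun z => orb n c z N - c) (P n c x N) x := (hder x).sub_const c
    have h2 : ‖deriv (fun z => orb n c z N - c) x‖ ≤ s / 4 / (3 * s / 4) := by
      apply Complex.norm_deriv_le_of_forall_mem_sphere_norm_le (by positivity)
      · exact Differentiable.diffContOnCl fun z => ((hder z).sub_const c).differentiableAt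
      · intro z hz
        apply h
        have h3 : ‖z - x‖ = 3 * s / 4 := by simpa [dist_eq_norm] using hz
        calc ‖z - c‖ = ‖(z - x) + (x - c)‖ := by ring_nf
          _ ≤ ‖z - x‖ + ‖x - c‖ := norm_add_le _ _
          _ ≤ s := by linarith
    rw [h1.deriv] at h2
    have h4 : s / 4 / (3 * s / 4) = 1 / 3 := by field_simp
    linarith
  have hmaps : MapsTo (fun z => orb n c z N) (closedBall c (s / 4)) (closedBall c (s / 4)) := by
    intro x hx
    have hx' : ‖x - c‖ ≤ s / 4 := by simpa [dist_eq_norm] using hx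
    have := h x (by linarith)
    simpa [dist_eq_norm] using this
  have hcon : ContractingWith (1 / 3) (hmaps.restrict (fun z => orb n c z N) _ _) := by
    refine ⟨by norm_num, ?_⟩
    apply LipschitzWith.of_dist_le_mul
    rintro ⟨x, hx⟩ ⟨y, hy⟩
    have := (convex_closedBall c (s / 4)).norm_image_sub_le_of_norm_hasDerivWithin_le
      (f := fun z => orb n c z N) (f' := fun z => P n c z N) (C := 1 / 3)
      (fun z _ => (hder z).hasDerivWithinAt) hbd hy hx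
    simpa [Subtype.dist_eq, dist_eq_norm] using this
  obtain ⟨z, hz, hfix, -, -⟩ := ContractingWith.exists_fixedPoint' (isClosed_closedBall.isComplete)
    hmaps hcon (x := c) (mem_closedBall_self (by positivity)) (edist_ne_top _ _)
  refine ⟨N, z, by omega, hfix, (hder z).differentiableAt, ?_⟩
  have h5 : deriv (fun z => orb n c z N) z = P n c z N := (hder z).deriv
  have h6 := hbd z hz
  rw [← h5] at h6
  exact lt_of_le_of_lt h6 (by norm_num)

/-- `|(z+t)^n - z^n|` for a small `t`. -/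
theorem norm_pow_sub_le {n : ℕ} (hn : 2 ≤ n) {θ K : ℝ} (hK : 0 < K)
    (hθ : (1 + 1 / K) ^ (n - 1) ≤ θ) {z w : ℂ} (h : ‖w - z‖ ≤ ‖z‖ / K) :
    ‖w ^ n - z ^ n‖ ≤ n * ‖z‖ ^ (n - 1) * θ * ‖w - z‖ := by
  have h1 : w ^ n - z ^ n = (∑ i ∈ Finset.range n, w ^ i * z ^ (n - 1 - i)) * (w - z) :=
    ((Commute.all w z).geom_sum₂_mul n).symm
  have h2 : ‖w‖ ≤ ‖z‖ * (1 + 1 / K) := by
    calc ‖w‖ = ‖z + (w - z)‖ := by ring_nf
      _ ≤ ‖z‖ + ‖w - z‖ := norm_add_le _ _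
      _ ≤ ‖z‖ + ‖z‖ / K := by linarith
      _ = ‖z‖ * (1 + 1 / K) := by ring
  have h3 : ‖z‖ ≤ ‖z‖ * (1 + 1 / K) := by
    have : 0 ≤ ‖z‖ * (1 / K) := by positivity
    linarith
  rw [h1, norm_mul]
  apply mul_le_mul_of_nonneg_right _ (norm_nonneg _)
  calc ‖∑ i ∈ Finset.range n, w ^ i * z ^ (n - 1 - i)‖
      ≤ ∑ i ∈ Finset.range n, ‖w ^ i * z ^ (n - 1 - i)‖ := norm_sum_le _ _
    _ ≤ ∑ i ∈ Finset.range n, (‖z‖ * (1 + 1 / K)) ^ (n - 1) := by
        apply Finset.sum_le_sum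
        intro i hi
        rw [Finset.mem_range] at hi
        rw [norm_mul, norm_pow, norm_pow]
        calc ‖w‖ ^ i * ‖z‖ ^ (n - 1 - i)
            ≤ (‖z‖ * (1 + 1 / K)) ^ i * (‖z‖ * (1 + 1 / K)) ^ (n - 1 - i) := by gcongr
          _ = (‖z‖ * (1 + 1 / K)) ^ (n - 1) := by rw [← pow_add]; congr 1; omega
    _ = n * (‖z‖ ^ (n - 1) * (1 + 1 / K) ^ (n - 1)) := by
        rw [Finset.sum_const, Finset.card_range, nsmul_eq_mul, mul_pow]
    _ ≤ n * (‖z‖ ^ (n - 1) * θ) := by gcongr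
    _ = n * ‖z‖ ^ (n - 1) * θ := by ring

theorem trap {n : ℕ} (hn : 2 ≤ n) {c : ℂ} {N : ℕ} (hN : 1 ≤ N) {θ K : ℝ} (hK : 0 < K)
    (hθ : (1 + 1 / K) ^ (n - 1) ≤ θ) (hρ : orb n c c N ≠ c)
    (h : ∀ i < N, θ ^ i * ‖P n c c i‖ * (8 * ‖orb n c c N - c‖) ≤ ‖orb n c c i‖ / K)
    (hend : θ ^ N * ‖P n c c N‖ ≤ 1 / 8) : c ∈ Hy n := by
  have hθ0 : 0 ≤ θ := le_trans (by positivity) hθ
  have hρ0 : 0 < ‖orb n c c N - c‖ := norm_pos_iff.mpr (sub_ne_zero.mpr hρ)
  apply attr_of_disc hN (s := 8 * ‖orb n c c N - c‖) (by positivity)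
  intro x hx
  have key : ∀ i ≤ N, ‖orb n c x i - orb n c c i‖ ≤
      θ ^ i * ‖P n c c i‖ * (8 * ‖orb n c c N - c‖) := by
    intro i
    induction i with
    | zero => intro _; simpa using hx
    | succ i ih =>
      intro hi
      have h1 := ih (by omega)
      have h2 := h i (by omega)
      have h3 := norm_pow_sub_le hn hK hθ (h1.trans h2)
      rw [orb_succ, orb_succ, add_sub_add_right_eq_sub, norm_P_succ]
      calc ‖orb n c x i ^ n - orb n c c i ^ n‖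
          ≤ n * ‖orb n c c i‖ ^ (n - 1) * θ * ‖orb n c x i - orb n c c i‖ := h3
        _ ≤ n * ‖orb n c c i‖ ^ (n - 1) * θ *
            (θ ^ i * ‖P n c c i‖ * (8 * ‖orb n c c N - c‖)) := by gcongr
        _ = _ := by ring
  have h1 := key N le_rfl
  have h2 : θ ^ N * ‖P n c c N‖ * (8 * ‖orb n c c N - c‖) ≤
      1 / 8 * (8 * ‖orb n c c N - c‖) := by gcongr
  calc ‖orb n c x N - c‖ = ‖(orb n c x N - orb n c c N) + (orb n c c N - c)‖ := by ring_nf
    _ ≤ ‖orb n c x N - orb n c c N‖ + ‖orb n c c N - c‖ := norm_add_le _ _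
    _ ≤ 8 * ‖orb n c c N - c‖ / 4 := by linarith

end Pool.Agent.T2H09.LU
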