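import Pool.Agent.T2H09.LU.Star
import Pool.Agent.T2H09.LU.TR
import Pool.Agent.T2H09.LU.SC

/-!
# Positive upper Lyapunov exponent of the critical value
-/

set_option autoImplicit false
open Set Filter Topology Metric MeasureTheory Polynomial
open scoped ENNReal

namespace Pool.Agent.T2H09.LU

open Pool.Agent.W746.LD Pool.Agent.T2H09.DH N62a1eb23

lemma ev_lin {a : ℝ} (ha : 0 < a) (C : ℝ) : ∀ᶠ M : ℕ in atTop, C ≤ a * M := by
  have h1 : Tendsto (fun M : ℕ => a * (M : ℝ)) atTop atTop :=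
    tendsto_natCast_atTop_atTop.const_mul_atTop ha
  exact h1.eventually_ge_atTop C

/-- The contribution of the shallow returns. -/
lemma small {n : ℕ} (hn : 2 ≤ n) {b T h : ℝ} {P m : ℕ} (hh : 0 < h)
    (hm : Real.log (2 * n) + P * T + 1 ≤ b * m) : ∀ᶠ M : ℕ in atTop, ∀ t : ℝ, t ≤ T * M →
      M * (2 * (n : ℝ)) ^ M * ((2 * Real.exp (-(b * M))) ^ m * (2 * (1 / h)) ^ P) ≤
        (Real.exp (-t) / 2) ^ P / 2 := by
  set A : ℝ := 2 ^ m * (2 * (1 / h)) ^ P * 2 ^ P * 2 with hA
  have hA0 : 0 < A := by positivity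
  have hlim : Tendsto (fun M : ℕ => A * ((M : ℝ) * Real.exp (-(M : ℝ)))) atTop (𝓝 0) := by
    have h1 : Tendsto (fun x : ℝ => x * Real.exp (-x)) atTop (𝓝 0) := by
      have := Real.tendsto_pow_mul_exp_neg_atTop_nhds_zero 1
      simpa using this
    have h2 := (h1.comp tendsto_natCast_atTop_atTop).const_mul A
    rwa [mul_zero] at h2
  have hev := hlim.eventually (gt_mem_nhds (show (0 : ℝ) < 1 by norm_num))
  filter_upwards [hev] with M hM t ht
  have hn0 : (0 : ℝ) < 2 * n := by
    have : (0 : ℝ) < n := by exact_mod_cast (by omega : 0 < n)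
    linarith
  have e1 : (2 * (n : ℝ)) ^ M = Real.exp (M * Real.log (2 * n)) := by
    rw [Real.exp_nat_mul, Real.exp_log hn0]
  have e2 : (2 * Real.exp (-(b * M))) ^ m = 2 ^ m * Real.exp (-(b * m * M)) := by
    rw [mul_pow, ← Real.exp_nat_mul]
    congr 2
    ring
  have e3 : (Real.exp (-t) / 2) ^ P / 2 = Real.exp (-(P * t)) / (2 ^ P * 2) := by
    rw [div_pow, ← Real.exp_nat_mul, div_div]
    congr 2
    ring
  rw [e1, e2, e3, le_div_iff₀ (by positivity)]
  have h4 : Real.exp (M * Real.log (2 * n)) * Real.exp (-(b * m * M)) ≤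
      Real.exp (-(M : ℝ)) * Real.exp (-(P * t)) := by
    rw [← Real.exp_add, ← Real.exp_add]
    apply Real.exp_le_exp.mpr
    have hM0 : (0 : ℝ) ≤ M := Nat.cast_nonneg _
    have h5 := mul_le_mul_of_nonneg_left hm hM0
    have h6 : (P : ℝ) * t ≤ P * (T * M) := by gcongr
    nlinarith
  calc M * Real.exp (M * Real.log (2 * n)) *
        (2 ^ m * Real.exp (-(b * m * M)) * (2 * (1 / h)) ^ P) * (2 ^ P * 2)
      = A * M * (Real.exp (M * Real.log (2 * n)) * Real.exp (-(b * m * M))) := by
        rw [hA]; ring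
    _ ≤ A * M * (Real.exp (-(M : ℝ)) * Real.exp (-(P * t))) := by gcongr
    _ = (A * (M * Real.exp (-(M : ℝ)))) * Real.exp (-(P * t)) := by ring
    _ ≤ 1 * Real.exp (-(P * t)) := by gcongr
    _ = _ := by rw [one_mul]

/-- The two logarithmic inequalities. -/
lemma logform {n : ℕ} (hn : 2 ≤ n) {c : ℂ} (hc : c ∈ multibrotSet n)
    (h0 : ∀ j, orb n c c j ≠ 0) {C h G : ℝ} {C0 P k J : ℕ} (hC : 0 < C) (hh : 0 < h) (hG : 0 < G)
    {t : ℝ} (hJ1 : 1 ≤ J)
    (hst : (Real.exp (-t) / 2) ^ P / 2 ≤ G * ((C0 + 1) * ep n c C J) /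
      (Real.pi * (h * dl n c k))) :
    Real.log ‖Pool.Agent.W746.LD.P n c c J‖ ≤ kap n c k + P * t +
      Real.log (G * (C0 + 1) * C / (Real.pi * h) * 2 ^ P * 2) ∧
    ∀ η : ℝ, 0 < η → Real.log ‖Pool.Agent.W746.LD.P n c c J‖ + kk n c J ≤ kap n c k + P * t +
      Real.log (G * (C0 + 1) * C / (Real.pi * h) * 2 ^ P * 2) + (η * (5 + kk n c J) - Real.log η) := by
  set V : ℝ := G * (C0 + 1) * C / (Real.pi * h) * 2 ^ P * 2 with hV
  have hV0 : 0 < V := by positivity
  have hdl := dl_pos hn hc k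
  have hPne : Pool.Agent.W746.LD.P n c c J ≠ 0 := P_ne_zero hn fun i _ => h0 i
  have hPpos : 0 < ‖Pool.Agent.W746.LD.P n c c J‖ := norm_pos_iff.mpr hPne
  set a : ℝ := Real.log ‖Pool.Agent.W746.LD.P n c c J‖ with ha
  set κ : ℝ := kap n c k with hκ
  have hea : Real.exp (-a) = ‖(Pool.Agent.W746.LD.P n c c J)⁻¹‖ := by
    rw [ha, Real.exp_neg, Real.exp_log hPpos, norm_inv]
  have hek : dl n c k = Real.exp (-κ) := (exp_kap hn hc k).symm
  have hρ := exp_kk h0 hJ1
  have hlog : Real.log ‖orb n c c J - c‖ = -kk n c J := by unfold kk; ring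
  have e3 : (Real.exp (-t) / 2) ^ P / 2 = Real.exp (-(P * t)) / (2 ^ P * 2) := by
    rw [div_pow, ← Real.exp_nat_mul, div_div]
    congr 2
    ring
  have hep : ep n c C J = C * Real.exp (-a) *
      min 1 (Real.exp (-kk n c J) * (5 + kk n c J)) := by
    unfold ep
    rw [hlog, hea, hρ, sub_neg_eq_add]
  set μ : ℝ := min 1 (Real.exp (-kk n c J) * (5 + kk n c J)) with hμ
  rw [e3, hep, hek] at hst
  -- the main inequality
  have hmain : Real.exp (a - κ - P * t) ≤ V * μ := by
    have h1 : Real.exp (a - κ - P * t) = Real.exp (-(P * t)) / (2 ^ P * 2) *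
        (2 ^ P * 2 * Real.exp a * Real.exp (-κ)) := by
      rw [show a - κ - P * t = -(P * t) + a + -κ by ring, Real.exp_add, Real.exp_add]
      field_simp
    rw [h1]
    have h2 : V * μ = G * ((C0 + 1) * (C * Real.exp (-a) * μ)) /
        (Real.pi * (h * Real.exp (-κ))) * (2 ^ P * 2 * Real.exp a * Real.exp (-κ)) := by
      have h3 : Real.exp (-a) * Real.exp a = 1 := by rw [← Real.exp_add]; simp
      have h4 : Real.exp (-κ) ≠ 0 := (Real.exp_pos _).ne'
      rw [hV]
      field_simp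
      rw [mul_assoc, h3, mul_one]
    rw [h2]
    gcongr
  have key : ∀ X : ℝ, 0 < X → μ ≤ X → a ≤ κ + P * t + Real.log V + Real.log X := by
    intro X hX hμX
    have h1 : Real.exp (a - κ - P * t) ≤ V * X := hmain.trans (by gcongr)
    have h2 := Real.log_le_log (Real.exp_pos _) h1
    rw [Real.log_exp, Real.log_mul hV0.ne' hX.ne'] at h2
    linarith
  refine ⟨?_, ?_⟩
  · have := key 1 one_pos (min_le_left _ _)
    rwa [Real.log_one, add_zero] at this
  · intro η hη
    have hX : 0 < Real.exp (-kk n c J) * (Real.exp (η * (5 + kk n c J)) / η) := by positivity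
    have h1 := key _ hX (by
      refine (min_le_right _ _).trans ?_
      apply mul_le_mul_of_nonneg_left _ (Real.exp_pos _).le
      rw [le_div_iff₀ hη]
      have := Real.add_one_le_exp (η * (5 + kk n c J))
      linarith)
    rw [Real.log_mul (Real.exp_pos _).ne' (by positivity), Real.log_exp,
      Real.log_div (Real.exp_pos _).ne' hη.ne', Real.log_exp] at h1
    linarith

/-- The quantitative form: a large derivative of an iterate at the critical value forces a parameter
with an attracting cycle at an exponentially small distance. -/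
theorem upperQ {n : ℕ} (hn : 2 ≤ n) {χ : ℝ} (hχ : 0 < χ) : ∃ C ε : ℝ, 0 < C ∧ 0 < ε ∧
    ∀ c ∈ multibrotSet n, ∀ M : ℕ, Real.exp (χ * M) ≤ ‖Pool.Agent.W746.LD.P n c c M‖ →
      infDist c (Hy n) ≤ C * Real.exp (-(ε * M)) := by
  have hn0 : (0 : ℝ) < n := by exact_mod_cast (by omega : 0 < n)
  have hn1 : (1 : ℝ) ≤ n := by exact_mod_cast (by omega : 1 ≤ n)
  have hlogn : 0 ≤ Real.log n := Real.log_nonneg hn1
  -- the parameters
  set b : ℝ := χ / 8 with hb
  have hb0 : 0 < b := by positivity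
  obtain ⟨C0, hC0, hC0b⟩ : ∃ C0 : ℕ, 0 < C0 ∧ Real.log 2 / C0 ≤ b := by
    obtain ⟨C0, hC0⟩ := exists_nat_gt (Real.log 2 / b)
    have hpos : (0 : ℝ) < C0 := lt_of_le_of_lt (by positivity) hC0
    refine ⟨C0, by exact_mod_cast hpos, ?_⟩
    rw [div_lt_iff₀ hb0] at hC0
    rw [div_le_iff₀ hpos]
    linarith
  have hC0' : (0 : ℝ) < C0 := by exact_mod_cast hC0
  obtain ⟨h, hh0, hh1, hhole⟩ := hole_exists hn C0
  obtain ⟨C1, hC1, hmass1⟩ := er_mass' hn
  obtain ⟨P, hP⟩ := exists_nat_ge ((2 * Real.log n + Real.log 4) / b)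
  set τ0 : ℝ := χ / (4 * (P + 1) ^ (P + 2)) with hτ0
  have hτ00 : 0 < τ0 := by positivity
  set τ : ℕ → ℝ := fun l => τ0 * (P + 1) ^ l with hτ
  set T : ℝ := τ (P + 1) with hT
  have hP1 : (1 : ℝ) ≤ P + 1 := by
    have : (0 : ℝ) ≤ P := Nat.cast_nonneg _
    linarith
  have hτmono : Monotone τ := by
    intro i j hij
    simp only [hτ]
    gcongr
  have hτpos : ∀ l, τ0 ≤ τ l := by
    intro l
    simp only [hτ]
    exact le_mul_of_one_le_right hτ00.le (one_le_pow₀ hP1)
  have hτstep : ∀ l, τ (l + 1) = P * τ l + τ l := by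
    intro l
    simp only [hτ]
    ring
  have hT0 : 0 < T := lt_of_lt_of_le hτ00 (hτpos _)
  have hPT : P * T ≤ χ / 4 := by
    rw [hT, hτ]
    simp only
    have e1 : (P : ℝ) * (τ0 * (P + 1) ^ (P + 1)) = χ / 4 * (P / (P + 1)) := by
      rw [hτ0, pow_succ ((P : ℝ) + 1) (P + 1)]
      field_simp
    rw [e1]
    have e2 : (P : ℝ) / (P + 1) ≤ 1 := by
      rw [div_le_one (by linarith)]; linarith
    exact mul_le_of_le_one_right (by positivity) e2
  obtain ⟨m, hm1, hm⟩ : ∃ m : ℕ, 1 ≤ m ∧ Real.log (2 * n) + P * T + 1 ≤ b * m := by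
    obtain ⟨m, hm⟩ := exists_nat_ge ((Real.log (2 * n) + P * T + 1) / b)
    refine ⟨m + 1, by omega, ?_⟩
    rw [div_le_iff₀ hb0] at hm
    push_cast
    linarith
  set η : ℝ := τ0 / (8 * (5 + χ + T + τ0)) with hη
  have hη0 : 0 < η := by positivity
  have hηle : η * (5 + χ + T + τ0) = τ0 / 8 := by
    rw [hη]
    field_simp
  have hη1 : η ≤ 1 / 8 := by
    have h1 : η * τ0 ≤ η * (5 + χ + T + τ0) := by
      apply mul_le_mul_of_nonneg_left _ hη0.le
      linarith
    have h2 : η * τ0 ≤ 1 / 8 * τ0 := by linarith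
    exact le_of_mul_le_mul_right h2 hτ00
  set η2 : ℝ := τ0 / 8 with hη2
  have hη20 : 0 < η2 := by positivity
  set K : ℝ := n / η2 with hK
  have hK0 : 0 < K := by positivity
  have hθ : (1 + 1 / K) ^ (n - 1) ≤ Real.exp η2 := by
    have h1 : 1 + 1 / K ≤ Real.exp (1 / K) := by
      have := Real.add_one_le_exp (1 / K)
      linarith
    calc (1 + 1 / K) ^ (n - 1) ≤ Real.exp (1 / K) ^ (n - 1) := by gcongr
      _ = Real.exp (((n - 1 : ℕ) : ℝ) * (1 / K)) := by rw [Real.exp_nat_mul]
      _ ≤ Real.exp η2 := by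
        apply Real.exp_le_exp.mpr
        rw [hK, one_div_div, Nat.cast_sub (by omega)]
        rw [mul_div_assoc', div_le_iff₀ hn0]
        push_cast
        nlinarith
  set A0 : ℝ := (3 * (1 / h)) ^ (m + P) with hA0
  have hA00 : 0 < A0 := by positivity
  set L : ℝ := Real.log (3 ^ n + 4) with hL
  have hlog3 : 0 ≤ Real.log 3 := Real.log_nonneg (by norm_num)
  -- choice of the constants
  set C7 : ℝ := Real.log (A0 * (C0 + 1) * C1 / (Real.pi * h) * 2 ^ P * 2) with hC7
  set ε : ℝ := min (τ0 / 16) (χ / 16) with hε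
  have hε0 : 0 < ε := by rw [hε]; positivity
  have hε1 : ε ≤ τ0 / 16 := min_le_left _ _
  have hε2 : ε ≤ χ / 16 := min_le_right _ _
  set C8 : ℝ := |C7| + |Real.log η| + |Real.log K| + Real.log 8 + 5 with hC8
  have hev : ∀ᶠ M : ℕ in atTop, (∀ t : ℝ, t ≤ T * M →
      M * (2 * (n : ℝ)) ^ M * ((2 * Real.exp (-(b * M))) ^ m * (2 * (1 / h)) ^ P) ≤
        (Real.exp (-t) / 2) ^ P / 2) ∧ 1 ≤ M ∧ Real.log 2 ≤ b * M ∧ 2 * C0 * L ≤ b * M ∧
      Real.log 3 + 1 ≤ b * M ∧ C8 ≤ (τ0 / 16) * M ∧ C8 ≤ (χ / 16) * M := by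
    filter_upwards [small hn hh0 hm, eventually_ge_atTop 1, ev_lin hb0 (Real.log 2),
      ev_lin hb0 (2 * C0 * L), ev_lin hb0 (Real.log 3 + 1),
      ev_lin (show 0 < τ0 / 16 by positivity) C8, ev_lin (show 0 < χ / 16 by positivity) C8]
      with M h1 h2 h3 h4 h5 h6 h7
    exact ⟨h1, h2, h3, h4, h5, h6, h7⟩
  obtain ⟨M1, hM1ev⟩ := eventually_atTop.mp hev
  refine ⟨max 1 (2 * Real.exp (ε * M1)), ε, lt_of_lt_of_le one_pos (le_max_left _ _), hε0, ?_⟩
  intro c hc M hMf
  by_contra hcon
  push Not at hcon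
  have hCe : Real.exp (-(ε * M)) < infDist c (Hy n) := by
    refine lt_of_le_of_lt ?_ hcon
    exact le_mul_of_one_le_left (Real.exp_pos _).le (le_max_left _ _)
  have hr : 0 < infDist c (Hy n) := (Real.exp_pos _).trans hCe
  have hMM1 : M1 ≤ M := by
    by_contra hlt
    push Not at hlt
    have h1 : 2 * Real.exp (ε * M1) * Real.exp (-(ε * M)) < 2 := by
      refine lt_of_le_of_lt ?_ (hcon.trans_le (infDist_le_two hn hc))
      exact mul_le_mul_of_nonneg_right (le_max_right _ _) (Real.exp_pos _).le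
    rw [mul_assoc, ← Real.exp_add] at h1
    have h2 : (1 : ℝ) ≤ Real.exp (ε * M1 + -(ε * M)) := by
      apply Real.one_le_exp
      have : (M : ℝ) ≤ M1 := by exact_mod_cast hlt.le
      nlinarith
    linarith
  obtain ⟨hMs, hM1, hMb, hML, hM3, hM9a, hM9b⟩ := hM1ev M hMM1
  obtain ⟨h0, -⟩ := far hn hc hr
  have hnot : c ∉ Hy n := by
    intro hmem
    rw [infDist_zero_of_mem hmem] at hr
    exact lt_irrefl _ hr
  have hPne : ∀ j, Pool.Agent.W746.LD.P n c c j ≠ 0 := fun j => P_ne_zero hn fun i _ => h0 i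
  have hPpos : ∀ j, 0 < ‖Pool.Agent.W746.LD.P n c c j‖ := fun j => norm_pos_iff.mpr (hPne j)
  set C : ℝ := C1 / infDist c (Hy n) with hCdef
  have hC : 0 < C := div_pos hC1 hr
  have hmass := hmass1 c hc hr
  set C6 : ℝ := Real.log (A0 * (C0 + 1) * C / (Real.pi * h) * 2 ^ P * 2) with hC6
  have hM0' : (0 : ℝ) ≤ M := Nat.cast_nonneg _
  have hC6le : C6 ≤ |C7| + ε * M := by
    have h1 : C6 = C7 - Real.log (infDist c (Hy n)) := by
      rw [hC6, hC7, ← Real.log_div (by positivity) hr.ne', hCdef]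
      congr 1
      field_simp
    have h2 := Real.log_lt_log (Real.exp_pos _) hCe
    rw [Real.log_exp] at h2
    have h3 := le_abs_self C7
    linarith
  have hX0 : 0 ≤ |C7| + ε * M := by positivity
  have hM9 : |C7| + ε * M + |Real.log η| + |Real.log K| + Real.log 8 + 5 ≤ (τ0 / 8) * M := by
    have : ε * M ≤ τ0 / 16 * M := by gcongr
    linarith
  have hM9' : |C7| + ε * M + |Real.log η| + |Real.log K| + Real.log 8 + 5 ≤ (χ / 8) * M := by
    have : ε * M ≤ χ / 16 * M := by gcongr
    linarith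
  have hM0 : (0 : ℝ) < M := by exact_mod_cast hM1
  have haM : χ * M ≤ Real.log ‖Pool.Agent.W746.LD.P n c c M‖ := by
    rw [Real.le_log_iff_exp_le (hPpos M)]
    exact hMf
  have hPM1 : 1 ≤ ‖Pool.Agent.W746.LD.P n c c M‖ := le_trans (Real.one_le_exp (by positivity)) hMf
  have hχb : χ = 8 * b := by rw [hb]; ring
  -- the choice of the scale
  obtain ⟨k, hk1, hkM, hkB1, hkB2, hkd⟩ := scale (kap n c)
    (monotone_nat_of_le_succ fun k => by
      unfold kap
      have := Real.log_le_log (dl_pos hn hc (k + 1)) (dl_anti hn hc k)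
      linarith)
    (by
      unfold kap
      have := Real.log_nonneg (dl_zero hn hc)
      linarith)
    (L := L)
    (fun k => by
      unfold kap
      have h1 := Real.log_le_log (dl_pos hn hc k) (dl_step hn hc k)
      rw [Real.log_mul (by positivity) (dl_pos hn hc (k + 1)).ne'] at h1
      linarith)
    (B1 := 2 * (b * M)) (B2 := 4 * (b * M)) (by positivity) hC0 (M := M)
    (by
      have h1 : (M : ℝ) / C0 * Real.log 2 = M * (Real.log 2 / C0) := by ring
      have h2 : (M : ℝ) * (Real.log 2 / C0) ≤ M * b := by gcongr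
      rw [h1]
      linarith)
    (by
      unfold kap
      have h1 := Real.log_le_log (mul_pos (dl_pos hn hc M) (hPpos M)) (dl_der hn hc M)
      rw [Real.log_mul (dl_pos hn hc M).ne' (hPpos M).ne'] at h1
      rw [hχb] at haM
      linarith)
  have hkd' : 2 * dl n c k ≤ dl n c (k - C0) := by
    rw [← Real.log_le_log_iff (by have := dl_pos hn hc k; positivity) (dl_pos hn hc _),
      Real.log_mul (by norm_num) (dl_pos hn hc k).ne']
    unfold kap at hkd
    linarith
  set κ : ℝ := kap n c k with hκ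
  -- the deep returns
  set DD : Finset ℕ := (Finset.Icc 1 M).filter fun j => b * M ≤ kk n c j with hDD
  have hcard : DD.card ≤ P := by
    have h1 : (DD.card : ℝ) ≤ (2 * Real.log n + Real.log 4) / b :=
      deep_count hn hc h0 hM1 hPM1 hb0
    exact_mod_cast h1.trans hP
  obtain ⟨l, hlP, hl⟩ := window DD hcard (kk n c) (fun l => κ + τ l * M) (by
    intro i j hij
    have := hτmono hij
    simp only
    gcongr)
  set t : ℝ := τ l * M with ht
  have hτl : τ l ≤ T := hτmono (by omega)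
  have hτl1 : τ (l + 1) ≤ T := hτmono (by omega)
  have hτl0 : 0 < τ l := lt_of_lt_of_le hτ00 (hτpos l)
  have ht0 : 0 ≤ t := by positivity
  have htT : t ≤ T * M := by rw [ht]; gcongr
  have hex : ∃ j, 1 ≤ j ∧ (j = M ∨ (j < M ∧ κ + τ (l + 1) * M < kk n c j)) := ⟨M, hM1, Or.inl rfl⟩
  classical
  set N : ℕ := Nat.find hex with hN
  obtain ⟨hN1, hN2⟩ := Nat.find_spec hex
  have hNM : N ≤ M := Nat.find_min' hex ⟨hM1, Or.inl rfl⟩
  have hsmall : ∀ j, 1 ≤ j → j < N → kk n c j ≤ κ + t := by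
    intro j hj1 hjN
    have h1 := Nat.find_min hex hjN
    have hjM : j < M := lt_of_lt_of_le hjN hNM
    by_cases hjD : j ∈ DD
    · have h2 := hl j hjD
      by_contra hc1
      push Not at hc1
      apply h2
      refine ⟨hc1, ?_⟩
      by_contra hc2
      push Not at hc2
      exact h1 ⟨hj1, Or.inr ⟨hjM, hc2⟩⟩
    · have h2 : kk n c j < b * M := by
        by_contra hc2
        push Not at hc2
        apply hjD
        rw [hDD, Finset.mem_filter, Finset.mem_Icc]
        exact ⟨⟨hj1, hjM.le⟩, hc2⟩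
      have h3 : 0 < b * M := by positivity
      linarith
  have hstar : ∀ J, 1 ≤ J → J ≤ N →
      Real.log ‖Pool.Agent.W746.LD.P n c c J‖ ≤ κ + P * t + C6 ∧
      Real.log ‖Pool.Agent.W746.LD.P n c c J‖ + kk n c J ≤ κ + P * t + C6 +
        (η * (5 + kk n c J) - Real.log η) := by
    intro J hJ1 hJN
    have h1 := core hn hc hr hh0 hh1 hhole hC hmass (b := b) (P := P) (m := m) (M := M) (k := k)
      (J := J) (t := t) hm1 hPM1 hcard hk1 hkB1 hkd' ht0 hJ1 (hJN.trans hNM)
      (fun j hj1 hjJ => hsmall j hj1 (lt_of_lt_of_le hjJ hJN))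
      (by
        rw [show (1 / 2 : ℝ) = Real.exp (-Real.log 2) by
          rw [Real.exp_neg, Real.exp_log (by norm_num)]; norm_num]
        apply Real.exp_le_exp.mpr
        linarith)
    have h2 := hMs t htT
    have h3 := logform hn hc h0 (C := C) (h := h) (G := A0) (C0 := C0) (P := P) (k := k) (J := J)
      hC hh0 hA00 (t := t) hJ1 (by linarith)
    exact ⟨h3.1, h3.2 η hη0⟩
  have hPt : P * t ≤ χ / 4 * M := by
    calc (P : ℝ) * t ≤ P * (T * M) := by gcongr
      _ = P * T * M := by ring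
      _ ≤ _ := by gcongr
  have habs2 := neg_abs_le (Real.log η)
  have habs3 := le_abs_self (Real.log K)
  have habs4 := abs_nonneg (Real.log η)
  have habs5 := abs_nonneg (Real.log K)
  have hlog8 : 0 ≤ Real.log 8 := Real.log_nonneg (by norm_num)
  have hτstepM : τ (l + 1) * M = P * t + t := by rw [hτstep, ht]; ring
  have ht00 : τ0 * M ≤ t := by rw [ht]; gcongr; exact hτpos l
  rcases hN2 with hNM' | ⟨hNM', hNdeep⟩
  · -- no very deep return
    have h1 := (hstar N hN1 le_rfl).1
    have hNM'' : N = M := hNM'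
    rw [hNM''] at h1
    have h2 : 4 * (b * M) = χ / 2 * M := by rw [hb]; ring
    nlinarith
  · -- the first very deep return
    rw [← hN] at hNdeep hNM'
    obtain ⟨h1, h2⟩ := hstar N hN1 le_rfl
    set kN : ℝ := kk n c N with hkN
    set aN : ℝ := Real.log ‖Pool.Agent.W746.LD.P n c c N‖ with haN
    have hκM : κ ≤ χ / 2 * M := by
      calc κ ≤ 4 * (b * M) := hkB2
        _ = _ := by rw [hb]; ring
    have hκ0 : 0 ≤ κ := le_trans (by positivity) hkB1
    have hτM : τ (l + 1) * M ≤ T * M := by gcongr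
    -- the derivative at the very deep return is small
    have haN2 : aN ≤ -(τ0 / 2) * M := by
      have h3 : aN ≤ κ + P * t + C6 + 5 * η - Real.log η - (1 - η) * kN := by linarith
      have h4 : (1 - η) * (κ + τ (l + 1) * M) ≤ (1 - η) * kN := by
        apply mul_le_mul_of_nonneg_left hNdeep.le
        linarith
      have h5 : η * (κ + τ (l + 1) * M) ≤ η * ((χ / 2 + T) * M) := by
        apply mul_le_mul_of_nonneg_left _ hη0.le
        linarith
      have h6 : η * ((χ / 2 + T) * M) ≤ τ0 / 8 * M := by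
        calc η * ((χ / 2 + T) * M) ≤ η * ((5 + χ + T + τ0) * M) :=
              mul_le_mul_of_nonneg_left (mul_le_mul_of_nonneg_right (by linarith) hM0.le) hη0.le
          _ = η * (5 + χ + T + τ0) * M := by ring
          _ = _ := by rw [hηle]
      have h7 : 5 * η ≤ 5 := by linarith
      nlinarith
    apply hnot
    apply trap hn hN1 hK0 hθ
    · intro heq
      have := rho_pos h0 hN1
      rw [heq, sub_self, norm_zero] at this
      exact lt_irrefl _ this
    · intro i hi
      by_contra hcon2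
      push Not at hcon2
      have hρN := rho_pos h0 hN1
      have hi0 : 0 < ‖orb n c c i‖ := norm_pos_iff.mpr (h0 i)
      have h3 := Real.log_lt_log (by positivity) hcon2
      rw [Real.log_div hi0.ne' hK0.ne', Real.log_mul (by have := hPpos i; positivity) (by positivity),
        Real.log_mul (by positivity) (hPpos i).ne', ← Real.exp_nat_mul, Real.log_exp,
        Real.log_mul (by norm_num) hρN.ne'] at h3
      have hlogN : Real.log ‖orb n c c N - c‖ = -kN := by rw [hkN]; unfold kk; ring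
      rw [hlogN] at h3
      -- the next depth
      have hk1 : kk n c (i + 1) = -(n * Real.log ‖orb n c c i‖) := by
        unfold kk
        rw [norm_orb_succ_sub, Real.log_pow]
      have ha1 : Real.log ‖Pool.Agent.W746.LD.P n c c (i + 1)‖ =
          Real.log ‖Pool.Agent.W746.LD.P n c c i‖ + Real.log n +
            (n - 1) * Real.log ‖orb n c c i‖ := by
        rw [norm_P_succ, Real.log_mul (hPpos i).ne' (by positivity), Real.log_mul hn0.ne'
          (by positivity), Real.log_pow, Nat.cast_sub (by omega)]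
        push_cast
        ring
      have hiM : (i : ℝ) ≤ M := by
        have : i ≤ M := by omega
        exact_mod_cast this
      have hiη : (i : ℝ) * η2 ≤ M * η2 := by gcongr
      have h4 : kN - Real.log 8 - Real.log K - M * η2 ≤
          Real.log ‖Pool.Agent.W746.LD.P n c c (i + 1)‖ + kk n c (i + 1) := by
        rw [ha1, hk1]
        linarith
      rcases Nat.lt_or_ge (i + 1) N with hiN | hiN
      · have h5 := (hstar (i + 1) (by omega) hiN.le).2
        have h6 := hsmall (i + 1) (by omega) hiN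
        have h7 : η * (5 + kk n c (i + 1)) ≤ η * (5 + ((χ / 2 + T) * M)) := by
          apply mul_le_mul_of_nonneg_left _ hη0.le
          linarith
        have h8 : η * (5 + ((χ / 2 + T) * M)) ≤ τ0 / 8 * M + 5 := by
          have h9 : η * ((χ / 2 + T) * M) ≤ η * ((5 + χ + T + τ0) * M) :=
            mul_le_mul_of_nonneg_left (mul_le_mul_of_nonneg_right (by linarith) hM0.le) hη0.le
          have h10 : η * ((5 + χ + T + τ0) * M) = τ0 / 8 * M := by
            rw [← mul_assoc, hηle]
          linarith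
        rw [hη2] at h4
        linarith
      · have hiN' : i + 1 = N := by omega
        rw [hiN'] at h4
        rw [hη2] at h4
        linarith
    · rw [← Real.exp_nat_mul, ← Real.exp_log (hPpos N), ← Real.exp_add,
        show (1 / 8 : ℝ) = Real.exp (-Real.log 8) by
          rw [Real.exp_neg, Real.exp_log (by norm_num)]; norm_num]
      apply Real.exp_le_exp.mpr
      have hNM'' : (N : ℝ) ≤ M := by exact_mod_cast hNM
      have hNη : (N : ℝ) * η2 ≤ M * η2 := by gcongr
      rw [hη2] at hNη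
      rw [hη2]
      linarith

/-- Density at the parameters with positive upper Lyapunov exponent of the critical value. -/
theorem upper {n : ℕ} (hn : 2 ≤ n) {c : ℂ} (hc : c ∈ multibrotSet n) {χ : ℝ} (hχ : 0 < χ)
    (hf : ∃ᶠ N : ℕ in atTop, Real.exp (χ * N) ≤ ‖Pool.Agent.W746.LD.P n c c N‖) :
    c ∈ closure (Hy n) := by
  have hne : (Hy n).Nonempty := ⟨0, zero_mem_Hy hn⟩
  rw [mem_closure_iff_infDist_zero hne]
  obtain ⟨C, ε, hC, hε, h⟩ := upperQ hn hχ
  by_contra hcon
  have hr : 0 < infDist c (Hy n) := lt_of_le_of_ne infDist_nonneg (Ne.symm hcon)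
  have hlim : Tendsto (fun N : ℕ => C * Real.exp (-(ε * N))) atTop (𝓝 0) := by
    have h1 : Tendsto (fun N : ℕ => Real.exp (-(ε * N))) atTop (𝓝 0) := by
      have : (fun N : ℕ => Real.exp (-(ε * N))) = fun N : ℕ => Real.exp (-ε * N) := by
        funext N; rw [neg_mul]
      rw [this]
      apply Real.tendsto_exp_atBot.comp
      exact (tendsto_natCast_atTop_atTop).const_mul_atTop_of_neg (by linarith)
    have h2 := h1.const_mul C
    rwa [mul_zero] at h2
  obtain ⟨N, hN1, hN2⟩ := (hf.and_eventually (hlim.eventually (gt_mem_nhds hr))).exists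
  have := h c hc N hN1
  linarith

end Pool.Agent.T2H09.LU
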