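import Pool.Agent.T2H09.LU.DS

/-!
# Package HE: existence of the hole (40 min)

* `hole_exists`: let `R 0 = 3`, `R (k+1) = R k ^ n + 2` (so `‖w‖ ≤ 3 → ‖orb n c w m‖ ≤ R m`),
  `h = 1 / (8 * R m)` (`≤ 1/24`). Let `y` be given by `dl_exists` for `k`, `δ = dl n c k`. As
  `2 δ ≤ dl n c (k - m)`, `ball c (2δ) ⊆ UU n c (k-m)`, so `‖orb n c x k‖ ≤ R m` on `ball c (2δ)`
  (`orb_add`), in particular on `ball y δ`. Schwarz/mean value on `ball y δ` (maps into
  `closedBall (orb n c y k) (2 R m)`): `‖orb n c x k - orb n c y k‖ ≤ 2 R m * ‖x - y‖ / δ ≤ 1/4` on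
  `ball y (h δ)`, so `‖orb n c x k‖ ≥ 3 - 1/4 = 11/4` and
  `‖orb n c x (k+1)‖ ≥ (11/4)^n - 2 ≥ (11/4)^2 - 2 > 3`. And `ball y (h δ) ⊆ ball c (2δ)` gives the
  first part.
-/

set_option autoImplicit false
open Set Filter Topology Metric

namespace Pool.Agent.T2H09.LU

open Pool.Agent.W746.LD Pool.Agent.T2H09.DH N62a1eb23

/-- The bounds `R 0 = 3`, `R (k+1) = R k ^ n + 2`. -/
noncomputable def RR (n : ℕ) : ℕ → ℝ
  | 0 => 3
  | k + 1 => RR n k ^ n + 2

lemma RR_ge {n : ℕ} (hn : 2 ≤ n) (k : ℕ) : 3 ≤ RR n k := by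
  induction k with
  | zero => simp [RR]
  | succ k ih =>
    have h1 : (1 : ℝ) ≤ RR n k := by linarith
    have h2 : RR n k ≤ RR n k ^ n := le_self_pow₀ h1 (by omega)
    simp only [RR]
    linarith

lemma orb_lt_RR {n : ℕ} (hn : 2 ≤ n) {c w : ℂ} (hc : ‖c‖ ≤ 2) (hw : ‖w‖ < 3) (k : ℕ) :
    ‖orb n c w k‖ < RR n k := by
  induction k with
  | zero => simpa [RR] using hw
  | succ k ih =>
    rw [orb_succ]
    simp only [RR]
    have h1 : ‖orb n c w k‖ ^ n < RR n k ^ n := pow_lt_pow_left₀ ih (norm_nonneg _) (by omega)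
    calc ‖orb n c w k ^ n + c‖ ≤ ‖orb n c w k ^ n‖ + ‖c‖ := norm_add_le _ _
      _ = ‖orb n c w k‖ ^ n + ‖c‖ := by rw [norm_pow]
      _ < RR n k ^ n + 2 := by linarith

/-- The hole. -/
theorem hole_exists {n : ℕ} (hn : 2 ≤ n) (m : ℕ) : ∃ h : ℝ, 0 < h ∧ h ≤ 1 / 4 ∧
    ∀ c ∈ multibrotSet n, ∀ k : ℕ, m ≤ k → 2 * dl n c k ≤ dl n c (k - m) →
      ∃ y : ℂ, ‖y - c‖ = dl n c k ∧ ∀ x ∈ ball y (h * dl n c k),
        x ∈ UU n c (k - m) ∧ x ∉ UU n c (k + 1) := by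
  have hR : 3 ≤ RR n m := RR_ge hn m
  have hR0 : 0 < RR n m := by linarith
  have hh0 : 0 < 1 / (8 * RR n m) := by positivity
  have hh1 : 1 / (8 * RR n m) ≤ 1 / 24 := by
    apply one_div_le_one_div_of_le (by norm_num)
    linarith
  refine ⟨1 / (8 * RR n m), hh0, by linarith, ?_⟩
  intro c hc k hmk hd
  obtain ⟨y, hy, hy3⟩ := dl_exists hn hc k
  have hc2 : ‖c‖ ≤ 2 := norm_le_two hn hc
  have hδ : 0 < dl n c k := dl_pos hn hc k
  set δ := dl n c k with hδdef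
  -- points of `ball y δ`
  have hball : ∀ x ∈ ball y δ, x ∈ UU n c (k - m) := by
    intro x hx
    apply ball_sub
    rw [mem_ball, dist_eq_norm] at hx ⊢
    calc ‖x - c‖ = ‖(x - y) + (y - c)‖ := by ring_nf
      _ ≤ ‖x - y‖ + ‖y - c‖ := norm_add_le _ _
      _ < δ + δ := by rw [hy]; linarith
      _ ≤ dl n c (k - m) := by linarith
  have hbd : ∀ x ∈ ball y δ, ‖orb n c x k‖ < RR n m := by
    intro x hx
    have h1 := hball x hx
    have h2 : orb n c x k = orb n c (orb n c x (k - m)) m := by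
      rw [← orb_add]; congr 1; omega
    rw [h2]
    exact orb_lt_RR hn hc2 h1 m
  have hmaps : MapsTo (fun x => orb n c x k) (ball y δ) (ball (orb n c y k) (2 * RR n m)) := by
    intro x hx
    rw [mem_ball, dist_eq_norm]
    calc ‖orb n c x k - orb n c y k‖ ≤ ‖orb n c x k‖ + ‖orb n c y k‖ := norm_sub_le _ _
      _ < 2 * RR n m := by
        have := hbd x hx
        have := hbd y (mem_ball_self hδ)
        linarith
  have hdiff : DifferentiableOn ℂ (fun x => orb n c x k) (ball y δ) :=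
    fun x _ => (hasDerivAt_orb x k).differentiableAt.differentiableWithinAt
  refine ⟨y, hy, ?_⟩
  intro x hx
  have hxδ : x ∈ ball y δ := by
    apply ball_subset_ball _ hx
    calc 1 / (8 * RR n m) * δ ≤ 1 * δ := by
          apply mul_le_mul_of_nonneg_right _ hδ.le
          linarith
      _ = δ := one_mul δ
  refine ⟨hball x hxδ, ?_⟩
  have h1 : dist (orb n c x k) (orb n c y k) ≤ (2 * RR n m) / δ * dist x y :=
    Complex.dist_le_div_mul_dist_of_mapsTo_ball hdiff (hmaps.mono_right ball_subset_closedBall) hxδ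
  have h2 : (2 * RR n m) / δ * dist x y ≤ 1 / 4 := by
    have h3 : dist x y ≤ 1 / (8 * RR n m) * δ := (mem_ball.1 hx).le
    calc (2 * RR n m) / δ * dist x y ≤ (2 * RR n m) / δ * (1 / (8 * RR n m) * δ) :=
          mul_le_mul_of_nonneg_left h3 (by positivity)
      _ = 1 / 4 := by field_simp; norm_num
  have h3 : 11 / 4 ≤ ‖orb n c x k‖ := by
    have h4 : ‖orb n c y k‖ ≤ ‖orb n c x k‖ + dist (orb n c x k) (orb n c y k) := by
      rw [dist_eq_norm]
      calc ‖orb n c y k‖ = ‖orb n c x k - (orb n c x k - orb n c y k)‖ := by ring_nf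
        _ ≤ _ := norm_sub_le _ _
    linarith
  intro hmem
  have h5 : ‖orb n c x (k + 1)‖ < 3 := hmem
  rw [orb_succ] at h5
  have h6 : (11 / 4 : ℝ) ^ 2 ≤ ‖orb n c x k‖ ^ n :=
    calc (11 / 4 : ℝ) ^ 2 ≤ (11 / 4 : ℝ) ^ n := pow_le_pow_right₀ (by norm_num) hn
      _ ≤ ‖orb n c x k‖ ^ n := pow_le_pow_left₀ (by norm_num) h3 n
  have h7 : ‖orb n c x k‖ ^ n ≤ ‖orb n c x k ^ n + c‖ + ‖c‖ := by
    rw [← norm_pow]
    calc ‖orb n c x k ^ n‖ = ‖(orb n c x k ^ n + c) - c‖ := by ring_nf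
      _ ≤ _ := norm_sub_le _ _
  norm_num at h6
  linarith

end Pool.Agent.T2H09.LU
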