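import Pool.Agent.T2H09.DH.Polar

/-!
# Package HO: a hole of a sum of simple poles (60 min)

`theorem circle_mono`: for `0 < ρ < ‖z - y‖` and `m ≥ 1`,
`∮_{C(y,ρ)} (x-y)^{-m} / (x-z) dx = -2πi (z-y)^{-m}`. Induction on `m` with the identity
`(x-y)^{-m}/(x-z) = (z-y)⁻¹ ((x-y)^{-(m-1)}/(x-z) - (x-y)^{-m})` on the circle, and
`∮ (x-y)^{-m} dx = 2πi` for `m = 1`, `= 0` for `m ≥ 2`
(`circleIntegral.integral_sub_zpow_of_ne`, `circleIntegral.integral_sub_inv_of_mem_ball`), and
`∮ 1/(x-z) dx = 0` (holomorphic in the closed disc: `DiffContOnCl.circleIntegral_eq_zero`).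

`theorem circle_poly`: linearity (`Polynomial.eval_eq_sum_range`, the coefficient of index `0` is
`Q.eval 0 = 0`).

`theorem hole`: for `ρ ∈ (s/2, s)`: `2π ‖∑ w_j Q(δ/(z_j-y))‖ = ‖∮_{C(y,ρ)} Q(δ/(x-y)) ∑ w_j/(x-z_j) dx‖
≤ B ∮ ‖∑ w_j/(x-z_j)‖ |dx|` since `‖δ/(x-y)‖ = δ/ρ ≤ 2δ/s` on this circle. Integrate over `ρ`:
`DH.annulus_ge` (with `R' = s/2`, `R = s`, after the translation `x ↦ x + y`; `F` = the product
`Q(δ/(x-y)) ∑ w_j/(x-z_j)`) and `DH.enorm_circle_le`; see `DH.core` for the same argument on an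
annulus. The annulus is `closedBall 0 s \ closedBall 0 (s/2)`; `closedBall` and `ball` differ by a
null set (`Measure.addHaar_sphere`), or use `s' < s` and let `s' → s`.
-/

set_option autoImplicit false
open Set Filter Topology Metric MeasureTheory Polynomial
open scoped ENNReal

namespace Pool.Agent.T2H09.LU

/-- the integrand is continuous on the circle -/
lemma ho_cont {y z : ℂ} {ρ : ℝ} (hρ : 0 < ρ) (hz : ρ < ‖z - y‖) (m : ℕ) :
    ContinuousOn (fun x : ℂ => ((x - y)⁻¹) ^ m / (x - z)) (sphere y ρ) := by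
  have h1 : ∀ x ∈ sphere y ρ, x - y ≠ 0 := by
    intro x hx h
    rw [mem_sphere, dist_eq_norm, h, norm_zero] at hx
    exact hρ.ne hx
  have h2 : ∀ x ∈ sphere y ρ, x - z ≠ 0 := by
    intro x hx h
    rw [mem_sphere, dist_eq_norm] at hx
    rw [sub_eq_zero] at h
    rw [← h, hx] at hz
    exact lt_irrefl _ hz
  have c1 : ContinuousOn (fun x : ℂ => x - y) (sphere y ρ) :=
    (continuous_id.sub continuous_const).continuousOn
  have c2 : ContinuousOn (fun x : ℂ => x - z) (sphere y ρ) :=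
    (continuous_id.sub continuous_const).continuousOn
  exact ((c1.inv₀ h1).pow m).div c2 h2

lemma ho_int {y z : ℂ} {ρ : ℝ} (hρ : 0 < ρ) (hz : ρ < ‖z - y‖) (m : ℕ) :
    CircleIntegrable (fun x : ℂ => ((x - y)⁻¹) ^ m / (x - z)) y ρ :=
  (ho_cont hρ hz m).circleIntegrable hρ.le

lemma ho_pow_int {y : ℂ} {ρ : ℝ} (hρ : 0 < ρ) (m : ℕ) :
    CircleIntegrable (fun x : ℂ => ((x - y)⁻¹) ^ m) y ρ := by
  refine ContinuousOn.circleIntegrable hρ.le ?_
  have h1 : ∀ x ∈ sphere y ρ, x - y ≠ 0 := by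
    intro x hx h
    rw [mem_sphere, dist_eq_norm, h, norm_zero] at hx
    exact hρ.ne hx
  have c1 : ContinuousOn (fun x : ℂ => x - y) (sphere y ρ) :=
    (continuous_id.sub continuous_const).continuousOn
  exact (c1.inv₀ h1).pow m

lemma ho_step {y z : ℂ} {ρ : ℝ} (hρ : 0 < ρ) (hz : ρ < ‖z - y‖) (m : ℕ) :
    ∮ x in C(y, ρ), ((x - y)⁻¹) ^ (m + 1) / (x - z) =
      (z - y)⁻¹ * ((∮ x in C(y, ρ), ((x - y)⁻¹) ^ m / (x - z)) -
        ∮ x in C(y, ρ), ((x - y)⁻¹) ^ (m + 1)) := by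
  rw [← circleIntegral.integral_sub (ho_int hρ hz m) (ho_pow_int hρ (m + 1)),
    ← circleIntegral.integral_const_mul]
  refine circleIntegral.integral_congr hρ.le fun x hx => ?_
  have h1 : x - y ≠ 0 := by
    intro h
    rw [mem_sphere, dist_eq_norm, h, norm_zero] at hx
    exact hρ.ne hx
  have h2 : x - z ≠ 0 := by
    intro h
    rw [mem_sphere, dist_eq_norm] at hx
    rw [sub_eq_zero] at h
    rw [← h, hx] at hz
    exact lt_irrefl _ hz
  have h3 : z - y ≠ 0 := by
    intro h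
    rw [h, norm_zero] at hz
    linarith
  rw [pow_succ]
  field_simp
  ring

lemma ho_pow_zero {y : ℂ} {ρ : ℝ} (m : ℕ) (hm : 2 ≤ m) :
    ∮ x in C(y, ρ), ((x - y)⁻¹) ^ m = 0 := by
  have h := circleIntegral.integral_sub_zpow_of_ne (n := -(m : ℤ)) (by omega) y y ρ
  rw [← h]
  congr 1
  funext x
  rw [zpow_neg, zpow_natCast, inv_pow]

theorem circle_mono {y z : ℂ} {ρ : ℝ} (hρ : 0 < ρ) (hz : ρ < ‖z - y‖) {m : ℕ} (hm : 1 ≤ m) :
    ∮ x in C(y, ρ), ((x - y)⁻¹) ^ m / (x - z) = -(2 * Real.pi * Complex.I) * ((z - y)⁻¹) ^ m := by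
  induction m, hm using Nat.le_induction with
  | base =>
    have hs := ho_step hρ hz 0
    rw [zero_add] at hs
    rw [hs]
    have e1 : ∮ x in C(y, ρ), ((x - y)⁻¹) ^ 0 / (x - z) = 0 := by
      refine DiffContOnCl.circleIntegral_eq_zero hρ.le ?_
      have hd : DifferentiableOn ℂ (fun x : ℂ => ((x - y)⁻¹) ^ 0 / (x - z)) (closedBall y ρ) := by
        have : (fun x : ℂ => ((x - y)⁻¹) ^ 0 / (x - z)) = fun x : ℂ => (x - z)⁻¹ := by
          funext x
          rw [pow_zero, one_div]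
        rw [this]
        intro x hx
        refine DifferentiableAt.differentiableWithinAt ?_
        refine DifferentiableAt.inv (differentiableAt_id.sub_const z) ?_
        intro h
        rw [mem_closedBall, dist_eq_norm] at hx
        have h' : x - z = 0 := h
        rw [sub_eq_zero] at h'
        rw [← h'] at hz
        linarith
      exact hd.diffContOnCl_ball Subset.rfl
    have e2 : ∮ x in C(y, ρ), ((x - y)⁻¹) ^ 1 = 2 * Real.pi * Complex.I := by
      simp only [pow_one]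
      exact circleIntegral.integral_sub_inv_of_mem_ball (mem_ball_self hρ)
    rw [e1, e2]
    ring
  | succ m hm ih =>
    rw [ho_step hρ hz m, ih, ho_pow_zero (m + 1) (by omega)]
    ring

lemma ho_gen {y z : ℂ} {ρ : ℝ} (hρ : 0 < ρ) (hz : ρ < ‖z - y‖) (Q : ℂ[X]) (δ : ℂ) :
    CircleIntegrable (fun x => (δ / (x - y)) * Q.eval (δ / (x - y)) / (x - z)) y ρ ∧
    ∮ x in C(y, ρ), (δ / (x - y)) * Q.eval (δ / (x - y)) / (x - z) =
      -(2 * Real.pi * Complex.I) * ((δ / (z - y)) * Q.eval (δ / (z - y))) := by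
  induction Q using Polynomial.induction_on' with
  | add p q hp hq =>
    have e : (fun x => (δ / (x - y)) * (p + q).eval (δ / (x - y)) / (x - z)) =
        fun x => (δ / (x - y)) * p.eval (δ / (x - y)) / (x - z) +
          (δ / (x - y)) * q.eval (δ / (x - y)) / (x - z) := by
      funext x
      rw [eval_add]
      ring
    refine ⟨by rw [e]; exact hp.1.add hq.1, ?_⟩
    rw [e, circleIntegral.integral_add hp.1 hq.1, hp.2, hq.2, eval_add]
    ring
  | monomial n a =>
    have e : (fun x => (δ / (x - y)) * (monomial n a).eval (δ / (x - y)) / (x - z)) =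
        fun x => (a * δ ^ (n + 1)) * (((x - y)⁻¹) ^ (n + 1) / (x - z)) := by
      funext x
      rw [eval_monomial]
      simp only [div_eq_mul_inv]
      ring
    refine ⟨by rw [e]; exact (ho_int hρ hz (n + 1)).const_fun_smul, ?_⟩
    rw [e, circleIntegral.integral_const_mul, circle_mono hρ hz (by omega), eval_monomial]
    simp only [div_eq_mul_inv]
    ring

lemma ho_gen' {y z : ℂ} {ρ : ℝ} (hρ : 0 < ρ) (hz : ρ < ‖z - y‖) (Q : ℂ[X])
    (h0 : Q.eval 0 = 0) (δ : ℂ) :
    CircleIntegrable (fun x => Q.eval (δ / (x - y)) / (x - z)) y ρ ∧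
    ∮ x in C(y, ρ), Q.eval (δ / (x - y)) / (x - z) =
      -(2 * Real.pi * Complex.I) * Q.eval (δ / (z - y)) := by
  have hX : Q = X * Q.divX := by
    have h := Polynomial.divX_mul_X_add Q
    have h1 : Q.coeff 0 = 0 := by rw [coeff_zero_eq_eval_zero]; exact h0
    rw [h1, C_0, add_zero] at h
    rw [mul_comm]
    exact h.symm
  have he : ∀ t : ℂ, Q.eval t = t * Q.divX.eval t := by
    intro t
    conv_lhs => rw [hX]
    rw [eval_mul, eval_X]
  have e : (fun x => Q.eval (δ / (x - y)) / (x - z)) =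
      fun x => (δ / (x - y)) * Q.divX.eval (δ / (x - y)) / (x - z) := by
    funext x
    rw [he]
  rw [e, he]
  exact ho_gen hρ hz Q.divX δ

theorem circle_poly {y z : ℂ} {ρ : ℝ} (hρ : 0 < ρ) (hz : ρ < ‖z - y‖) (Q : ℂ[X])
    (h0 : Q.eval 0 = 0) (δ : ℂ) :
    ∮ x in C(y, ρ), Q.eval (δ / (x - y)) / (x - z) =
      -(2 * Real.pi * Complex.I) * Q.eval (δ / (z - y)) :=
  (ho_gen' hρ hz Q h0 δ).2

lemma ho_ball (s : ℝ) : (closedBall (0 : ℂ) s : Set ℂ) =ᵐ[volume] ball (0 : ℂ) s := by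
  have h : volume (sphere (0 : ℂ) s) = 0 := Measure.addHaar_sphere volume 0 s
  have h2 : closedBall (0 : ℂ) s = ball (0 : ℂ) s ∪ sphere (0 : ℂ) s := by
    rw [ball_union_sphere]
  rw [h2]
  exact union_ae_eq_left_of_ae_eq_empty (ae_eq_empty.2 h)

/-- The estimate of the weighted sums by the mass of the hole. -/
theorem hole (N : ℕ) (z w : ℕ → ℂ) (y : ℂ) {s δ B : ℝ} (hs : 0 < s) (hδ : 0 < δ)
    (hz : ∀ j < N, s ≤ ‖z j - y‖) (Q : ℂ[X]) (h0 : Q.eval 0 = 0)
    (hB : ∀ u : ℂ, ‖u‖ ≤ 2 * δ / s → ‖Q.eval u‖ ≤ B) :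
    ENNReal.ofReal (Real.pi * s * ‖∑ j ∈ Finset.range N, w j * Q.eval ((δ : ℂ) / (z j - y))‖) ≤
      ENNReal.ofReal B * ∫⁻ x in ball y s, ‖∑ j ∈ Finset.range N, w j / (x - z j)‖ₑ := by
  have hS : Measurable fun x : ℂ => ∑ j ∈ Finset.range N, w j / (x - (z j - y)) :=
    Finset.measurable_sum _ fun j _ => measurable_const.div (measurable_id.sub_const _)
  obtain ⟨F, hFd⟩ : ∃ F : ℂ → ℂ, F = fun x => Q.eval ((δ : ℂ) / (x - 0)) *
      ∑ j ∈ Finset.range N, w j / (x - (z j - y)) := ⟨_, rfl⟩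
  have hF : Measurable F := by
    rw [hFd]
    exact (Q.continuous.measurable.comp
      (measurable_const.div (measurable_id.sub_const _))).mul hS
  obtain ⟨W, hW⟩ : ∃ W : ℂ, W = ∑ j ∈ Finset.range N, w j * Q.eval ((δ : ℂ) / (z j - y)) :=
    ⟨_, rfl⟩
  have hcirc : ∀ ρ ∈ Ioo (s / 2) s, ∮ x in C(0, ρ), F x = -(2 * Real.pi * Complex.I) * W := by
    intro ρ hρ
    have hρ0 : 0 < ρ := by linarith [hρ.1]
    have hzj : ∀ j ∈ Finset.range N, ρ < ‖(z j - y) - 0‖ := by
      intro j hj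
      rw [sub_zero]
      exact lt_of_lt_of_le hρ.2 (hz j (Finset.mem_range.1 hj))
    have e : F = fun x => ∑ j ∈ Finset.range N,
        w j * (Q.eval ((δ : ℂ) / (x - 0)) / (x - (z j - y))) := by
      rw [hFd]
      funext x
      rw [Finset.mul_sum]
      refine Finset.sum_congr rfl fun j _ => ?_
      simp only [div_eq_mul_inv]
      ring
    rw [e, circleIntegral.integral_fun_sum]
    · rw [hW, Finset.mul_sum]
      refine Finset.sum_congr rfl fun j hj => ?_
      rw [circleIntegral.integral_const_mul, circle_poly hρ0 (hzj j hj) Q h0, sub_zero]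
      ring
    · intro j hj
      exact (ho_gen' hρ0 (hzj j hj) Q h0 δ).1.const_fun_smul
  have h1 := DH.annulus_ge hF (R' := s / 2) (R := s) (A := 2 * Real.pi * ‖W‖) (by positivity)
    (by linarith) (by
      intro ρ hρ
      have hρ0 : 0 < ρ := by linarith [hρ.1]
      have h2 := DH.enorm_circle_le (F := F) hρ0
      rw [hcirc ρ hρ] at h2
      refine le_trans (le_of_eq ?_) h2
      rw [← ofReal_norm, norm_mul, norm_neg]
      congr 1
      rw [norm_mul, norm_mul, Complex.norm_I, mul_one, Complex.norm_real, Complex.norm_ofNat,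
        Real.norm_eq_abs, abs_of_pos Real.pi_pos])
  have h2 : ∫⁻ x in closedBall (0 : ℂ) s \ closedBall 0 (s / 2), ‖F x‖ₑ ≤
      ENNReal.ofReal B * ∫⁻ x in closedBall (0 : ℂ) s \ closedBall 0 (s / 2),
        ‖∑ j ∈ Finset.range N, w j / (x - (z j - y))‖ₑ := by
    rw [← lintegral_const_mul' _ _ ENNReal.ofReal_ne_top]
    apply setLIntegral_mono' (measurableSet_closedBall.diff measurableSet_closedBall)
    intro x hx
    rw [hFd]
    simp only
    rw [enorm_mul, ← ofReal_norm]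
    refine mul_le_mul_left (ENNReal.ofReal_le_ofReal (hB _ ?_)) _
    have hx2 : s / 2 < ‖x‖ := by
      have := hx.2
      rwa [mem_closedBall_zero_iff, not_le] at this
    rw [sub_zero, norm_div, Complex.norm_real, Real.norm_eq_abs, abs_of_pos hδ]
    rw [div_le_div_iff₀ (by linarith) hs]
    nlinarith
  have h3 : ∫⁻ x in closedBall (0 : ℂ) s \ closedBall 0 (s / 2),
      ‖∑ j ∈ Finset.range N, w j / (x - (z j - y))‖ₑ ≤
      ∫⁻ x in ball y s, ‖∑ j ∈ Finset.range N, w j / (x - z j)‖ₑ := by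
    refine le_trans (lintegral_mono_set sdiff_subset) ?_
    rw [setLIntegral_congr (ho_ball s), ← lintegral_indicator measurableSet_ball,
      ← lintegral_indicator measurableSet_ball,
      ← lintegral_sub_right_eq_self ((ball (0 : ℂ) s).indicator
        (fun x => ‖∑ j ∈ Finset.range N, w j / (x - (z j - y))‖ₑ)) y]
    refine le_of_eq (lintegral_congr fun x => ?_)
    by_cases hx : x ∈ ball y s
    · have hx' : x - y ∈ ball (0 : ℂ) s := by
        rw [mem_ball_zero_iff]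
        rwa [mem_ball, dist_eq_norm] at hx
      rw [indicator_of_mem hx, indicator_of_mem hx']
      congr 1
      refine Finset.sum_congr rfl fun j _ => ?_
      congr 1
      ring
    · have hx' : x - y ∉ ball (0 : ℂ) s := by
        rw [mem_ball_zero_iff]
        rwa [mem_ball, dist_eq_norm] at hx
      rw [indicator_of_notMem hx, indicator_of_notMem hx']
  calc ENNReal.ofReal (Real.pi * s *
        ‖∑ j ∈ Finset.range N, w j * Q.eval ((δ : ℂ) / (z j - y))‖) =
        ENNReal.ofReal (2 * Real.pi * ‖W‖ * (s - s / 2)) := by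
          rw [hW]
          congr 1
          ring
    _ ≤ _ := h1
    _ ≤ _ := h2
    _ ≤ _ := by gcongr

end Pool.Agent.T2H09.LU
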