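import Pool.Agent.T2H09.LU.DS

/-!
# The hole at a scale where the distance drops
-/

set_option autoImplicit false
open Set Filter Topology Metric

namespace Pool.Agent.T2H09.LU

open Pool.Agent.W746.LD Pool.Agent.T2H09.DH N62a1eb23

/-- The hole. -/
theorem hole2 {n : ℕ} (hn : 2 ≤ n) {c : ℂ} (hc : c ∈ multibrotSet n) {k : ℕ} (hk : 1 ≤ k) {lam : ℝ}
    (hlam : 0 < lam) (hd : (1 + lam) * dl n c k ≤ dl n c (k - 1)) :
    ∃ y : ℂ, ‖y - c‖ = dl n c k ∧
      ∀ x ∈ ball y (1 / (8 * (3 ^ n + 2)) * lam * dl n c k),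
        x ∈ UU n c (k - 1) ∧ x ∉ UU n c (k + 1) := by
  set R : ℝ := 3 ^ n + 2 with hRdef
  have hR3 : (3 : ℝ) ≤ R := by
    have h1 : (3 : ℝ) ^ 1 ≤ 3 ^ n := pow_le_pow_right₀ (by norm_num) (by omega)
    linarith
  have hR0 : 0 < R := by linarith
  obtain ⟨y, hy, hy3⟩ := dl_exists hn hc k
  have hc2 : ‖c‖ ≤ 2 := norm_le_two hn hc
  have hδ : 0 < dl n c k := dl_pos hn hc k
  set δ := dl n c k with hδdef
  set r : ℝ := lam * δ with hr
  have hr0 : 0 < r := mul_pos hlam hδ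
  have hball : ∀ x ∈ ball y r, x ∈ UU n c (k - 1) := by
    intro x hx
    apply ball_sub
    rw [mem_ball, dist_eq_norm] at hx ⊢
    calc ‖x - c‖ = ‖(x - y) + (y - c)‖ := by ring_nf
      _ ≤ ‖x - y‖ + ‖y - c‖ := norm_add_le _ _
      _ < r + δ := by rw [hy]; linarith
      _ = (1 + lam) * δ := by rw [hr]; ring
      _ ≤ dl n c (k - 1) := hd
  have hbd : ∀ x ∈ ball y r, ‖orb n c x k‖ < R := by
    intro x hx
    have h1 : ‖orb n c x (k - 1)‖ < 3 := hball x hx
    have h2 : orb n c x k = (orb n c x (k - 1)) ^ n + c := by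
      rw [← orb_succ]; congr 1; omega
    rw [h2, hRdef]
    have h3 : ‖orb n c x (k - 1)‖ ^ n < 3 ^ n := pow_lt_pow_left₀ h1 (norm_nonneg _) (by omega)
    calc ‖orb n c x (k - 1) ^ n + c‖ ≤ ‖orb n c x (k - 1) ^ n‖ + ‖c‖ := norm_add_le _ _
      _ = ‖orb n c x (k - 1)‖ ^ n + ‖c‖ := by rw [norm_pow]
      _ < 3 ^ n + 2 := by linarith
  have hmaps : MapsTo (fun x => orb n c x k) (ball y r) (ball (orb n c y k) (2 * R)) := by
    intro x hx
    rw [mem_ball, dist_eq_norm]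
    calc ‖orb n c x k - orb n c y k‖ ≤ ‖orb n c x k‖ + ‖orb n c y k‖ := norm_sub_le _ _
      _ < 2 * R := by
        have := hbd x hx
        have := hbd y (mem_ball_self hr0)
        linarith
  have hdiff : DifferentiableOn ℂ (fun x => orb n c x k) (ball y r) :=
    fun x _ => (hasDerivAt_orb x k).differentiableAt.differentiableWithinAt
  refine ⟨y, hy, ?_⟩
  intro x hx
  have hx' : x ∈ ball y (1 / (8 * R) * r) := by
    have e : 1 / (8 * R) * r = 1 / (8 * R) * lam * δ := by rw [hr]; ring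
    rw [e]
    exact hx
  have hxδ : x ∈ ball y r := by
    apply ball_subset_ball _ hx'
    apply mul_le_of_le_one_left hr0.le
    rw [div_le_one (by positivity)]
    linarith
  refine ⟨hball x hxδ, ?_⟩
  have h1 : dist (orb n c x k) (orb n c y k) ≤ (2 * R) / r * dist x y :=
    Complex.dist_le_div_mul_dist_of_mapsTo_ball hdiff (hmaps.mono_right ball_subset_closedBall) hxδ
  have h2 : (2 * R) / r * dist x y ≤ 1 / 4 := by
    have h3 : dist x y ≤ 1 / (8 * R) * r := (mem_ball.1 hx').le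
    calc (2 * R) / r * dist x y ≤ (2 * R) / r * (1 / (8 * R) * r) :=
          mul_le_mul_of_nonneg_left h3 (by positivity)
      _ = 1 / 4 := by field_simp; norm_num
  have h3 : 11 / 4 ≤ ‖orb n c x k‖ := by
    have h4 : ‖orb n c y k‖ ≤ ‖orb n c x k‖ + dist (orb n c x k) (orb n c y k) := by
      rw [dist_eq_norm]
      calc ‖orb n c y k‖ = ‖orb n c x k - (orb n c x k - orb n c y k)‖ := by ring_nf
        _ ≤ _ := norm_sub_le _ _
    linarith
  intro hmem
  have h5 : ‖orb n c x (k + 1)‖ < 3 := hmem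
  rw [orb_succ] at h5
  have h6 : (11 / 4 : ℝ) ^ 2 ≤ ‖orb n c x k‖ ^ n :=
    calc (11 / 4 : ℝ) ^ 2 ≤ (11 / 4 : ℝ) ^ n := pow_le_pow_right₀ (by norm_num) hn
      _ ≤ ‖orb n c x k‖ ^ n := pow_le_pow_left₀ (by norm_num) h3 n
  have h7 : ‖orb n c x k‖ ^ n ≤ ‖orb n c x k ^ n + c‖ + ‖c‖ := by
    rw [← norm_pow]
    calc ‖orb n c x k ^ n‖ = ‖(orb n c x k ^ n + c) - c‖ := by ring_nf
      _ ≤ _ := norm_sub_le _ _
  norm_num at h6
  linarith

end Pool.Agent.T2H09.LU
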