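import Pool.Agent.T2H09.DH.Final
import Pool.Agent.T2H09.IX.Root

/-!
# Package NV: the Schwarz lemma for functions without zeros (40 min)

`theorem nv`: `g` holomorphic without zeros on `ball c r`, `‖g‖ ≤ B` there. Then
`r * ‖deriv g c‖ ≤ 2 * ‖g c‖ * log (B' / ‖g c‖)` for every `B' > B`, hence (let `B' → B`, or apply the
maximum principle) the statement. Proof: a holomorphic logarithm `g = exp φ` on the ball (simply
connected / convex: primitive of `g'/g`), `h := log B' - φ` has positive real part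
`log B' - log ‖g‖`, `IX.harnack` gives `r * ‖φ'(c)‖ ≤ 2 * (log B' - log ‖g c‖)` and
`g' = g * φ'`.

`theorem nvS`: apply `nv` with `B = 4` on `ball c (infDist c (Hy n))` to the function
`g t = orb n t t N - t`. It has no zero there: the ball consists of parameters `t` of the multibrot
set without attracting cycle (see the proof of `DH.far`: `H713R2.AR.ball_subset`), and
`orb n t t N = t` with `N ≥ 1` gives `orb n t t (N - 1) = 0`
(`orb_succ`), contradiction with `Pool.Agent.H713R2.AR.P_ne_zero` as in the proof of `DH.far`.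
`‖g t‖ ≤ 2 + 2` by `mem_multibrot_orb` and `DH.norm_le_two`. The derivative:
`TH363.QI.hasDerivAt_D` and `DH.D_eq'`: `g'(c) = P n c c N * S n c c (N + 1) - 1
= P n c c N * S n c c N` (`S_succ`, `P n c c N ≠ 0`).
-/

set_option autoImplicit false
open Set Filter Topology Metric

namespace Pool.Agent.T2H09.LU

open Pool.Agent.W746.LD Pool.Agent.T2H09.DH N62a1eb23

theorem nv {g : ℂ → ℂ} {c : ℂ} {r B : ℝ} (hr : 0 < r) (hd : DifferentiableOn ℂ g (ball c r))
    (h0 : ∀ z ∈ ball c r, g z ≠ 0) (hB : ∀ z ∈ ball c r, ‖g z‖ ≤ B) :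
    r * ‖deriv g c‖ ≤ 2 * ‖g c‖ * Real.log (B / ‖g c‖) := by
  have hcb : c ∈ ball c r := mem_ball_self hr
  have hga : ∀ z ∈ ball c r, DifferentiableAt ℂ g z := fun z hz =>
    (hd z hz).differentiableAt (isOpen_ball.mem_nhds hz)
  have hgc : 0 < ‖g c‖ := norm_pos_iff.mpr (h0 c hcb)
  have hdg : DifferentiableOn ℂ (deriv g) (ball c r) := hd.deriv isOpen_ball
  have hq : DifferentiableOn ℂ (fun z => deriv g z / g z) (ball c r) := hdg.fun_div hd h0
  obtain ⟨F, hFc, hF⟩ := hq.isExactOn_ball.with_val_at c (Complex.log (g c))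
  have hconst : ∀ z ∈ ball c r, Complex.exp (-F z) * g z = 1 := by
    intro z hz
    have h1 : ∀ w ∈ ball c r, HasDerivAt (fun z => Complex.exp (-F z) * g z) 0 w := by
      intro w hw
      have h2 := ((hF w hw).neg.cexp).mul (hga w hw).hasDerivAt
      refine h2.congr_deriv ?_
      have h3 := h0 w hw
      simp only [Pi.neg_apply]
      field_simp
      ring
    have h2 := isOpen_ball.is_const_of_deriv_eq_zero (convex_ball c r).isPreconnected
      (f := fun z => Complex.exp (-F z) * g z)
      (fun w hw => (h1 w hw).differentiableAt.differentiableWithinAt)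
      (fun w hw => (h1 w hw).deriv) hz hcb
    rw [h2]
    rw [hFc, Complex.exp_neg, Complex.exp_log (h0 c hcb), inv_mul_cancel₀ (h0 c hcb)]
  have hgF : ∀ z ∈ ball c r, g z = Complex.exp (F z) := by
    intro z hz
    have h1 := hconst z hz
    rw [Complex.exp_neg] at h1
    have h2 := Complex.exp_ne_zero (F z)
    field_simp at h1
    exact h1
  have hre : ∀ z ∈ ball c r, (F z).re = Real.log ‖g z‖ := by
    intro z hz
    rw [hgF z hz, Complex.norm_exp, Real.log_exp]
  have hBc : ‖g c‖ ≤ B := hB c hcb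
  have key : ∀ B' : ℝ, B < B' → r * ‖deriv g c‖ ≤ 2 * ‖g c‖ * Real.log (B' / ‖g c‖) := by
    intro B' hB'
    have hB'0 : 0 < B' := by linarith
    have h1 := IX.harnack (h := fun z => (Real.log B' : ℂ) - F z) hr
      (fun z hz => ((hF z hz).const_sub _).differentiableAt.differentiableWithinAt)
      (fun z hz => by
        rw [Complex.sub_re, Complex.ofReal_re, hre z hz, sub_pos]
        exact Real.log_lt_log (norm_pos_iff.mpr (h0 z hz)) ((hB z hz).trans_lt hB'))
    rw [((hF c hcb).const_sub _).deriv, norm_neg, norm_div, Complex.sub_re, Complex.ofReal_re,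
      hre c hcb, ← Real.log_div hB'0.ne' hgc.ne'] at h1
    calc r * ‖deriv g c‖ = r * (‖deriv g c‖ / ‖g c‖) * ‖g c‖ := by field_simp
      _ ≤ 2 * Real.log (B' / ‖g c‖) * ‖g c‖ := by gcongr
      _ = _ := by ring
  have hlim : Tendsto (fun B' : ℝ => 2 * ‖g c‖ * Real.log (B' / ‖g c‖)) (𝓝[>] B)
      (𝓝 (2 * ‖g c‖ * Real.log (B / ‖g c‖))) := by
    apply tendsto_nhdsWithin_of_tendsto_nhds
    apply Tendsto.const_mul
    apply Tendsto.log
    · exact tendsto_id.div_const _
    · have : 0 < B / ‖g c‖ := div_pos (by linarith) hgc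
      exact this.ne'
  exact ge_of_tendsto hlim (eventually_mem_nhdsWithin.mono fun B' hB' => key B' hB')

theorem nvS {n : ℕ} (hn : 2 ≤ n) {c : ℂ} (hc : c ∈ multibrotSet n) (h : 0 < infDist c (Hy n))
    {N : ℕ} (hN : 1 ≤ N) :
    infDist c (Hy n) * (‖P n c c N‖ * ‖S n c c N‖) ≤
      2 * ‖orb n c c N - c‖ * Real.log (4 / ‖orb n c c N - c‖) := by
  set r := infDist c (Hy n) with hr
  have hball : ∀ c' ∈ ball c r, ¬ ∃ m z, IsAttractingCycle (fun z => z ^ n + c') m z := by
    intro c' hc' hcon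
    have h1 : infDist c (Hy n) ≤ dist c c' := infDist_le_dist_of_mem hcon
    rw [mem_ball, dist_comm] at hc'
    linarith
  have hsub : ball c r ⊆ multibrotSet n := Pool.Agent.H713R2.AR.ball_subset hn h hc hball
  obtain ⟨k, rfl⟩ : ∃ k, N = k + 1 := ⟨N - 1, by omega⟩
  have hne : ∀ t ∈ ball c r, orb n t t (k + 1) - t ≠ 0 := by
    intro t ht h0
    rw [orb_succ, add_sub_cancel_right] at h0
    have h1 := Pool.Agent.H713R2.AR.P_ne_zero hn (hball t ht) (n := k + 1) (by omega)
    apply h1
    rw [P_eq_orb hn]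
    exact pow_eq_zero_iff (by omega) |>.mp h0
  have hbd : ∀ t ∈ ball c r, ‖orb n t t (k + 1) - t‖ ≤ 4 := by
    intro t ht
    have h1 := mem_multibrot_orb hn (hsub ht) (k + 1)
    have h2 := norm_le_two hn (hsub ht)
    have h3 := norm_sub_le (orb n t t (k + 1)) t
    linarith
  have hd : DifferentiableOn ℂ (fun t => orb n t t (k + 1) - t) (ball c r) :=
    ((diff_param (n := n) (k + 1)).sub differentiable_id).differentiableOn
  have hP : P n c c (k + 1) ≠ 0 := P_ne_zero hn fun i _ => (far hn hc h).1 i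
  have hder : deriv (fun t => orb n t t (k + 1) - t) c = P n c c (k + 1) * S n c c (k + 1) := by
    have h1 : HasDerivAt (fun t => orb n t t (k + 1) - t) (TH363.QI.D n c (k + 1) - 1) c :=
      (TH363.QI.hasDerivAt_D n c (k + 1)).sub (hasDerivAt_id c)
    rw [h1.deriv, D_eq' _ hP, S_succ, mul_add, mul_inv_cancel₀ hP]
    ring
  have h1 := nv h hd hne hbd
  rw [hder, norm_mul] at h1
  exact h1

end Pool.Agent.T2H09.LU
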