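import Pool.Agent.T2H09.DH.Polar

/-!
# Package TP: the integral of `|1/(w-a) - 1/(w-b)|` (45 min)

`theorem ann_inv_sq`: polar coordinates as in `DH.int_inv` (same proof with `1 / ρ ^ 2` instead of
`1 / ρ`; `∫ dρ / ρ` over `(s, R)` is `log (R / s)`: `integral_inv_of_pos` or `integral_one_div_of_pos`).

`theorem two_poles`: put `ρ = ‖a - b‖ ≤ 4`. One has
`‖1/(w-a) - 1/(w-b)‖ = ρ / (‖w-a‖ * ‖w-b‖)` (`w ≠ a, b`). On `ball a (ρ/2)`: `‖w-b‖ ≥ ρ/2`, so the
integrand is `≤ 2 * ‖w-a‖⁻¹`, integral `≤ 2 * (2π * ρ/2) = 2πρ` (`DH.int_inv`); the same on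
`ball b (ρ/2)`. On the rest of `closedBall 0 3`: `ρ/2 ≤ ‖w-a‖, ‖w-b‖ ≤ 5` (so `< 5 + ε`, or use
closed balls; the sphere is a null set), and
`ρ / (‖w-a‖ * ‖w-b‖) ≤ (ρ/2) * (‖w-a‖⁻² + ‖w-b‖⁻²)`, integral `≤ (ρ/2) * 2 * 2π log(10/ρ)`
(take the annulus with radii `ρ/2` and `6`; the constant `12` leaves room). Total
`≤ 4πρ + 2πρ log(12/ρ)`.
-/

set_option autoImplicit false
open Set Filter Topology Metric MeasureTheory
open scoped ENNReal

namespace Pool.Agent.T2H09.LU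

/-- the integral of `x⁻¹` as a lower integral -/
theorem lint_inv {s R : ℝ} (hs : 0 < s) (hR : s ≤ R) :
    ∫⁻ r in Ico s R, ENNReal.ofReal (r⁻¹) = ENNReal.ofReal (Real.log (R / s)) := by
  have hint : IntegrableOn (fun r : ℝ => r⁻¹) (Ico s R) := by
    apply IntegrableOn.mono_set _ Ico_subset_Icc_self
    apply ContinuousOn.integrableOn_Icc
    apply ContinuousOn.inv₀ continuousOn_id
    intro x hx
    exact (hs.trans_le hx.1).ne'
  rw [← ofReal_integral_eq_lintegral_ofReal hint]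
  · congr 1
    rw [integral_Ico_eq_integral_Ioc, ← intervalIntegral.integral_of_le hR,
      integral_inv_of_pos hs (hs.trans_le hR)]
  · refine (ae_restrict_iff' measurableSet_Ico).mpr (Filter.Eventually.of_forall ?_)
    intro x hx
    exact inv_nonneg.mpr (hs.le.trans hx.1)

theorem ann_inv_sq (a : ℂ) {s R : ℝ} (hs : 0 < s) (hR : s ≤ R) :
    ∫⁻ w in ball a R \ ball a s, ENNReal.ofReal ((‖w - a‖ ^ 2)⁻¹) ≤
      ENNReal.ofReal (2 * Real.pi * Real.log (R / s)) := by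
  have hS : MeasurableSet (ball (0 : ℂ) R \ ball 0 s) := measurableSet_ball.diff measurableSet_ball
  have hSa : MeasurableSet (ball a R \ ball a s) := measurableSet_ball.diff measurableSet_ball
  have e0 : ∫⁻ w in ball a R \ ball a s, ENNReal.ofReal ((‖w - a‖ ^ 2)⁻¹) =
      ∫⁻ w, (ball (0 : ℂ) R \ ball 0 s).indicator
        (fun w => ENNReal.ofReal ((‖w‖ ^ 2)⁻¹)) w := by
    rw [← lintegral_indicator hSa,
      ← lintegral_sub_right_eq_self
        (fun w => (ball (0 : ℂ) R \ ball 0 s).indicator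
          (fun w => ENNReal.ofReal ((‖w‖ ^ 2)⁻¹)) w) a]
    apply lintegral_congr
    intro w
    by_cases hw : w ∈ ball a R \ ball a s
    · have hw' : w - a ∈ ball (0 : ℂ) R \ ball 0 s := by
        rw [Set.mem_sdiff, mem_ball_zero_iff, mem_ball_zero_iff]
        rwa [Set.mem_sdiff, mem_ball, mem_ball, dist_eq_norm] at hw
      rw [indicator_of_mem hw, indicator_of_mem hw']
    · have hw' : w - a ∉ ball (0 : ℂ) R \ ball 0 s := by
        rw [Set.mem_sdiff, mem_ball_zero_iff, mem_ball_zero_iff]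
        rwa [Set.mem_sdiff, mem_ball, mem_ball, dist_eq_norm] at hw
      rw [indicator_of_notMem hw, indicator_of_notMem hw']
  rw [e0, ← Complex.lintegral_comp_polarCoord_symm]
  have e1 : ∀ p ∈ polarCoord.target, ENNReal.ofReal p.1 •
      (ball (0 : ℂ) R \ ball 0 s).indicator
        (fun w => ENNReal.ofReal ((‖w‖ ^ 2)⁻¹)) (Complex.polarCoord.symm p) =
      (Ico s R ×ˢ Ioo (-Real.pi) Real.pi).indicator (fun p => ENNReal.ofReal (p.1⁻¹)) p := by
    rintro ⟨r, θ⟩ hp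
    rw [polarCoord_target] at hp
    obtain ⟨hr, hθ⟩ := hp
    simp only [mem_Ioi] at hr
    have h3 : ‖Complex.polarCoord.symm (r, θ)‖ = r := by
      rw [Complex.norm_polarCoord_symm]
      exact abs_of_pos hr
    by_cases h : s ≤ r ∧ r < R
    · rw [indicator_of_mem, indicator_of_mem, h3, smul_eq_mul, ← ENNReal.ofReal_mul hr.le]
      · congr 1
        simp only
        field_simp
      · exact ⟨⟨h.1, h.2⟩, hθ⟩
      · rw [Set.mem_sdiff, mem_ball_zero_iff, mem_ball_zero_iff, h3]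
        exact ⟨h.2, not_lt.mpr h.1⟩
    · rw [indicator_of_notMem, indicator_of_notMem, smul_zero]
      · rintro ⟨⟨h1, h2⟩, _⟩
        exact h ⟨h1, h2⟩
      · rw [Set.mem_sdiff, mem_ball_zero_iff, mem_ball_zero_iff, h3]
        rintro ⟨h1, h2⟩
        exact h ⟨not_lt.mp h2, h1⟩
  rw [setLIntegral_congr_fun polarCoord.open_target.measurableSet e1]
  have hsub : Ico s R ×ˢ Ioo (-Real.pi) Real.pi ⊆ polarCoord.target := by
    rintro ⟨r, θ⟩ ⟨hr, hθ⟩
    rw [polarCoord_target]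
    exact ⟨hs.trans_le hr.1, hθ⟩
  have hm : Measurable fun p : ℝ × ℝ => ENNReal.ofReal (p.1⁻¹) := by fun_prop
  rw [setLIntegral_indicator (measurableSet_Ico.prod measurableSet_Ioo),
    inter_eq_left.mpr hsub, Measure.volume_eq_prod, setLIntegral_prod _ hm.aemeasurable]
  simp only [setLIntegral_const, Real.volume_Ioo]
  rw [lintegral_mul_const _ (by fun_prop), lint_inv hs hR,
    ← ENNReal.ofReal_mul' (by linarith [Real.pi_pos])]
  apply le_of_eq
  congr 1
  ring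

theorem two_poles {a b : ℂ} (ha : ‖a‖ ≤ 2) (hb : ‖b‖ ≤ 2) (hab : a ≠ b) :
    ∫⁻ w in closedBall (0 : ℂ) 3, ‖1 / (w - a) - 1 / (w - b)‖ₑ ≤
      ENNReal.ofReal (2 * Real.pi * (‖a - b‖ * (2 + Real.log (12 / ‖a - b‖)))) := by
  obtain ⟨ρ, hρ⟩ : ∃ ρ : ℝ, ‖a - b‖ = ρ := ⟨_, rfl⟩
  rw [hρ]
  have hρ0 : 0 < ρ := by rw [← hρ]; exact norm_pos_iff.mpr (sub_ne_zero.mpr hab)
  have hρ4 : ρ ≤ 4 := by rw [← hρ]; exact (norm_sub_le a b).trans (by linarith)
  have hπ := Real.pi_pos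
  have hne : ∀ᵐ w : ℂ ∂volume, w ≠ a ∧ w ≠ b := by
    have h1 : ∀ᵐ w : ℂ ∂volume, w ∈ ({a} : Set ℂ)ᶜ := compl_mem_ae_iff.mpr (measure_singleton a)
    have h2 : ∀ᵐ w : ℂ ∂volume, w ∈ ({b} : Set ℂ)ᶜ := compl_mem_ae_iff.mpr (measure_singleton b)
    filter_upwards [h1, h2] with w h3 h4
    exact ⟨h3, h4⟩
  have hval : ∀ w : ℂ, w ≠ a → w ≠ b → ‖1 / (w - a) - 1 / (w - b)‖ =
      ρ / (‖w - a‖ * ‖w - b‖) := by
    intro w h1 h2
    have h3 : w - a ≠ 0 := sub_ne_zero.mpr h1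
    have h4 : w - b ≠ 0 := sub_ne_zero.mpr h2
    have h5 : 1 / (w - a) - 1 / (w - b) = (a - b) / ((w - a) * (w - b)) := by
      field_simp
      ring
    rw [h5, norm_div, norm_mul, hρ]
  have hball : ∀ a' b' : ℂ, (∀ w : ℂ, w ≠ a' → w ≠ b' → ‖1 / (w - a) - 1 / (w - b)‖ =
      ρ / (‖w - a'‖ * ‖w - b'‖)) → ‖a' - b'‖ = ρ → (∀ᵐ w : ℂ ∂volume, w ≠ a' ∧ w ≠ b') →
      ∫⁻ w in ball a' (ρ / 2), ‖1 / (w - a) - 1 / (w - b)‖ₑ ≤
        ENNReal.ofReal (2 * Real.pi * ρ) := by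
    intro a' b' hv hab' hne'
    calc ∫⁻ w in ball a' (ρ / 2), ‖1 / (w - a) - 1 / (w - b)‖ₑ
        ≤ ∫⁻ w in ball a' (ρ / 2), ENNReal.ofReal 2 * ENNReal.ofReal (‖w - a'‖⁻¹) := by
          apply lintegral_mono_ae
          refine (ae_restrict_iff' measurableSet_ball).mpr ?_
          filter_upwards [hne'] with w hw hwb
          rw [mem_ball, dist_eq_norm] at hwb
          rw [← ofReal_norm, hv w hw.1 hw.2, ← ENNReal.ofReal_mul (by norm_num)]
          apply ENNReal.ofReal_le_ofReal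
          have h1 : 0 < ‖w - a'‖ := norm_pos_iff.mpr (sub_ne_zero.mpr hw.1)
          have h2 : ρ / 2 ≤ ‖w - b'‖ := by
            have h3 : ‖a' - b'‖ ≤ ‖w - a'‖ + ‖w - b'‖ := by
              have h4 : a' - b' = (w - b') - (w - a') := by ring
              rw [h4]
              refine (norm_sub_le _ _).trans (le_of_eq (add_comm _ _))
            rw [hab'] at h3
            linarith
          have h6 : 0 < ‖w - b'‖ := by linarith
          rw [div_le_iff₀ (by positivity)]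
          have h5 : 2 * ‖w - a'‖⁻¹ * (‖w - a'‖ * ‖w - b'‖) = 2 * ‖w - b'‖ := by
            field_simp
          rw [h5]
          linarith
      _ = ENNReal.ofReal 2 * ∫⁻ w in ball a' (ρ / 2), ENNReal.ofReal (‖w - a'‖⁻¹) := by
          rw [lintegral_const_mul' _ _ ENNReal.ofReal_ne_top]
      _ = ENNReal.ofReal (2 * Real.pi * ρ) := by
          rw [Pool.Agent.T2H09.DH.int_inv a' (by linarith), ← ENNReal.ofReal_mul (by norm_num)]
          congr 1
          ring
  have hA := hball a b hval hρ hne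
  have hB := hball b a (fun w h1 h2 => by rw [hval w h2 h1, mul_comm ‖w - a‖])
    (by rw [norm_sub_rev]; exact hρ) (hne.mono fun w hw => ⟨hw.2, hw.1⟩)
  obtain ⟨S, hS⟩ : ∃ S : Set ℂ, S = closedBall (0 : ℂ) 3 \ (ball a (ρ / 2) ∪ ball b (ρ / 2)) :=
    ⟨_, rfl⟩
  have hSm : MeasurableSet S := by
    rw [hS]
    exact measurableSet_closedBall.diff (measurableSet_ball.union measurableSet_ball)
  have hpiece : ∀ a' : ℂ, ‖a'‖ ≤ 2 → S ⊆ ball a' 6 \ ball a' (ρ / 2) →
      ∫⁻ w in S, ENNReal.ofReal ((‖w - a'‖ ^ 2)⁻¹) ≤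
        ENNReal.ofReal (2 * Real.pi * Real.log (12 / ρ)) := by
    intro a' _ hsub
    refine (lintegral_mono_set hsub).trans ((ann_inv_sq a' (by linarith) (by linarith)).trans ?_)
    apply le_of_eq
    congr 3
    field_simp
    norm_num
  have hsub1 : S ⊆ ball a 6 \ ball a (ρ / 2) := by
    intro w hw
    rw [hS] at hw
    refine ⟨?_, fun h => hw.2 (Or.inl h)⟩
    have h1 := mem_closedBall_zero_iff.mp hw.1
    rw [mem_ball, dist_eq_norm]
    linarith [norm_sub_le w a]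
  have hsub2 : S ⊆ ball b 6 \ ball b (ρ / 2) := by
    intro w hw
    rw [hS] at hw
    refine ⟨?_, fun h => hw.2 (Or.inr h)⟩
    have h1 := mem_closedBall_zero_iff.mp hw.1
    rw [mem_ball, dist_eq_norm]
    linarith [norm_sub_le w b]
  have hlog : 0 ≤ Real.log (12 / ρ) := by
    apply Real.log_nonneg
    rw [le_div_iff₀ hρ0]
    linarith
  have hC : ∫⁻ w in S, ‖1 / (w - a) - 1 / (w - b)‖ₑ ≤
      ENNReal.ofReal (2 * Real.pi * (ρ * Real.log (12 / ρ))) := by
    calc ∫⁻ w in S, ‖1 / (w - a) - 1 / (w - b)‖ₑ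
        ≤ ∫⁻ w in S, ENNReal.ofReal (ρ / 2) * (ENNReal.ofReal ((‖w - a‖ ^ 2)⁻¹) +
            ENNReal.ofReal ((‖w - b‖ ^ 2)⁻¹)) := by
          apply lintegral_mono_ae
          refine (ae_restrict_iff' hSm).mpr ?_
          filter_upwards [hne] with w hw hwS
          rw [← ofReal_norm, hval w hw.1 hw.2, ← ENNReal.ofReal_add (by positivity) (by positivity),
            ← ENNReal.ofReal_mul (by positivity)]
          apply ENNReal.ofReal_le_ofReal
          obtain ⟨x, hx⟩ : ∃ x : ℝ, ‖w - a‖ = x := ⟨_, rfl⟩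
          obtain ⟨y, hy⟩ : ∃ y : ℝ, ‖w - b‖ = y := ⟨_, rfl⟩
          have hx0 : 0 < x := by rw [← hx]; exact norm_pos_iff.mpr (sub_ne_zero.mpr hw.1)
          have hy0 : 0 < y := by rw [← hy]; exact norm_pos_iff.mpr (sub_ne_zero.mpr hw.2)
          rw [hx, hy]
          have h1 : ρ / 2 * ((x ^ 2)⁻¹ + (y ^ 2)⁻¹) - ρ / (x * y) = ρ / 2 * (x⁻¹ - y⁻¹) ^ 2 := by
            field_simp
            ring
          have h2 : 0 ≤ ρ / 2 * (x⁻¹ - y⁻¹) ^ 2 := by positivity
          linarith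
      _ = ENNReal.ofReal (ρ / 2) * ((∫⁻ w in S, ENNReal.ofReal ((‖w - a‖ ^ 2)⁻¹)) +
            ∫⁻ w in S, ENNReal.ofReal ((‖w - b‖ ^ 2)⁻¹)) := by
          rw [lintegral_const_mul' _ _ ENNReal.ofReal_ne_top, lintegral_add_left (by fun_prop)]
      _ ≤ ENNReal.ofReal (ρ / 2) * (ENNReal.ofReal (2 * Real.pi * Real.log (12 / ρ)) +
            ENNReal.ofReal (2 * Real.pi * Real.log (12 / ρ))) := by
          gcongr
          · exact hpiece a ha hsub1
          · exact hpiece b hb hsub2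
      _ = _ := by
          rw [← ENNReal.ofReal_add (by positivity) (by positivity),
            ← ENNReal.ofReal_mul (by positivity)]
          congr 1
          ring
  have hcover : closedBall (0 : ℂ) 3 ⊆ ball a (ρ / 2) ∪ (ball b (ρ / 2) ∪ S) := by
    intro w hw
    by_cases h1 : w ∈ ball a (ρ / 2)
    · exact Or.inl h1
    by_cases h2 : w ∈ ball b (ρ / 2)
    · exact Or.inr (Or.inl h2)
    right; right
    rw [hS]
    exact ⟨hw, fun h => h.elim h1 h2⟩
  refine (lintegral_mono_set hcover).trans ((lintegral_union_le _ _ _).trans ?_)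
  refine (add_le_add hA ((lintegral_union_le _ _ _).trans (add_le_add hB hC))).trans ?_
  rw [← ENNReal.ofReal_add (by positivity) (by positivity),
    ← ENNReal.ofReal_add (by positivity) (by positivity)]
  apply ENNReal.ofReal_le_ofReal
  apply le_of_eq
  ring

end Pool.Agent.T2H09.LU
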