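import Pool.Agent.T2H09.DH.Final
import Pool.Agent.T2H09.LU.NV
import Pool.Agent.T2H09.LU.TP

/-!
# Package MA: the mass of the error term (45 min)

`er n c N w = P⁻¹/(w - z_N) - S_{N+1}/(w - c)`, `z_N = orb n c c N`, `S_{N+1} = S_N + P⁻¹`
(`S_succ`), so `er = P⁻¹ (1/(w - z_N) - 1/(w - c)) - S_N/(w - c)`. Put `ρ = ‖z_N - c‖` (`0 < ρ ≤ 4`:
`ρ = ‖orb n c c (N-1)‖ ^ n`, `norm_orb_succ_sub`, and `DH.far` gives `orb ≠ 0`),
`r = infDist c (Hy n)`. Two bounds of `∫⁻ w in closedBall 0 3, ‖er‖ₑ`: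
(i) `≤ 2π · 6 · (‖P⁻¹‖ + ‖S_{N+1}‖)` (inside the proof of `DH.mass`: `DH.int_term_le` with `X = 6`),
and `r ‖P_N‖ ‖S_{N+1}‖ ≤ 2` by `DH.far` with `DH.D_eq'`; so `≤ C ‖P⁻¹‖`.
(ii) `TP.two_poles` for the first part: `‖P⁻¹‖ * 2π ρ (2 + log(12/ρ))`; `NV.nvS` for the second:
`‖S_N‖ ≤ (2/r) ‖P⁻¹‖ ρ log(4/ρ)` and `DH.int_term_le` (`X = 6`).
Both `2 + log(12/ρ) ≤ 5 - log ρ` and `log(4/ρ) ≤ 5 - log ρ`; `5 - log ρ ≥ 3`.
-/

set_option autoImplicit false
open Set Filter Topology Metric MeasureTheory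
open scoped ENNReal

namespace Pool.Agent.T2H09.LU

open Pool.Agent.W746.LD Pool.Agent.T2H09.DH N62a1eb23

/-- The bound of the mass of the error term. -/
noncomputable def ep (n : ℕ) (c : ℂ) (C : ℝ) (N : ℕ) : ℝ :=
  C * ‖(P n c c N)⁻¹‖ * min 1 (‖orb n c c N - c‖ * (5 - Real.log ‖orb n c c N - c‖))

private lemma er_fst {n : ℕ} {c : ℂ} (N : ℕ) (ho : ∀ j, ‖orb n c c j‖ ≤ 2) :
    ∫⁻ w in closedBall (0 : ℂ) 3, ‖er n c N w‖ₑ ≤
      ENNReal.ofReal (2 * Real.pi * 6 * (‖(P n c c N)⁻¹‖ + ‖S n c c (N + 1)‖)) := by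
  have hX : ∀ j, ‖orb n c c j‖ + 3 < (6 : ℝ) := fun j => by have := ho j; linarith
  have hc : ‖c‖ + 3 < (6 : ℝ) := by have := hX 0; rwa [orb_zero] at this
  calc ∫⁻ w in closedBall (0 : ℂ) 3, ‖er n c N w‖ₑ
      ≤ ∫⁻ w in closedBall (0 : ℂ) 3,
          (‖(P n c c N)⁻¹ / (w - orb n c c N)‖ₑ + ‖S n c c (N + 1) / (w - c)‖ₑ) := by
        apply lintegral_mono
        intro w
        unfold er
        exact enorm_sub_le
    _ = (∫⁻ w in closedBall (0 : ℂ) 3, ‖(P n c c N)⁻¹ / (w - orb n c c N)‖ₑ) +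
        ∫⁻ w in closedBall (0 : ℂ) 3, ‖S n c c (N + 1) / (w - c)‖ₑ := by
        apply lintegral_add_left
        exact (measurable_const.div (measurable_id.sub_const _)).enorm
    _ ≤ ENNReal.ofReal (2 * Real.pi * 6 * ‖(P n c c N)⁻¹‖) +
        ENNReal.ofReal (2 * Real.pi * 6 * ‖S n c c (N + 1)‖) :=
        add_le_add (int_term_le _ _ (hX N)) (int_term_le _ _ hc)
    _ = _ := by
        rw [← ENNReal.ofReal_add (by positivity) (by positivity)]
        congr 1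
        ring

private lemma er_snd {n : ℕ} {c : ℂ} (N : ℕ) (ho : ∀ j, ‖orb n c c j‖ ≤ 2)
    (hne : orb n c c N ≠ c) :
    ∫⁻ w in closedBall (0 : ℂ) 3, ‖er n c N w‖ₑ ≤
      ENNReal.ofReal (‖(P n c c N)⁻¹‖ * (2 * Real.pi * (‖orb n c c N - c‖ *
        (2 + Real.log (12 / ‖orb n c c N - c‖)))) + 2 * Real.pi * 6 * ‖S n c c N‖) := by
  have hc2 : ‖c‖ ≤ 2 := by have := ho 0; rwa [orb_zero] at this
  have hρ : 0 < ‖orb n c c N - c‖ := norm_pos_iff.mpr (sub_ne_zero.mpr hne)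
  have hρ4 : ‖orb n c c N - c‖ ≤ 4 := by
    refine (norm_sub_le _ _).trans ?_
    have := ho N
    linarith
  have hlog : 0 ≤ Real.log (12 / ‖orb n c c N - c‖) := by
    apply Real.log_nonneg
    rw [le_div_iff₀ hρ]
    linarith
  calc ∫⁻ w in closedBall (0 : ℂ) 3, ‖er n c N w‖ₑ
      ≤ ∫⁻ w in closedBall (0 : ℂ) 3,
          (‖(P n c c N)⁻¹‖ₑ * ‖1 / (w - orb n c c N) - 1 / (w - c)‖ₑ +
            ‖S n c c N / (w - c)‖ₑ) := by
        apply lintegral_mono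
        intro w
        have e : er n c N w = (P n c c N)⁻¹ * (1 / (w - orb n c c N) - 1 / (w - c)) -
            S n c c N / (w - c) := by
          unfold er
          rw [S_succ]
          ring
        simp only
        rw [e, ← enorm_mul]
        exact enorm_sub_le
    _ = (∫⁻ w in closedBall (0 : ℂ) 3,
          ‖(P n c c N)⁻¹‖ₑ * ‖1 / (w - orb n c c N) - 1 / (w - c)‖ₑ) +
        ∫⁻ w in closedBall (0 : ℂ) 3, ‖S n c c N / (w - c)‖ₑ := by
        apply lintegral_add_right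
        exact (measurable_const.div (measurable_id.sub_const _)).enorm
    _ = ‖(P n c c N)⁻¹‖ₑ * (∫⁻ w in closedBall (0 : ℂ) 3,
          ‖1 / (w - orb n c c N) - 1 / (w - c)‖ₑ) +
        ∫⁻ w in closedBall (0 : ℂ) 3, ‖S n c c N / (w - c)‖ₑ := by
        rw [lintegral_const_mul' _ _ enorm_ne_top]
    _ ≤ ‖(P n c c N)⁻¹‖ₑ * ENNReal.ofReal (2 * Real.pi * (‖orb n c c N - c‖ *
          (2 + Real.log (12 / ‖orb n c c N - c‖)))) +
        ENNReal.ofReal (2 * Real.pi * 6 * ‖S n c c N‖) := by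
        gcongr
        · exact two_poles (ho N) hc2 hne
        · exact int_term_le _ _ (by linarith)
    _ = _ := by
        rw [← ofReal_norm, ← ENNReal.ofReal_mul (norm_nonneg _),
          ← ENNReal.ofReal_add (by positivity) (by positivity)]

/-- The uniform version: the constant is `48 π / r`. -/
theorem er_mass' {n : ℕ} (hn : 2 ≤ n) :
    ∃ C : ℝ, 0 < C ∧ ∀ c ∈ multibrotSet n, 0 < infDist c (Hy n) → ∀ N : ℕ, 1 ≤ N →
      ∫⁻ w in closedBall (0 : ℂ) 3, ‖er n c N w‖ₑ ≤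
        ENNReal.ofReal (ep n c (C / infDist c (Hy n)) N) := by
  have hπ := Real.pi_pos
  refine ⟨48 * Real.pi, by positivity, ?_⟩
  intro c hc h N hN
  obtain ⟨hor, hD⟩ := far hn hc h
  have hP : ∀ j, P n c c j ≠ 0 := fun j => P_ne_zero hn fun i _ => hor i
  have ho := mem_multibrot_orb hn hc
  have hr2 := infDist_le_two hn hc
  obtain ⟨k, rfl⟩ : ∃ k, N = k + 1 := ⟨N - 1, by omega⟩
  have hρeq : ‖orb n c c (k + 1) - c‖ = ‖orb n c c k‖ ^ n := norm_orb_succ_sub c k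
  have hρ : 0 < ‖orb n c c (k + 1) - c‖ := by
    rw [hρeq]
    exact pow_pos (norm_pos_iff.mpr (hor k)) n
  have hne : orb n c c (k + 1) ≠ c := sub_ne_zero.mp (norm_pos_iff.mp hρ)
  have hnv := nvS hn hc h (N := k + 1) hN
  have h1 := er_fst (n := n) (c := c) (k + 1) ho
  have h2 := er_snd (n := n) (c := c) (k + 1) ho hne
  have hDk := hD (k + 1)
  rw [D_eq' _ (hP _), norm_mul] at hDk
  have hPp : 0 < ‖P n c c (k + 1)‖ := norm_pos_iff.mpr (hP _)
  set r := infDist c (Hy n) with hr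
  set ρ := ‖orb n c c (k + 1) - c‖ with hρd
  set s := ‖S n c c (k + 1)‖ with hs
  set s' := ‖S n c c (k + 1 + 1)‖ with hs'
  have hp : ‖(P n c c (k + 1))⁻¹‖ = ‖P n c c (k + 1)‖⁻¹ := norm_inv _
  unfold ep
  rw [← hρd]
  rw [hp] at h1 h2 ⊢
  set p := ‖P n c c (k + 1)‖ with hpd
  have hs'b : s' ≤ 2 / r * p⁻¹ := by
    rw [← div_eq_mul_inv, le_div_iff₀ hPp, le_div_iff₀ h]
    calc s' * p * r = r * (p * s') := by ring
      _ ≤ 2 := hDk
  have hsb : s ≤ 2 / r * p⁻¹ * (ρ * Real.log (4 / ρ)) := by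
    have e : 2 / r * p⁻¹ * (ρ * Real.log (4 / ρ)) = 2 * ρ * Real.log (4 / ρ) / (r * p) := by
      field_simp
    rw [e, le_div_iff₀ (by positivity)]
    calc s * (r * p) = r * (p * s) := by ring
      _ ≤ _ := hnv
  have hl12 : Real.log (12 / ρ) = Real.log 12 - Real.log ρ := Real.log_div (by norm_num) hρ.ne'
  have hl4 : Real.log (4 / ρ) = Real.log 4 - Real.log ρ := Real.log_div (by norm_num) hρ.ne'
  have hlog12 : Real.log 12 ≤ 3 := by
    rw [Real.log_le_iff_le_exp (by norm_num)]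
    have := Real.exp_one_gt_d9
    calc (12 : ℝ) ≤ 2.7182818283 ^ 3 := by norm_num
      _ ≤ Real.exp 1 ^ 3 := by gcongr
      _ = Real.exp 3 := by rw [← Real.exp_nat_mul]; norm_num
  have hlog4 : Real.log 4 ≤ 5 := (Real.log_le_log (by norm_num) (by norm_num)).trans
    (hlog12.trans (by norm_num))
  have hC : 12 * Real.pi * (1 + 2 / r) ≤ 48 * Real.pi / r := by
    rw [le_div_iff₀ h]
    have e : 12 * Real.pi * (1 + 2 / r) * r = 12 * Real.pi * (r + 2) := by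
      field_simp
    rw [e]
    nlinarith
  rcases min_choice 1 (ρ * (5 - Real.log ρ)) with hm | hm <;> rw [hm]
  · refine h1.trans (ENNReal.ofReal_le_ofReal ?_)
    calc 2 * Real.pi * 6 * (p⁻¹ + s') ≤ 2 * Real.pi * 6 * (p⁻¹ + 2 / r * p⁻¹) := by gcongr
      _ = 12 * Real.pi * (1 + 2 / r) * (p⁻¹ * 1) := by ring
      _ ≤ 48 * Real.pi / r * (p⁻¹ * 1) := by gcongr
      _ = 48 * Real.pi / r * p⁻¹ * 1 := by ring
  · refine h2.trans (ENNReal.ofReal_le_ofReal ?_)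
    have hL : 0 < p⁻¹ := inv_pos.mpr hPp
    have hr3 : 0 ≤ 2 / r := by positivity
    have a1 : ρ * (2 + Real.log (12 / ρ)) ≤ ρ * (5 - Real.log ρ) := by
      gcongr
      linarith
    have a2 : ρ * Real.log (4 / ρ) ≤ ρ * (5 - Real.log ρ) := by
      gcongr
      linarith
    have a3 : 0 ≤ ρ * (5 - Real.log ρ) := by
      refine mul_nonneg hρ.le ?_
      have h4 : ρ ≤ 4 := by
        refine (norm_sub_le _ _).trans ?_
        have := ho (k + 1)
        have h0 : ‖c‖ ≤ 2 := by have := ho 0; rwa [orb_zero] at this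
        linarith
      have : Real.log ρ ≤ Real.log 4 := Real.log_le_log hρ h4
      linarith
    set t := ρ * (5 - Real.log ρ) with ht
    calc p⁻¹ * (2 * Real.pi * (ρ * (2 + Real.log (12 / ρ)))) + 2 * Real.pi * 6 * s
        ≤ p⁻¹ * (2 * Real.pi * t) + 2 * Real.pi * 6 * (2 / r * p⁻¹ * t) := by
          gcongr
          exact hsb.trans (by gcongr)
      _ = 2 * Real.pi * p⁻¹ * t + 12 * Real.pi * (2 / r) * p⁻¹ * t := by ring
      _ ≤ 12 * Real.pi * p⁻¹ * t + 12 * Real.pi * (2 / r) * p⁻¹ * t := by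
          gcongr
          norm_num
      _ = 12 * Real.pi * (1 + 2 / r) * (p⁻¹ * t) := by ring
      _ ≤ 48 * Real.pi / r * (p⁻¹ * t) := by gcongr
      _ = 48 * Real.pi / r * p⁻¹ * t := by ring

theorem er_mass {n : ℕ} (hn : 2 ≤ n) {c : ℂ} (hc : c ∈ multibrotSet n) (h : 0 < infDist c (Hy n)) :
    ∃ C : ℝ, 0 < C ∧ ∀ N : ℕ, 1 ≤ N →
      ∫⁻ w in closedBall (0 : ℂ) 3, ‖er n c N w‖ₑ ≤ ENNReal.ofReal (ep n c C N) := by
  obtain ⟨C, hC, hm⟩ := er_mass' hn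
  exact ⟨C / infDist c (Hy n), by positivity, fun N hN => hm c hc h N hN⟩

end Pool.Agent.T2H09.LU
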