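import Pool.Agent.T2H09.DH.Final
import Pool.Agent.T2H09.LU.DS

/-!
# Package MB: the masses of the quadratic differential on the annuli (45 min)

`annulus_mass`: the proof of `DH.mass` with `E = UU n c k` instead of `closedBall 0 R` (open, so
measurable; `UU n c k ⊆ UU n c 0 ⊆ closedBall 0 3` by `UU_anti`) and
`{z | z ^ n + c ∈ UU n c k} = UU n c (k+1)` (`orb n c (z ^ n + c) k = orb n c z (k+1)`).
The finiteness of `∫⁻ w in closedBall 0 3, ‖qd n c N w‖ₑ` is in the proof of `DH.mass`.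

`hole_mass`: a set contained in `UU n c (k - m) \ UU n c (k + 1)` is covered by the `m + 1` annuli
`UU n c i \ UU n c (i+1)`, `k - m ≤ i ≤ k` (`A` need not be measurable: monotonicity and
subadditivity of the integral over sets, e.g. `lintegral_mono_set`, `lintegral_iUnion_le` /
induction on `m`).
-/

set_option autoImplicit false
open Set Filter Topology Metric MeasureTheory
open scoped ENNReal

namespace Pool.Agent.T2H09.LU

open Pool.Agent.W746.LD Pool.Agent.T2H09.DH N62a1eb23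

lemma isOpen_UU' (n : ℕ) (c : ℂ) (k : ℕ) : IsOpen (UU n c k) := by
  have hcont : Continuous fun z => orb n c z k :=
    continuous_iff_continuousAt.2 fun z => (hasDerivAt_orb z k).continuousAt
  exact isOpen_lt hcont.norm continuous_const

lemma UU_anti_le {n : ℕ} (hn : 2 ≤ n) {c : ℂ} (hc : c ∈ multibrotSet n) {j k : ℕ} (h : j ≤ k) :
    UU n c k ⊆ UU n c j := by
  induction h with
  | refl => exact subset_rfl
  | step _ ih => exact (UU_anti hn hc _).trans ih

lemma UU_sub_ball {n : ℕ} (hn : 2 ≤ n) {c : ℂ} (hc : c ∈ multibrotSet n) (k : ℕ) :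
    UU n c k ⊆ closedBall 0 3 := by
  intro z hz
  have h1 : z ∈ UU n c 0 := UU_anti_le hn hc (Nat.zero_le k) hz
  rw [mem_closedBall_zero_iff]
  have h2 : ‖orb n c z 0‖ < 3 := h1
  rw [orb_zero] at h2
  exact h2.le

lemma UU_preim (n : ℕ) (c : ℂ) (k : ℕ) : {z | z ^ n + c ∈ UU n c k} = UU n c (k + 1) := by
  ext z
  have h : orb n c (z ^ n + c) k = orb n c z (k + 1) := by
    rw [add_comm k 1, orb_add, orb_one]
  change ‖orb n c (z ^ n + c) k‖ < 3 ↔ ‖orb n c z (k + 1)‖ < 3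
  rw [h]

theorem annulus_mass {n : ℕ} (hn : 2 ≤ n) {c : ℂ} (hc : c ∈ multibrotSet n)
    (h : 0 < infDist c (Hy n)) {N : ℕ} {ε : ℝ}
    (hε : ∫⁻ w in closedBall (0 : ℂ) 3, ‖er n c N w‖ₑ ≤ ENNReal.ofReal ε) (k : ℕ) :
    ∫⁻ w in UU n c k \ UU n c (k + 1), ‖qd n c N w‖ₑ ≤ ENNReal.ofReal ε := by
  set E : Set ℂ := UU n c k with hE
  have hEm : MeasurableSet E := (isOpen_UU' n c k).measurableSet
  have hqm := measurable_qd n c N
  have h0 : ∀ j < N, orb n c c j ≠ 0 := fun j _ => (far hn hc h).1 j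
  have hX : ∀ j, ‖orb n c c j‖ + 3 < 6 := by
    intro j
    have := mem_multibrot_orb hn hc j
    linarith
  have hE3 : E ⊆ closedBall 0 3 := UU_sub_ball hn hc k
  -- finiteness
  have hfin : ∫⁻ w in E, ‖qd n c N w‖ₑ ≠ ⊤ := by
    have h1 : ∫⁻ w in closedBall (0 : ℂ) 3, ‖qd n c N w‖ₑ ≤
        ∑ j ∈ Finset.range N, ENNReal.ofReal (2 * Real.pi * 6 * ‖(P n c c j)⁻¹‖) := by
      calc ∫⁻ w in closedBall (0 : ℂ) 3, ‖qd n c N w‖ₑ
          ≤ ∫⁻ w in closedBall (0 : ℂ) 3,
              ∑ j ∈ Finset.range N, ‖(P n c c j)⁻¹ / (w - orb n c c j)‖ₑ :=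
            lintegral_mono fun w => enorm_sum_le _ _
        _ = ∑ j ∈ Finset.range N,
              ∫⁻ w in closedBall (0 : ℂ) 3, ‖(P n c c j)⁻¹ / (w - orb n c c j)‖ₑ := by
            apply lintegral_finsetSum'
            intro j _
            exact (measurable_const.div (measurable_id.sub_const _)).enorm.aemeasurable
        _ ≤ _ := Finset.sum_le_sum fun j _ => int_term_le _ _ (hX j)
    refine ne_top_of_le_ne_top ?_ ((lintegral_mono_set hE3).trans h1)
    exact (ENNReal.sum_lt_top.mpr fun j _ => ENNReal.ofReal_lt_top).ne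
  -- the orbit is a null set
  have hae : ∀ᵐ w : ℂ, ∀ j, w ≠ orb n c c j := by
    rw [ae_all_iff]
    intro j
    rw [ae_iff]
    simp
  have her : ∫⁻ w in E, ‖er n c N w‖ₑ ≤ ENNReal.ofReal ε := (lintegral_mono_set hE3).trans hε
  have key : ∫⁻ w in E, ‖qd n c N w‖ₑ ≤ (∫⁻ w in UU n c (k + 1), ‖qd n c N w‖ₑ) +
      ENNReal.ofReal ε := by
    calc ∫⁻ w in E, ‖qd n c N w‖ₑ
        ≤ ∫⁻ w in E, (‖∑ ζ ∈ (Tp n c - Polynomial.C w).roots.toFinset,
            qd n c N ζ / (n * ζ ^ (n - 1)) ^ 2‖ₑ + ‖er n c N w‖ₑ) := by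
          apply lintegral_mono_ae
          apply ae_restrict_of_ae
          filter_upwards [hae] with w hw
          rw [push_qd hn h0 (hw 0) (fun j _ => hw (j + 1))]
          have h2 : qd n c N w = (qd n c N w + er n c N w) - er n c N w := by ring
          calc ‖qd n c N w‖ₑ = ‖(qd n c N w + er n c N w) - er n c N w‖ₑ := by rw [← h2]
            _ ≤ _ := enorm_sub_le
      _ = (∫⁻ w in E, ‖∑ ζ ∈ (Tp n c - Polynomial.C w).roots.toFinset,
            qd n c N ζ / (n * ζ ^ (n - 1)) ^ 2‖ₑ) + ∫⁻ w in E, ‖er n c N w‖ₑ := by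
          apply lintegral_add_right
          unfold er
          exact ((measurable_const.div (measurable_id.sub_const _)).sub
            (measurable_const.div (measurable_id.sub_const _))).enorm
      _ ≤ _ := by
          refine add_le_add ((contr hn c hqm hEm).trans ?_) her
          rw [hE, UU_preim]
  have hsub : UU n c (k + 1) ⊆ E := UU_anti hn hc k
  have h3 : (∫⁻ w in UU n c (k + 1), ‖qd n c N w‖ₑ) +
      ∫⁻ w in E \ UU n c (k + 1), ‖qd n c N w‖ₑ ≤
      (∫⁻ w in UU n c (k + 1), ‖qd n c N w‖ₑ) + ENNReal.ofReal ε := by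
    have h4 := lintegral_inter_add_sdiff (μ := volume) (fun w => ‖qd n c N w‖ₑ) E
      (isOpen_UU' n c (k + 1)).measurableSet
    rw [inter_eq_right.mpr hsub] at h4
    rw [h4]
    exact key
  refine ENNReal.le_of_add_le_add_left ?_ h3
  exact ne_top_of_le_ne_top hfin (lintegral_mono_set hsub)

theorem hole_mass {n : ℕ} (hn : 2 ≤ n) {c : ℂ} (hc : c ∈ multibrotSet n)
    (h : 0 < infDist c (Hy n)) {N : ℕ} {ε : ℝ} (hε0 : 0 ≤ ε)
    (hε : ∫⁻ w in closedBall (0 : ℂ) 3, ‖er n c N w‖ₑ ≤ ENNReal.ofReal ε) {k m : ℕ} (hm : m ≤ k)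
    {A : Set ℂ} (hA : ∀ x ∈ A, x ∈ UU n c (k - m) ∧ x ∉ UU n c (k + 1)) :
    ∫⁻ w in A, ‖qd n c N w‖ₑ ≤ ENNReal.ofReal ((m + 1) * ε) := by
  have key : ∀ l j : ℕ, ∫⁻ w in UU n c j \ UU n c (j + l), ‖qd n c N w‖ₑ ≤
      ENNReal.ofReal (l * ε) := by
    intro l j
    induction l with
    | zero => simp
    | succ l ih =>
      have hsub : UU n c j \ UU n c (j + (l + 1)) ⊆
          (UU n c j \ UU n c (j + l)) ∪ (UU n c (j + l) \ UU n c (j + l + 1)) := by
        intro x hx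
        by_cases hxl : x ∈ UU n c (j + l)
        · exact Or.inr ⟨hxl, hx.2⟩
        · exact Or.inl ⟨hx.1, hxl⟩
      calc ∫⁻ w in UU n c j \ UU n c (j + (l + 1)), ‖qd n c N w‖ₑ
          ≤ ∫⁻ w in (UU n c j \ UU n c (j + l)) ∪ (UU n c (j + l) \ UU n c (j + l + 1)),
              ‖qd n c N w‖ₑ := lintegral_mono_set hsub
        _ ≤ (∫⁻ w in UU n c j \ UU n c (j + l), ‖qd n c N w‖ₑ) +
            ∫⁻ w in UU n c (j + l) \ UU n c (j + l + 1), ‖qd n c N w‖ₑ :=
            lintegral_union_le _ _ _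
        _ ≤ ENNReal.ofReal (l * ε) + ENNReal.ofReal ε :=
            add_le_add ih (annulus_mass hn hc h hε (j + l))
        _ = ENNReal.ofReal ((l + 1 : ℕ) * ε) := by
            rw [← ENNReal.ofReal_add (by positivity) hε0]
            congr 1
            push_cast
            ring
  have h1 : A ⊆ UU n c (k - m) \ UU n c ((k - m) + (m + 1)) := by
    intro x hx
    obtain ⟨h2, h3⟩ := hA x hx
    refine ⟨h2, ?_⟩
    have e : (k - m) + (m + 1) = k + 1 := by omega
    rwa [e]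
  refine (lintegral_mono_set h1).trans ((key (m + 1) (k - m)).trans ?_)
  apply ENNReal.ofReal_le_ofReal
  push_cast
  exact le_rfl

end Pool.Agent.T2H09.LU
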