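import Mathlib

/-!
# Selection of a good scale
-/

set_option autoImplicit false

namespace Pool.Agent.T2H09.LU

/-- A monotone sequence with bounded increments has a large increment at a value which is not just
below one of few given values. -/
theorem scale2 (κ : ℕ → ℝ) (hmono : Monotone κ) {L : ℝ} (hL : ∀ k, κ (k + 1) ≤ κ k + L)
    {B1 B2 lam om : ℝ} (hlam : 0 ≤ lam) (hom : 0 ≤ om) {M : ℕ} (h0 : κ 0 ≤ B1) (hM : B2 ≤ κ M)
    (h12 : B1 ≤ B2) (D : Finset ℕ) (v : ℕ → ℝ)
    (hcond : M * lam + D.card * (om + L) < B2 - B1) :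
    ∃ k, 1 ≤ k ∧ k ≤ M ∧ B1 ≤ κ k ∧ κ k ≤ B2 + L ∧ κ (k - 1) + lam ≤ κ k ∧
      ∀ j ∈ D, ¬ (κ k < v j ∧ v j ≤ κ k + om) := by
  by_contra hcon
  push Not at hcon
  have hL0 : 0 ≤ L := by
    have := hL 0
    have := hmono (Nat.le_succ 0)
    linarith
  -- the clamps
  set cl : ℝ → ℝ → ℝ → ℝ := fun a b x => min (max x a) b with hcl
  have hclmono : ∀ a b, Monotone (cl a b) := by
    intro a b x y hxy
    simp only [hcl]
    exact min_le_min_right _ (max_le_max_right _ hxy)
  have hstep : ∀ k < M, cl B1 B2 (κ (k + 1)) - cl B1 B2 (κ k) ≤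
      lam + ∑ j ∈ D, (cl (v j - om - L) (v j) (κ (k + 1)) - cl (v j - om - L) (v j) (κ k)) := by
    intro k hk
    have hkk := hmono (Nat.le_succ k)
    have hkL := hL k
    have hnn : ∀ j ∈ D, 0 ≤ cl (v j - om - L) (v j) (κ (k + 1)) - cl (v j - om - L) (v j) (κ k) :=
      fun j _ => sub_nonneg.mpr (hclmono _ _ hkk)
    have hsum0 := Finset.sum_nonneg hnn
    have hle : cl B1 B2 (κ (k + 1)) - cl B1 B2 (κ k) ≤ κ (k + 1) - κ k := by
      simp only [hcl]
      rcases le_total (κ (k + 1)) B1 with h1 | h1 <;> rcases le_total (κ k) B1 with h2 | h2 <;>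
        rcases le_total (κ (k + 1)) B2 with h3 | h3 <;> rcases le_total (κ k) B2 with h4 | h4 <;>
        simp only [max_eq_left, max_eq_right, min_eq_left, min_eq_right, h1, h2, h3, h4, h12] <;>
        linarith
    rcases le_or_gt (κ (k + 1)) B1 with h1 | h1
    · have e1 : cl B1 B2 (κ (k + 1)) = B1 := by
        simp only [hcl]; rw [max_eq_right h1, min_eq_left h12]
      have e2 : cl B1 B2 (κ k) = B1 := by
        simp only [hcl]; rw [max_eq_right (hkk.trans h1), min_eq_left h12]
      rw [e1, e2]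
      linarith
    rcases le_or_gt B2 (κ k) with h2 | h2
    · have e1 : cl B1 B2 (κ (k + 1)) = B2 := by
        simp only [hcl]; rw [max_eq_left h1.le, min_eq_right (h2.trans hkk)]
      have e2 : cl B1 B2 (κ k) = B2 := by
        simp only [hcl]; rw [max_eq_left (h12.trans h2), min_eq_right h2]
      rw [e1, e2]
      linarith
    rcases lt_or_ge (κ (k + 1)) (κ k + lam) with h3 | h3
    · linarith
    · obtain ⟨j, hj, hj1, hj2⟩ := hcon (k + 1) (by omega) (by omega) h1.le (by linarith)
        (by simpa using h3)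
      have h4 := Finset.single_le_sum hnn hj
      have e1 : cl (v j - om - L) (v j) (κ (k + 1)) = κ (k + 1) := by
        simp only [hcl]; rw [max_eq_left (by linarith), min_eq_left hj1.le]
      have e2 : cl (v j - om - L) (v j) (κ k) = κ k := by
        simp only [hcl]; rw [max_eq_left (by linarith), min_eq_left (by linarith)]
      rw [e1, e2] at h4
      linarith
  have htel : ∀ a b : ℝ, ∑ k ∈ Finset.range M, (cl a b (κ (k + 1)) - cl a b (κ k)) =
      cl a b (κ M) - cl a b (κ 0) := fun a b =>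
    Finset.sum_range_sub (fun k => cl a b (κ k)) M
  have h1 : ∑ k ∈ Finset.range M, (cl B1 B2 (κ (k + 1)) - cl B1 B2 (κ k)) ≤
      ∑ k ∈ Finset.range M, (lam +
        ∑ j ∈ D, (cl (v j - om - L) (v j) (κ (k + 1)) - cl (v j - om - L) (v j) (κ k))) :=
    Finset.sum_le_sum fun k hk => hstep k (Finset.mem_range.mp hk)
  rw [htel, Finset.sum_add_distrib, Finset.sum_comm, Finset.sum_const, Finset.card_range,
    nsmul_eq_mul] at h1
  have h2 : ∑ j ∈ D, ∑ k ∈ Finset.range M,
      (cl (v j - om - L) (v j) (κ (k + 1)) - cl (v j - om - L) (v j) (κ k)) ≤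
      ∑ _j ∈ D, (om + L) := by
    apply Finset.sum_le_sum
    intro j _
    rw [htel]
    have e1 : cl (v j - om - L) (v j) (κ M) ≤ v j := by
      simp only [hcl]; exact min_le_right _ _
    have e2 : v j - om - L ≤ cl (v j - om - L) (v j) (κ 0) := by
      simp only [hcl]; exact le_min (le_max_right _ _) (by linarith)
    linarith
  rw [Finset.sum_const, nsmul_eq_mul] at h2
  have e1 : cl B1 B2 (κ M) = B2 := by
    simp only [hcl]; rw [min_eq_right (hM.trans (le_max_left _ _))]
  have e2 : cl B1 B2 (κ 0) = B1 := by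
    simp only [hcl]; rw [max_eq_right h0, min_eq_left h12]
  rw [e1, e2] at h1
  linarith

end Pool.Agent.T2H09.LU
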