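import Pool.Agent.T2H09.LU.HE
import Pool.Agent.T2H09.LU.HO
import Pool.Agent.T2H09.LU.MA
import Pool.Agent.T2H09.LU.MB
import Pool.Agent.T2H09.LU.CB
import Pool.Agent.T2H09.LU.CT

/-!
# The lower bound for the mass of the error term
-/

set_option autoImplicit false
open Set Filter Topology Metric MeasureTheory Polynomial
open scoped ENNReal

namespace Pool.Agent.T2H09.LU

open Pool.Agent.W746.LD Pool.Agent.T2H09.DH N62a1eb23

/-- The depth of the `j`-th return. -/
noncomputable def kk (n : ℕ) (c : ℂ) (j : ℕ) : ℝ := -Real.log ‖orb n c c j - c‖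

/-- The logarithm of the inverse distance. -/
noncomputable def kap (n : ℕ) (c : ℂ) (k : ℕ) : ℝ := -Real.log (dl n c k)

lemma exp_kap {n : ℕ} (hn : 2 ≤ n) {c : ℂ} (hc : c ∈ multibrotSet n) (k : ℕ) :
    Real.exp (-kap n c k) = dl n c k := by
  unfold kap
  rw [neg_neg, Real.exp_log (dl_pos hn hc k)]

lemma rho_pos {n : ℕ} {c : ℂ} (h0 : ∀ j, orb n c c j ≠ 0) {j : ℕ} (hj : 1 ≤ j) :
    0 < ‖orb n c c j - c‖ := by
  obtain ⟨i, rfl⟩ : ∃ i, j = i + 1 := ⟨j - 1, by omega⟩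
  rw [norm_orb_succ_sub]
  exact pow_pos (norm_pos_iff.mpr (h0 i)) _

lemma exp_kk {n : ℕ} {c : ℂ} (h0 : ∀ j, orb n c c j ≠ 0) {j : ℕ} (hj : 1 ≤ j) :
    Real.exp (-kk n c j) = ‖orb n c c j - c‖ := by
  unfold kk
  rw [neg_neg, Real.exp_log (rho_pos h0 hj)]

theorem core {n : ℕ} (hn : 2 ≤ n) {c : ℂ} (hc : c ∈ multibrotSet n) (hr : 0 < infDist c (Hy n))
    {C0 : ℕ} {h : ℝ} (hh0 : 0 < h) (hh1 : h ≤ 1 / 4)
    (hhole : ∀ c ∈ multibrotSet n, ∀ k : ℕ, C0 ≤ k → 2 * dl n c k ≤ dl n c (k - C0) →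
      ∃ y : ℂ, ‖y - c‖ = dl n c k ∧ ∀ x ∈ ball y (h * dl n c k),
        x ∈ UU n c (k - C0) ∧ x ∉ UU n c (k + 1))
    {C : ℝ} (hC : 0 < C) (hmass : ∀ N : ℕ, 1 ≤ N →
      ∫⁻ w in closedBall (0 : ℂ) 3, ‖er n c N w‖ₑ ≤ ENNReal.ofReal (ep n c C N))
    {b : ℝ} {P m M k J : ℕ} {t : ℝ} (hm : 1 ≤ m) (hP1 : 1 ≤ ‖Pool.Agent.W746.LD.P n c c M‖)
    (hcard : ((Finset.Icc 1 M).filter fun j => b * M ≤ kk n c j).card ≤ P)
    (hk : C0 ≤ k) (hk2 : 2 * (b * M) ≤ kap n c k) (hkd : 2 * dl n c k ≤ dl n c (k - C0))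
    (ht : 0 ≤ t) (hJ1 : 1 ≤ J) (hJM : J ≤ M) (hJ : ∀ j, 1 ≤ j → j < J → kk n c j ≤ kap n c k + t)
    (hbM : Real.exp (-(b * M)) ≤ 1 / 2) :
    (Real.exp (-t) / 2) ^ P -
        M * (2 * n) ^ M * ((2 * Real.exp (-(b * M))) ^ m * (2 * (1 / h)) ^ P) ≤
      (3 * (1 / h)) ^ (m + P) * ((C0 + 1) * ep n c C J) / (Real.pi * (h * dl n c k)) := by
  obtain ⟨h0, -⟩ := far hn hc hr
  have hdl := dl_pos hn hc k
  obtain ⟨y, hy1, hy2⟩ := hhole c hc k hk hkd
  set δ : ℝ := dl n c k with hδ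
  have hs : 0 < h * δ := mul_pos hh0 hdl
  have hz : ∀ j, h * δ ≤ ‖orb n c c j - y‖ := by
    intro j
    by_contra hcon
    push Not at hcon
    have h1 : orb n c c j ∈ ball y (h * δ) := by rwa [mem_ball, dist_eq_norm]
    exact (hy2 _ h1).2 (UU_mem hn hc j (k + 1))
  have hexpk : Real.exp (-kap n c k) = δ := exp_kap hn hc k
  set u : ℕ → ℂ := fun j => (δ : ℂ) / (orb n c c j - y) with hu
  set w : ℕ → ℂ := fun j => (Pool.Agent.W746.LD.P n c c j)⁻¹ with hw
  have hun : ∀ j, ‖u j‖ = δ / ‖orb n c c j - y‖ := by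
    intro j
    simp only [hu]
    rw [norm_div, Complex.norm_real, Real.norm_eq_abs, abs_of_pos hdl]
  have huD : ∀ j, ‖u j‖ ≤ 1 / h := by
    intro j
    rw [hun, div_le_div_iff₀ (lt_of_lt_of_le hs (hz j)) hh0]
    have := hz j
    linarith
  have hcy : ‖c - y‖ = δ := by rw [norm_sub_rev]; exact hy1
  have hu0 : ‖u 0‖ = 1 := by
    rw [hun, orb_zero, hcy, div_self hdl.ne']
  have hw0 : w 0 = 1 := by simp [hw]
  have hn1 : (1 : ℝ) ≤ n := by exact_mod_cast (by omega : 1 ≤ n)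
  have hE1 : Real.exp (-t) ≤ 1 := by
    rw [Real.exp_le_one_iff]; linarith
  have hD1 : (1 : ℝ) ≤ 1 / h := by
    rw [le_div_iff₀ hh0]; linarith
  obtain ⟨Q, hQ0, hQB, hQ⟩ := star (J := J) (P := P) (m := m) hm
    (((Finset.Icc 1 M).filter fun j => b * M ≤ kk n c j).filter fun j => j < J)
    ((Finset.card_filter_le _ _).trans hcard) w u
    (D := 1 / h) (W := (2 * n) ^ M) (e1 := Real.exp (-t) / 2) (e2 := 2 * Real.exp (-(b * M)))
    hJ1 hw0 hu0 hD1 (by positivity) (by positivity) (by linarith) (by positivity) huD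
    (fun j hj => inv_le hn hc hP1 (by omega))
    (by
      intro j hj
      rw [Finset.mem_filter, Finset.mem_filter, Finset.mem_Icc] at hj
      obtain ⟨⟨⟨hj1, -⟩, -⟩, hjJ⟩ := hj
      have hρ := rho_pos h0 hj1
      have hρe : δ * Real.exp (-t) ≤ ‖orb n c c j - c‖ := by
        rw [← exp_kk h0 hj1, ← hexpk, ← Real.exp_add]
        apply Real.exp_le_exp.mpr
        have := hJ j hj1 hjJ
        linarith
      have hzj : 0 < ‖orb n c c j - y‖ := lt_of_lt_of_le hs (hz j)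
      have hzj' : orb n c c j - y ≠ 0 := norm_pos_iff.mp hzj
      have hcy' : c - y ≠ 0 := by
        rw [← norm_pos_iff, hcy]; exact hdl
      have e1 : u 0 - u j = (δ : ℂ) * (orb n c c j - c) / ((c - y) * (orb n c c j - y)) := by
        simp only [hu, orb_zero]
        field_simp
        ring
      rw [e1, norm_div, norm_mul, norm_mul, hcy, Complex.norm_real, Real.norm_eq_abs,
        abs_of_pos hdl, mul_div_mul_left _ _ hdl.ne', le_div_iff₀ hzj]
      have h3 : ‖orb n c c j - y‖ ≤ ‖orb n c c j - c‖ + δ := by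
        have : orb n c c j - y = (orb n c c j - c) + (c - y) := by ring
        rw [this]
        exact (norm_add_le _ _).trans (by rw [hcy])
      calc Real.exp (-t) / 2 * ‖orb n c c j - y‖
          ≤ Real.exp (-t) / 2 * (‖orb n c c j - c‖ + δ) := by gcongr
        _ = Real.exp (-t) * ‖orb n c c j - c‖ / 2 + δ * Real.exp (-t) / 2 := by ring
        _ ≤ 1 * ‖orb n c c j - c‖ / 2 + ‖orb n c c j - c‖ / 2 := by gcongr
        _ = _ := by ring)
    (by
      intro j hj1 hjJ hj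
      have hlt : kk n c j < b * M := by
        by_contra hcon
        push Not at hcon
        apply hj
        rw [Finset.mem_filter, Finset.mem_filter, Finset.mem_Icc]
        exact ⟨⟨⟨hj1, by omega⟩, hcon⟩, hjJ⟩
      have hρ1 : Real.exp (-(b * M)) ≤ ‖orb n c c j - c‖ := by
        rw [← exp_kk h0 hj1]
        apply Real.exp_le_exp.mpr
        linarith
      have hδ1 : δ ≤ Real.exp (-(b * M)) * Real.exp (-(b * M)) := by
        rw [← hexpk, ← Real.exp_add]
        apply Real.exp_le_exp.mpr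
        linarith
      have hE : 0 < Real.exp (-(b * M)) := Real.exp_pos _
      set E := Real.exp (-(b * M)) with hEdef
      have h3 : ‖orb n c c j - c‖ ≤ ‖orb n c c j - y‖ + δ := by
        have : orb n c c j - c = (orb n c c j - y) + (y - c) := by ring
        rw [this]
        exact (norm_add_le _ _).trans (by rw [hy1])
      have h4 : E * E ≤ E * (1 / 2) := by gcongr
      have h5 : E / 2 ≤ ‖orb n c c j - y‖ := by linarith
      rw [hun, div_le_iff₀ (lt_of_lt_of_le hs (hz j))]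
      calc δ ≤ E * E := hδ1
        _ = 2 * E * (E / 2) := by ring
        _ ≤ 2 * E * ‖orb n c c j - y‖ := by gcongr)
  have hB0 : (0 : ℝ) ≤ (3 * (1 / h)) ^ (m + P) := by positivity
  have h1 := hole J (fun j => orb n c c j) w y hs hdl (fun j _ => hz j) Q hQ0
    (B := (3 * (1 / h)) ^ (m + P)) (by
      intro x hx
      apply hQB
      refine hx.trans (le_of_eq ?_)
      field_simp)
  have hε0 : 0 ≤ ep n c C J := by
    unfold ep
    apply mul_nonneg (by positivity)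
    apply le_min zero_le_one
    apply mul_nonneg (norm_nonneg _)
    have h5 : ‖orb n c c J - c‖ ≤ 4 := by
      refine (norm_sub_le _ _).trans ?_
      have := mem_multibrot_orb hn hc J
      have := norm_le_two hn hc
      linarith
    have h6 : Real.log ‖orb n c c J - c‖ ≤ 4 - 1 := by
      have h7 := Real.log_le_sub_one_of_pos (rho_pos h0 hJ1)
      linarith
    linarith
  have h2 := hole_mass hn hc hr (N := J) hε0 (hmass J hJ1) hk (A := ball y (h * δ)) hy2
  have h3 : ENNReal.ofReal (Real.pi * (h * δ) *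
      ‖∑ j ∈ Finset.range J, w j * Q.eval (u j)‖) ≤
      ENNReal.ofReal ((3 * (1 / h)) ^ (m + P) * ((C0 + 1) * ep n c C J)) := by
    rw [ENNReal.ofReal_mul hB0]
    refine h1.trans ?_
    gcongr
    exact h2
  rw [ENNReal.ofReal_le_ofReal_iff (by positivity)] at h3
  have h4 : ‖∑ j ∈ Finset.range J, w j * Q.eval (u j)‖ ≤
      (3 * (1 / h)) ^ (m + P) * ((C0 + 1) * ep n c C J) / (Real.pi * (h * δ)) := by
    rw [le_div_iff₀ (by positivity)]
    linarith
  refine le_trans ?_ (hQ.trans h4)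
  have hJM' : (J : ℝ) ≤ M := by exact_mod_cast hJM
  gcongr

end Pool.Agent.T2H09.LU
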