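import Pool.Agent.T2H09.LU.Star
import Pool.Agent.T2H09.LU.TR

/-!
# The lower bound for the mass of the error term, given the hole, and the last step
-/

set_option autoImplicit false
open Set Filter Topology Metric MeasureTheory Polynomial
open scoped ENNReal

namespace Pool.Agent.T2H09.LU

open Pool.Agent.W746.LD Pool.Agent.T2H09.DH N62a1eb23

theorem core2 {n : ℕ} (hn : 2 ≤ n) {c : ℂ} (hc : c ∈ multibrotSet n) (hr : 0 < infDist c (Hy n))
    {C0 : ℕ} {h : ℝ} (hh0 : 0 < h) (hh1 : h ≤ 1 / 4) {k : ℕ}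
    (hy : ∃ y : ℂ, ‖y - c‖ = dl n c k ∧ ∀ x ∈ ball y (h * dl n c k),
        x ∈ UU n c (k - C0) ∧ x ∉ UU n c (k + 1))
    {C : ℝ} (hC : 0 < C) (hmass : ∀ N : ℕ, 1 ≤ N →
      ∫⁻ w in closedBall (0 : ℂ) 3, ‖er n c N w‖ₑ ≤ ENNReal.ofReal (ep n c C N))
    {b : ℝ} {P m M J : ℕ} {t : ℝ} (hm : 1 ≤ m) (hP1 : 1 ≤ ‖Pool.Agent.W746.LD.P n c c M‖)
    (hcard : ((Finset.Icc 1 M).filter fun j => b * M ≤ kk n c j).card ≤ P)
    (hk : C0 ≤ k) (hk2 : 2 * (b * M) ≤ kap n c k)
    (ht : 0 ≤ t) (hJ1 : 1 ≤ J) (hJM : J ≤ M) (hJ : ∀ j, 1 ≤ j → j < J → kk n c j ≤ kap n c k + t)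
    (hbM : Real.exp (-(b * M)) ≤ 1 / 2) :
    (Real.exp (-t) / 2) ^ P -
        M * (2 * n) ^ M * ((2 * Real.exp (-(b * M))) ^ m * (2 * (1 / h)) ^ P) ≤
      (3 * (1 / h)) ^ (m + P) * ((C0 + 1) * ep n c C J) / (Real.pi * (h * dl n c k)) := by
  obtain ⟨h0, -⟩ := far hn hc hr
  have hdl := dl_pos hn hc k
  obtain ⟨y, hy1, hy2⟩ := hy
  set δ : ℝ := dl n c k with hδ
  have hs : 0 < h * δ := mul_pos hh0 hdl
  have hz : ∀ j, h * δ ≤ ‖orb n c c j - y‖ := by
    intro j
    by_contra hcon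
    push Not at hcon
    have h1 : orb n c c j ∈ ball y (h * δ) := by rwa [mem_ball, dist_eq_norm]
    exact (hy2 _ h1).2 (UU_mem hn hc j (k + 1))
  have hexpk : Real.exp (-kap n c k) = δ := exp_kap hn hc k
  set u : ℕ → ℂ := fun j => (δ : ℂ) / (orb n c c j - y) with hu
  set w : ℕ → ℂ := fun j => (Pool.Agent.W746.LD.P n c c j)⁻¹ with hw
  have hun : ∀ j, ‖u j‖ = δ / ‖orb n c c j - y‖ := by
    intro j
    simp only [hu]
    rw [norm_div, Complex.norm_real, Real.norm_eq_abs, abs_of_pos hdl]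
  have huD : ∀ j, ‖u j‖ ≤ 1 / h := by
    intro j
    rw [hun, div_le_div_iff₀ (lt_of_lt_of_le hs (hz j)) hh0]
    have := hz j
    linarith
  have hcy : ‖c - y‖ = δ := by rw [norm_sub_rev]; exact hy1
  have hu0 : ‖u 0‖ = 1 := by
    rw [hun, orb_zero, hcy, div_self hdl.ne']
  have hw0 : w 0 = 1 := by simp [hw]
  have hn1 : (1 : ℝ) ≤ n := by exact_mod_cast (by omega : 1 ≤ n)
  have hE1 : Real.exp (-t) ≤ 1 := by
    rw [Real.exp_le_one_iff]; linarith
  have hD1 : (1 : ℝ) ≤ 1 / h := by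
    rw [le_div_iff₀ hh0]; linarith
  obtain ⟨Q, hQ0, hQB, hQ⟩ := star (J := J) (P := P) (m := m) hm
    (((Finset.Icc 1 M).filter fun j => b * M ≤ kk n c j).filter fun j => j < J)
    ((Finset.card_filter_le _ _).trans hcard) w u
    (D := 1 / h) (W := (2 * n) ^ M) (e1 := Real.exp (-t) / 2) (e2 := 2 * Real.exp (-(b * M)))
    hJ1 hw0 hu0 hD1 (by positivity) (by positivity) (by linarith) (by positivity) huD
    (fun j hj => inv_le hn hc hP1 (by omega))
    (by
      intro j hj
      rw [Finset.mem_filter, Finset.mem_filter, Finset.mem_Icc] at hj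
      obtain ⟨⟨⟨hj1, -⟩, -⟩, hjJ⟩ := hj
      have hρ := rho_pos h0 hj1
      have hρe : δ * Real.exp (-t) ≤ ‖orb n c c j - c‖ := by
        rw [← exp_kk h0 hj1, ← hexpk, ← Real.exp_add]
        apply Real.exp_le_exp.mpr
        have := hJ j hj1 hjJ
        linarith
      have hzj : 0 < ‖orb n c c j - y‖ := lt_of_lt_of_le hs (hz j)
      have hzj' : orb n c c j - y ≠ 0 := norm_pos_iff.mp hzj
      have hcy' : c - y ≠ 0 := by
        rw [← norm_pos_iff, hcy]; exact hdl
      have e1 : u 0 - u j = (δ : ℂ) * (orb n c c j - c) / ((c - y) * (orb n c c j - y)) := by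
        simp only [hu, orb_zero]
        field_simp
        ring
      rw [e1, norm_div, norm_mul, norm_mul, hcy, Complex.norm_real, Real.norm_eq_abs,
        abs_of_pos hdl, mul_div_mul_left _ _ hdl.ne', le_div_iff₀ hzj]
      have h3 : ‖orb n c c j - y‖ ≤ ‖orb n c c j - c‖ + δ := by
        have : orb n c c j - y = (orb n c c j - c) + (c - y) := by ring
        rw [this]
        exact (norm_add_le _ _).trans (by rw [hcy])
      calc Real.exp (-t) / 2 * ‖orb n c c j - y‖
          ≤ Real.exp (-t) / 2 * (‖orb n c c j - c‖ + δ) := by gcongr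
        _ = Real.exp (-t) * ‖orb n c c j - c‖ / 2 + δ * Real.exp (-t) / 2 := by ring
        _ ≤ 1 * ‖orb n c c j - c‖ / 2 + ‖orb n c c j - c‖ / 2 := by gcongr
        _ = _ := by ring)
    (by
      intro j hj1 hjJ hj
      have hlt : kk n c j < b * M := by
        by_contra hcon
        push Not at hcon
        apply hj
        rw [Finset.mem_filter, Finset.mem_filter, Finset.mem_Icc]
        exact ⟨⟨⟨hj1, by omega⟩, hcon⟩, hjJ⟩
      have hρ1 : Real.exp (-(b * M)) ≤ ‖orb n c c j - c‖ := by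
        rw [← exp_kk h0 hj1]
        apply Real.exp_le_exp.mpr
        linarith
      have hδ1 : δ ≤ Real.exp (-(b * M)) * Real.exp (-(b * M)) := by
        rw [← hexpk, ← Real.exp_add]
        apply Real.exp_le_exp.mpr
        linarith
      have hE : 0 < Real.exp (-(b * M)) := Real.exp_pos _
      set E := Real.exp (-(b * M)) with hEdef
      have h3 : ‖orb n c c j - c‖ ≤ ‖orb n c c j - y‖ + δ := by
        have : orb n c c j - c = (orb n c c j - y) + (y - c) := by ring
        rw [this]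
        exact (norm_add_le _ _).trans (by rw [hy1])
      have h4 : E * E ≤ E * (1 / 2) := by gcongr
      have h5 : E / 2 ≤ ‖orb n c c j - y‖ := by linarith
      rw [hun, div_le_iff₀ (lt_of_lt_of_le hs (hz j))]
      calc δ ≤ E * E := hδ1
        _ = 2 * E * (E / 2) := by ring
        _ ≤ 2 * E * ‖orb n c c j - y‖ := by gcongr)
  have hB0 : (0 : ℝ) ≤ (3 * (1 / h)) ^ (m + P) := by positivity
  have h1 := hole J (fun j => orb n c c j) w y hs hdl (fun j _ => hz j) Q hQ0
    (B := (3 * (1 / h)) ^ (m + P)) (by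
      intro x hx
      apply hQB
      refine hx.trans (le_of_eq ?_)
      field_simp)
  have hε0 : 0 ≤ ep n c C J := by
    unfold ep
    apply mul_nonneg (by positivity)
    apply le_min zero_le_one
    apply mul_nonneg (norm_nonneg _)
    have h5 : ‖orb n c c J - c‖ ≤ 4 := by
      refine (norm_sub_le _ _).trans ?_
      have := mem_multibrot_orb hn hc J
      have := norm_le_two hn hc
      linarith
    have h6 : Real.log ‖orb n c c J - c‖ ≤ 4 - 1 := by
      have h7 := Real.log_le_sub_one_of_pos (rho_pos h0 hJ1)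
      linarith
    linarith
  have h2 := hole_mass hn hc hr (N := J) hε0 (hmass J hJ1) hk (A := ball y (h * δ)) hy2
  have h3 : ENNReal.ofReal (Real.pi * (h * δ) *
      ‖∑ j ∈ Finset.range J, w j * Q.eval (u j)‖) ≤
      ENNReal.ofReal ((3 * (1 / h)) ^ (m + P) * ((C0 + 1) * ep n c C J)) := by
    rw [ENNReal.ofReal_mul hB0]
    refine h1.trans ?_
    gcongr
    exact h2
  rw [ENNReal.ofReal_le_ofReal_iff (by positivity)] at h3
  have h4 : ‖∑ j ∈ Finset.range J, w j * Q.eval (u j)‖ ≤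
      (3 * (1 / h)) ^ (m + P) * ((C0 + 1) * ep n c C J) / (Real.pi * (h * δ)) := by
    rw [le_div_iff₀ (by positivity)]
    linarith
  refine le_trans ?_ (hQ.trans h4)
  have hJM' : (J : ℝ) ≤ M := by exact_mod_cast hJM
  gcongr

/-- The contribution of the shallow returns. -/
lemma small2 {n M m P : ℕ} (hn : 2 ≤ n) (hM : 1 ≤ M) {x D : ℝ} (hD : 0 < D)
    (h : Real.log M + M * Real.log (2 * n) + P * Real.log (4 * D) + Real.log 2 ≤
      m * (x - Real.log 2)) :
    M * (2 * (n : ℝ)) ^ M * ((2 * Real.exp (-x)) ^ m * (2 * D) ^ P) ≤ (1 / 2) ^ P / 2 := by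
  have hn0 : (0 : ℝ) < 2 * n := by
    have : (0 : ℝ) < n := by exact_mod_cast (by omega : 0 < n)
    linarith
  have hM0 : (0 : ℝ) < M := by exact_mod_cast hM
  rw [← Real.log_le_log_iff (by positivity) (by positivity),
    Real.log_mul (by positivity) (by positivity), Real.log_mul hM0.ne' (by positivity),
    Real.log_mul (by positivity) (by positivity), Real.log_pow, Real.log_pow, Real.log_pow,
    Real.log_mul (by norm_num) (Real.exp_pos _).ne', Real.log_exp,
    Real.log_div (by positivity) (by norm_num), Real.log_pow,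
    Real.log_div (by norm_num) (by norm_num), Real.log_one, Real.log_mul (by norm_num) hD.ne']
  have e : Real.log (4 * D) = 2 * Real.log 2 + Real.log D := by
    rw [Real.log_mul (by norm_num) hD.ne', show (4 : ℝ) = 2 ^ 2 by norm_num, Real.log_pow]
    push_cast
    ring
  rw [e] at h
  nlinarith

/-- The last step: the first very deep return gives an attracting cycle. -/
theorem finish {n : ℕ} (hn : 2 ≤ n) {c : ℂ} (h0 : ∀ j, orb n c c j ≠ 0) {M : ℕ} (hM : 1 ≤ M)
    {κ C6 om η : ℝ} (hη0 : 0 < η) (hη1 : η ≤ 1) (hκ0 : 0 ≤ κ)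
    (hst : ∀ J, 1 ≤ J → J ≤ M → (∀ j, 1 ≤ j → j < J → kk n c j ≤ κ) →
      Real.log ‖Pool.Agent.W746.LD.P n c c J‖ ≤ κ + C6 ∧
      Real.log ‖Pool.Agent.W746.LD.P n c c J‖ + kk n c J ≤ κ + C6 +
        (η * (5 + kk n c J) - Real.log η))
    (hgap : ∀ j, 1 ≤ j → j ≤ M → κ < kk n c j → κ + om ≤ kk n c j)
    (haM : κ + C6 < Real.log ‖Pool.Agent.W746.LD.P n c c M‖) (hom : 0 ≤ om)
    (hbig : C6 + η * (5 + κ + om) - Real.log η + Real.log 8 + Real.log (n * M) + 1 < om) :
    c ∈ Hy n := by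
  have hPne : ∀ j, Pool.Agent.W746.LD.P n c c j ≠ 0 := fun j => P_ne_zero hn fun i _ => h0 i
  have hPpos : ∀ j, 0 < ‖Pool.Agent.W746.LD.P n c c j‖ := fun j => norm_pos_iff.mpr (hPne j)
  have hn0 : (0 : ℝ) < n := by exact_mod_cast (by omega : 0 < n)
  have hn1 : (1 : ℝ) ≤ n := by exact_mod_cast (by omega : 1 ≤ n)
  have hlogn : 0 ≤ Real.log n := Real.log_nonneg hn1
  have hM0 : (0 : ℝ) < M := by exact_mod_cast hM
  have hM1 : (1 : ℝ) ≤ M := by exact_mod_cast hM
  have hlog8 : 0 ≤ Real.log 8 := Real.log_nonneg (by norm_num)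
  have hK0' : (0 : ℝ) < n * M := by positivity
  have hlogK' : 0 ≤ Real.log (n * M) := Real.log_nonneg (by nlinarith)
  have hθ' : (1 + 1 / ((n : ℝ) * M)) ^ (n - 1) ≤ Real.exp (1 / M) := by
    have h1 : 1 + 1 / ((n : ℝ) * M) ≤ Real.exp (1 / (n * M)) := by
      have := Real.add_one_le_exp (1 / ((n : ℝ) * M))
      linarith
    calc (1 + 1 / ((n : ℝ) * M)) ^ (n - 1) ≤ Real.exp (1 / (n * M)) ^ (n - 1) := by gcongr
      _ = Real.exp (((n - 1 : ℕ) : ℝ) * (1 / (n * M))) := by rw [Real.exp_nat_mul]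
      _ ≤ Real.exp (1 / M) := by
        apply Real.exp_le_exp.mpr
        rw [Nat.cast_sub (by omega)]
        push_cast
        rw [mul_one_div, div_le_div_iff₀ hK0' hM0]
        nlinarith
  obtain ⟨K, hK⟩ : ∃ K : ℝ, K = n * M := ⟨_, rfl⟩
  rw [← hK] at hK0' hlogK' hθ' hbig
  have hK0 := hK0'
  have hlogK := hlogK'
  have hθ := hθ'
  have hex : ∃ j, 1 ≤ j ∧ (j = M ∨ κ < kk n c j) := ⟨M, hM, Or.inl rfl⟩
  classical
  set N : ℕ := Nat.find hex with hN
  obtain ⟨hN1', hN2⟩ := Nat.find_spec hex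
  have hN1 : 1 ≤ N := hN1'
  have hNM : N ≤ M := Nat.find_min' hex ⟨hM, Or.inl rfl⟩
  have hsmall : ∀ j, 1 ≤ j → j < N → kk n c j ≤ κ := by
    intro j hj1 hjN
    by_contra hc1
    push Not at hc1
    exact Nat.find_min hex hjN ⟨hj1, Or.inr hc1⟩
  have hdeep : κ + om ≤ kk n c N := by
    apply hgap N hN1 hNM
    by_contra hle
    push Not at hle
    rcases hN2 with h1 | h1
    · have h2 : N = M := h1
      have h3 := (hst N hN1 hNM hsmall).1
      rw [h2] at h3
      linarith
    · exact absurd h1 (not_lt.mpr hle)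
  obtain ⟨-, h2⟩ := hst N hN1 hNM hsmall
  set kN : ℝ := kk n c N with hkN
  set aN : ℝ := Real.log ‖Pool.Agent.W746.LD.P n c c N‖ with haN
  have haN2 : aN ≤ C6 + η * (5 + κ + om) - Real.log η - om := by
    have h4 : (1 - η) * (κ + om) ≤ (1 - η) * kN := by
      apply mul_le_mul_of_nonneg_left hdeep
      linarith
    nlinarith
  have hρN := rho_pos h0 hN1
  apply trap hn hN1 hK0 hθ
  · intro heq
    have := rho_pos h0 hN1
    rw [heq, sub_self, norm_zero] at this
    exact lt_irrefl _ this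
  · intro i hi
    by_contra hcon2
    push Not at hcon2
    have hi0 : 0 < ‖orb n c c i‖ := norm_pos_iff.mpr (h0 i)
    have h3 := Real.log_lt_log (by positivity) hcon2
    rw [Real.log_div hi0.ne' hK0.ne', Real.log_mul (by have := hPpos i; positivity) (by positivity),
      Real.log_mul (by positivity) (hPpos i).ne', ← Real.exp_nat_mul, Real.log_exp,
      Real.log_mul (by norm_num) hρN.ne'] at h3
    have hlogN : Real.log ‖orb n c c N - c‖ = -kN := by rw [hkN]; unfold kk; ring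
    rw [hlogN] at h3
    have hk1 : kk n c (i + 1) = -(n * Real.log ‖orb n c c i‖) := by
      unfold kk
      rw [norm_orb_succ_sub, Real.log_pow]
    have ha1 : Real.log ‖Pool.Agent.W746.LD.P n c c (i + 1)‖ =
        Real.log ‖Pool.Agent.W746.LD.P n c c i‖ + Real.log n +
          (n - 1) * Real.log ‖orb n c c i‖ := by
      rw [norm_P_succ, Real.log_mul (hPpos i).ne' (by positivity), Real.log_mul hn0.ne'
        (by positivity), Real.log_pow, Nat.cast_sub (by omega)]
      push_cast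
      ring
    have hiM : (i : ℝ) * (1 / M) ≤ 1 := by
      rw [mul_one_div, div_le_one hM0]
      have : i ≤ M := by omega
      exact_mod_cast this
    have h4 : kN - Real.log 8 - Real.log K - 1 ≤
        Real.log ‖Pool.Agent.W746.LD.P n c c (i + 1)‖ + kk n c (i + 1) := by
      rw [ha1, hk1]
      linarith
    rcases Nat.lt_or_ge (i + 1) N with hiN | hiN
    · have h5 := (hst (i + 1) (by omega) (by omega)
        (fun j hj1 hj2 => hsmall j hj1 (by omega))).2
      have h6 := hsmall (i + 1) (by omega) hiN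
      have h7 : η * (5 + kk n c (i + 1)) ≤ η * (5 + κ + om) := by
        apply mul_le_mul_of_nonneg_left _ hη0.le
        linarith
      linarith
    · have hiN' : i + 1 = N := by omega
      rw [hiN'] at h4
      linarith
  · rw [← Real.exp_nat_mul, ← Real.exp_log (hPpos N), ← Real.exp_add,
      show (1 / 8 : ℝ) = Real.exp (-Real.log 8) by
        rw [Real.exp_neg, Real.exp_log (by norm_num)]; norm_num]
    apply Real.exp_le_exp.mpr
    have hNη : (N : ℝ) * (1 / M) ≤ 1 := by
      rw [mul_one_div, div_le_one hM0]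
      exact_mod_cast hNM
    linarith

end Pool.Agent.T2H09.LU
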