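import Pool.Agent.T2H09.LU.Star2
import Pool.Agent.T2H09.LU.Fin
import Pool.Agent.T2H09.LU.Sel
import Pool.Agent.T2H09.LU.Hole2

/-!
# Stretched exponential growth at the critical value
-/

set_option autoImplicit false
open Set Filter Topology Metric MeasureTheory Polynomial
open scoped ENNReal

namespace Pool.Agent.T2H09.LU

open Pool.Agent.W746.LD Pool.Agent.T2H09.DH N62a1eb23

lemma P_le {n : ℕ} (hn : 2 ≤ n) {c : ℂ} (hc : c ∈ multibrotSet n) (k : ℕ) :
    ‖Pool.Agent.W746.LD.P n c c k‖ ≤ (2 * n) ^ k := by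
  induction k with
  | zero => simp
  | succ k ih =>
    rw [norm_P_succ, pow_succ]
    have h5 := orbit_bound hn (mem_multibrot_orb hn hc) k
    calc ‖Pool.Agent.W746.LD.P n c c k‖ * (n * ‖orb n c c k‖ ^ (n - 1))
        ≤ (2 * n) ^ k * (n * 2) := by gcongr
      _ = _ := by ring

/-- The bound of the constant. -/
lemma C6_le {h E r C5 l Ma C7 ln C1 : ℝ} {m P : ℕ} (hh : 0 < h) (hE : 0 < E) (hr : 0 < r)
    (hD : Real.log (3 * (1 / h)) ≤ C5 * l) (hl : 0 ≤ C5 * l) (hMa : 1 ≤ ln * Ma)
    (hm : (m : ℝ) ≤ C7 * Ma + 1) (hP : (P : ℝ) ≤ C1 * Ma) :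
    Real.log ((3 * (1 / h)) ^ (m + P) * ((1 : ℕ) + 1) * (E / r) / (Real.pi * h) * 2 ^ P * 2) ≤
      (C7 + 2 * ln + C1) * Ma * (C5 * l) + C1 * Ma + 2 + |Real.log E| - Real.log r := by
  have hlog2 : Real.log 2 ≤ 1 := by
    have := Real.log_two_lt_d9
    linarith
  have hlog20 : 0 ≤ Real.log 2 := Real.log_nonneg (by norm_num)
  have hpi : 0 ≤ Real.log Real.pi := Real.log_nonneg (by linarith [Real.pi_gt_three])
  have hpi0 := Real.pi_pos
  have e0 : (3 * (1 / h)) ^ (m + P) * (((1 : ℕ) : ℝ) + 1) * (E / r) / (Real.pi * h) * 2 ^ P * 2 =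
      (3 * (1 / h)) ^ (m + P) * 2 * (E / r) * (1 / Real.pi) * (1 / h) * 2 ^ P * 2 := by
    field_simp
    norm_num
  have e1 : Real.log (1 / h) ≤ Real.log (3 * (1 / h)) := by
    apply Real.log_le_log (by positivity)
    have : 0 < 1 / h := by positivity
    linarith
  rw [e0, Real.log_mul (by positivity) (by norm_num), Real.log_mul (by positivity) (by positivity),
    Real.log_mul (by positivity) (by positivity), Real.log_mul (by positivity) (by positivity),
    Real.log_mul (by positivity) (by positivity), Real.log_mul (by positivity) (by norm_num),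
    Real.log_div hE.ne' hr.ne', Real.log_pow, Real.log_pow, one_div Real.pi, Real.log_inv]
  have h1 : ((m + P : ℕ) : ℝ) * Real.log (3 * (1 / h)) + Real.log (1 / h) ≤
      (C7 + 2 * ln + C1) * Ma * (C5 * l) := by
    have h2 : ((m + P : ℕ) : ℝ) * Real.log (3 * (1 / h)) ≤ ((m + P : ℕ) : ℝ) * (C5 * l) := by
      gcongr
    have h3 : ((m + P : ℕ) : ℝ) + 1 ≤ (C7 + 2 * ln + C1) * Ma := by
      push_cast
      linarith
    have h4 := mul_le_mul_of_nonneg_right h3 hl
    linarith
  have h5 : (P : ℝ) * Real.log 2 ≤ C1 * Ma := by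
    calc (P : ℝ) * Real.log 2 ≤ P * 1 := by gcongr
      _ ≤ _ := by linarith
  have h6 := le_abs_self (Real.log E)
  linarith

/-- The inequality between the growth of the derivatives at the critical value and the distance to
the parameters with an attracting cycle. -/
theorem strong {n : ℕ} (hn : 2 ≤ n) : ∃ C ε : ℝ, 0 < C ∧ 0 < ε ∧
    ∀ c ∈ multibrotSet n, ∀ M : ℕ, 2 ≤ M →
      C * M ^ 2 * Real.log M ≤ Real.log ‖Pool.Agent.W746.LD.P n c c M‖ ^ 3 →
      infDist c (Hy n) ≤ Real.exp (-(ε * Real.log ‖Pool.Agent.W746.LD.P n c c M‖ ^ 2 / M)) := by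
  have hn0 : (0 : ℝ) < n := by exact_mod_cast (by omega : 0 < n)
  have hn2 : (2 : ℝ) ≤ n := by exact_mod_cast hn
  have hlogn : 0 ≤ Real.log n := Real.log_nonneg (by linarith)
  set l2 : ℝ := Real.log 2 with hl2
  have hl20 : 0 < l2 := Real.log_pos (by norm_num)
  have hl2a : l2 < 0.7 := by
    have := Real.log_two_lt_d9
    linarith
  set ln : ℝ := Real.log (2 * n) with hln
  have hlnl2 : ln = l2 + Real.log n := by rw [hln, Real.log_mul (by norm_num) hn0.ne']
  have hln1 : 1 ≤ ln := by
    have h1 : Real.log 2 ≤ Real.log n := Real.log_le_log (by norm_num) hn2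
    have h2 := Real.log_two_gt_d9
    linarith
  have hln0 : 0 < ln := by linarith
  set L : ℝ := Real.log (3 ^ n + 4) with hL
  have hL0 : 0 ≤ L := Real.log_nonneg (by
    have : (0 : ℝ) ≤ 3 ^ n := by positivity
    linarith)
  set C1 : ℝ := 16 * ln with hC1
  have hC10 : 0 < C1 := by positivity
  obtain ⟨E, hE, hmass1⟩ := er_mass' hn
  set H : ℝ := 8 * (3 ^ n + 2) with hH
  have hH0 : 0 < H := by positivity
  have hHln : ln ≤ H := by
    have h1 : ln ≤ 2 * n - 1 := by
      have := Real.log_le_sub_one_of_pos (show (0 : ℝ) < 2 * n by positivity)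
      linarith
    have h2 : 1 + (n : ℝ) * 2 ≤ (1 + 2) ^ n := one_add_mul_le_pow (by norm_num) n
    norm_num at h2
    rw [hH]
    have : (0 : ℝ) ≤ 3 ^ n := by positivity
    linarith
  have hHln' : ln ≤ H := hHln
  set C5 : ℝ := Real.log (64 * H) / l2 + 1 with hC5
  have hlog64 : 0 ≤ Real.log (64 * H) := Real.log_nonneg (by
    have : (0 : ℝ) ≤ 3 ^ n := by positivity
    rw [hH]; linarith)
  have hC50 : 0 < C5 := by positivity
  set C7 : ℝ := 16 * (2 + ln + C1 * C5) with hC7
  have hC70 : 0 < C7 := by positivity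
  set C8 : ℝ := (C7 + 2 * ln + C1) * C5 + C1 / l2 + (2 + |Real.log E|) * (ln / l2) with hC8
  have hC80 : 0 < C8 := by positivity
  set C9 : ℝ := C8 + 2 * ln + (Real.log (5 + 2 * ln) + Real.log 8 + Real.log n + 2) * (ln / l2)
    with hC9
  have hlog5 : 0 ≤ Real.log (5 + 2 * ln) := Real.log_nonneg (by linarith)
  have hlog8 : 0 ≤ Real.log 8 := Real.log_nonneg (by norm_num)
  have hC90 : 0 < C9 := by positivity
  set C : ℝ := 1024 * ln * C9 + 256 * ln ^ 2 * L / l2 + 12 * ln ^ 2 / l2 + ln ^ 2 with hC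
  have hCa : 1024 * ln * C9 ≤ C := by
    have h1 : 0 ≤ 256 * ln ^ 2 * L / l2 := by positivity
    have h2 : 0 ≤ 12 * ln ^ 2 / l2 := by positivity
    have h3 : 0 ≤ ln ^ 2 := by positivity
    linarith
  have hCb : 256 * ln ^ 2 * L / l2 ≤ C := by
    have h1 : 0 ≤ 1024 * ln * C9 := by positivity
    have h2 : 0 ≤ 12 * ln ^ 2 / l2 := by positivity
    have h3 : 0 ≤ ln ^ 2 := by positivity
    linarith
  have hCc : 12 * ln ^ 2 / l2 ≤ C := by
    have h1 : 0 ≤ 1024 * ln * C9 := by positivity
    have h2 : 0 ≤ 256 * ln ^ 2 * L / l2 := by positivity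
    have h3 : 0 ≤ ln ^ 2 := by positivity
    linarith
  have hCd : ln ^ 2 ≤ C := by
    have h1 : 0 ≤ 1024 * ln * C9 := by positivity
    have h2 : 0 ≤ 256 * ln ^ 2 * L / l2 := by positivity
    have h3 : 0 ≤ 12 * ln ^ 2 / l2 := by positivity
    linarith
  have hC0 : 0 < C := lt_of_lt_of_le (by positivity) hCd
  set ε : ℝ := 1 / (1024 * ln) with hε
  have hε0 : 0 < ε := by positivity
  refine ⟨C, ε, hC0, hε0, ?_⟩
  clear_value ε C C9 C8 C7 C5 H C1 L ln l2
  intro c hc M hM2 hyp
  by_contra hcon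
  push Not at hcon
  set a : ℝ := Real.log ‖Pool.Agent.W746.LD.P n c c M‖ with ha
  have hr : 0 < infDist c (Hy n) := (Real.exp_pos _).trans hcon
  obtain ⟨h0, -⟩ := far hn hc hr
  have hnot : c ∉ Hy n := by
    intro hmem
    rw [infDist_zero_of_mem hmem] at hr
    exact lt_irrefl _ hr
  have hPne : ∀ j, Pool.Agent.W746.LD.P n c c j ≠ 0 := fun j => P_ne_zero hn fun i _ => h0 i
  have hPpos : ∀ j, 0 < ‖Pool.Agent.W746.LD.P n c c j‖ := fun j => norm_pos_iff.mpr (hPne j)
  have hM2' : (2 : ℝ) ≤ M := by exact_mod_cast hM2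
  have hM0 : (0 : ℝ) < M := by linarith
  set l : ℝ := Real.log M with hl
  have hll2 : l2 ≤ l := by
    rw [hl2, hl]
    exact Real.log_le_log (by norm_num) hM2'
  have hl0 : 0 < l := by linarith
  have hlM : l ≤ M := by
    have := Real.log_le_sub_one_of_pos hM0
    linarith
  clear_value l
  have ha0 : 0 < a := by
    by_contra hle
    push Not at hle
    have h1 : a ^ 3 ≤ 0 := by
      have : a ^ 3 = a * a ^ 2 := by ring
      rw [this]
      exact mul_nonpos_of_nonpos_of_nonneg hle (sq_nonneg a)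
    have h2 : 0 < C * M ^ 2 * l := by positivity
    linarith
  have haM : a ≤ ln * M := by
    have h1 := Real.log_le_log (hPpos M) (P_le hn hc M)
    rw [Real.log_pow, ← hln, ← ha] at h1
    linarith
  have hP1 : 1 ≤ ‖Pool.Agent.W746.LD.P n c c M‖ := by
    by_contra hlt
    push Not at hlt
    have := Real.log_neg (hPpos M) hlt
    linarith
  clear_value a
  -- the basic quantities
  set Ma : ℝ := M / a with hMa
  have hMa0 : 0 < Ma := by positivity
  set X : ℝ := Ma * l with hX
  have hX0 : 0 < X := by positivity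
  set Y : ℝ := a ^ 2 / M with hY
  have hY0 : 0 < Y := by positivity
  clear_value Y X Ma
  have F1 : C * X ≤ Y := by
    rw [hX, hY, hMa, le_div_iff₀ hM0]
    have : C * (M / a * l) * M = C * M ^ 2 * l / a := by field_simp
    rw [this, div_le_iff₀ ha0]
    calc C * M ^ 2 * l ≤ a ^ 3 := hyp
      _ = a ^ 2 * a := by ring
  have F2 : 1 ≤ ln * Ma := by
    rw [hMa, mul_div_assoc', le_div_iff₀ ha0]
    linarith
  have F3 : l ≤ ln * X := by
    rw [hX]
    calc l = 1 * l := (one_mul l).symm
      _ ≤ (ln * Ma) * l := by gcongr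
      _ = _ := by ring
  have F4 : 1 ≤ ln / l2 * X := by
    rw [div_mul_eq_mul_div, le_div_iff₀ hl20]
    linarith
  have F5 : Ma ≤ X / l2 := by
    rw [le_div_iff₀ hl20, hX]
    gcongr
  have F6 : Y ≤ ln * a := by
    rw [hY, div_le_iff₀ hM0]
    calc a ^ 2 = a * a := by ring
      _ ≤ a * (ln * M) := by gcongr
      _ = ln * a * M := by ring
  have F7 : C * l ≤ ln ^ 2 * a := by
    have h1 : C * l ≤ C * (ln * X) := by gcongr
    have h2 : ln * (C * X) ≤ ln * (ln * a) := by
      apply mul_le_mul_of_nonneg_left _ hln0.le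
      exact F1.trans F6
    calc C * l ≤ C * (ln * X) := h1
      _ = ln * (C * X) := by ring
      _ ≤ ln * (ln * a) := h2
      _ = ln ^ 2 * a := by ring
  have ha12 : 12 ≤ a := by
    have h1 : 12 * ln ^ 2 / l2 * l ≤ ln ^ 2 * a := (mul_le_mul_of_nonneg_right hCc hl0.le).trans F7
    have h2 : 12 * ln ^ 2 ≤ 12 * ln ^ 2 / l2 * l := by
      rw [div_mul_eq_mul_div, le_div_iff₀ hl20]
      gcongr
    have h3 : ln ^ 2 * 12 ≤ ln ^ 2 * a := by linarith
    exact le_of_mul_le_mul_left h3 (by positivity)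
  have hal : l ≤ a := by
    have h1 : ln ^ 2 * l ≤ ln ^ 2 * a := (mul_le_mul_of_nonneg_right hCd hl0.le).trans F7
    exact le_of_mul_le_mul_left h1 (by positivity)
  have hYL : 256 * ln * L ≤ Y := by
    have h1 : 256 * ln ^ 2 * L / l2 * X ≤ Y := (mul_le_mul_of_nonneg_right hCb hX0.le).trans F1
    have h2 : 256 * ln * L ≤ 256 * ln ^ 2 * L / l2 * X := by
      calc 256 * ln * L = 256 * ln * L * 1 := by ring
        _ ≤ 256 * ln * L * (ln / l2 * X) := by gcongr
        _ = _ := by ring
    linarith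
  have haL : 256 * L ≤ a := by
    have h1 : ln * (256 * L) ≤ ln * a := by linarith
    exact le_of_mul_le_mul_left h1 hln0
  -- the scale
  set lam : ℝ := a / (16 * M) with hlam
  have hlam0 : 0 < lam := by positivity
  set om : ℝ := Y / (16 * C1) with hom
  have hom0 : 0 < om := by positivity
  clear_value om lam
  have homY : om = Y / (256 * ln) := by rw [hom, hC1]; congr 1; ring
  have homa : om ≤ a / 256 := by
    rw [homY, div_le_div_iff₀ (by positivity) (by norm_num)]
    calc Y * 256 ≤ (ln * a) * 256 := by gcongr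
      _ = a * (256 * ln) := by ring
  set b : ℝ := a / (8 * M) with hb
  have hb0 : 0 < b := by positivity
  clear_value b
  have hbM : b * M = a / 8 := by rw [hb]; field_simp
  set DD : Finset ℕ := (Finset.Icc 1 M).filter fun j => b * M ≤ kk n c j with hDD
  have hcardr : (DD.card : ℝ) ≤ C1 * Ma := by
    have h1 : (DD.card : ℝ) ≤ (2 * Real.log n + Real.log 4) / b :=
      deep_count hn hc h0 (by omega) hP1 hb0
    refine h1.trans (le_of_eq ?_)
    have h4 : Real.log 4 = 2 * l2 := by
      rw [hl2, show (4 : ℝ) = 2 ^ 2 by norm_num, Real.log_pow]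
      norm_num
    rw [h4, hb, hC1, hMa, hlnl2]
    field_simp
    ring
  set P : ℕ := ⌊C1 * Ma⌋₊ with hP
  have hcard : DD.card ≤ P := Nat.le_floor hcardr
  have hPr : (P : ℝ) ≤ C1 * Ma := Nat.floor_le (by positivity)
  clear_value P
  obtain ⟨k, hk1, hkM, hkB1, hkB2, hkd, hgap⟩ := scale2 (kap n c)
    (monotone_nat_of_le_succ fun k => by
      unfold kap
      have := Real.log_le_log (dl_pos hn hc (k + 1)) (dl_anti hn hc k)
      linarith)
    (L := L)
    (fun k => by
      unfold kap
      have h1 := Real.log_le_log (dl_pos hn hc k) (dl_step hn hc k)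
      rw [Real.log_mul (by positivity) (dl_pos hn hc (k + 1)).ne'] at h1
      linarith)
    (B1 := a / 4) (B2 := a / 2) hlam0.le hom0.le (M := M)
    (by
      unfold kap
      have := Real.log_nonneg (dl_zero hn hc)
      linarith)
    (by
      unfold kap
      have h1 := Real.log_le_log (mul_pos (dl_pos hn hc M) (hPpos M)) (dl_der hn hc M)
      rw [Real.log_mul (dl_pos hn hc M).ne' (hPpos M).ne'] at h1
      have h2 : Real.log 3 ≤ 2 := by
        have := Real.log_le_sub_one_of_pos (show (0 : ℝ) < 3 by norm_num)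
        linarith
      linarith)
    (by linarith) DD (kk n c)
    (by
      have h1 : M * lam = a / 16 := by rw [hlam]; field_simp
      have h2 : (DD.card : ℝ) * om ≤ a / 16 := by
        calc (DD.card : ℝ) * om ≤ (C1 * Ma) * om := by gcongr
          _ = a / 16 := by
            rw [hMa, hom, hY]
            field_simp
      have h3 : (DD.card : ℝ) * L ≤ a / 16 := by
        calc (DD.card : ℝ) * L ≤ (C1 * Ma) * L := by gcongr
          _ = (256 * ln * L) * Ma / 16 := by rw [hC1]; ring
          _ ≤ Y * Ma / 16 := by gcongr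
          _ = a / 16 := by rw [hY, hMa]; field_simp
      rw [h1, mul_add]
      linarith)
  set κ : ℝ := kap n c k with hκ
  clear_value κ
  have hdk : (1 + lam) * dl n c k ≤ dl n c (k - 1) := by
    have h1 : Real.exp lam * dl n c k ≤ dl n c (k - 1) := by
      rw [← exp_kap hn hc k, ← exp_kap hn hc (k - 1), ← Real.exp_add, ← hκ]
      apply Real.exp_le_exp.mpr
      linarith
    refine le_trans ?_ h1
    have h2 := Real.add_one_le_exp lam
    have h3 := (dl_pos hn hc k).le
    gcongr
    linarith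
  have hy := hole2 hn hc hk1 hlam0 hdk
  set h : ℝ := 1 / (8 * (3 ^ n + 2)) * lam with hh
  have hh0 : 0 < h := by positivity
  clear_value h
  have hhH : h = a / (16 * H * M) := by
    rw [hh, hlam, ← hH]
    field_simp
  have hh1 : h ≤ 1 / 4 := by
    rw [hhH, div_le_div_iff₀ (by positivity) (by norm_num)]
    have h1 : a ≤ H * M := haM.trans (by gcongr)
    have h2 : 0 ≤ H * M := by positivity
    calc a * 4 ≤ (H * M) * 4 := by gcongr
      _ ≤ (H * M) * 16 := by gcongr; norm_num
      _ = 1 * (16 * H * M) := by ring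
  have hDlog : Real.log (4 * (1 / h)) ≤ C5 * l := by
    have e1 : 4 * (1 / h) = 64 * H * Ma := by
      rw [hhH, hMa]
      field_simp
      norm_num
    have h1 : Real.log Ma ≤ l := by
      rw [hl]
      apply Real.log_le_log hMa0
      rw [hMa, div_le_iff₀ ha0]
      exact le_mul_of_one_le_right hM0.le (by linarith)
    rw [e1, Real.log_mul (by positivity) hMa0.ne', hC5, add_mul, one_mul]
    have h2 : Real.log (64 * H) ≤ Real.log (64 * H) / l2 * l := by
      rw [div_mul_eq_mul_div, le_div_iff₀ hl20]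
      gcongr
    linarith
  have hDlog3 : Real.log (3 * (1 / h)) ≤ C5 * l := by
    refine le_trans ?_ hDlog
    apply Real.log_le_log (by positivity)
    have : 0 < 1 / h := by positivity
    linarith
  have hC5l : 0 ≤ C5 * l := by positivity
  set m : ℕ := ⌈C7 * Ma⌉₊ with hm
  have hm1 : 1 ≤ m := Nat.one_le_ceil_iff.mpr (by positivity)
  have hmlow : C7 * Ma ≤ m := Nat.le_ceil _
  have hmup : (m : ℝ) ≤ C7 * Ma + 1 := (Nat.ceil_lt_add_one (by positivity)).le
  clear_value m
  -- the constant
  set C' : ℝ := E / infDist c (Hy n) with hC'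
  have hC'0 : 0 < C' := div_pos hE hr
  clear_value C'
  have hmass := hmass1 c hc hr
  rw [← hC'] at hmass
  set G : ℝ := (3 * (1 / h)) ^ (m + P) with hG
  have hG0 : 0 < G := by positivity
  clear_value G
  set C6 : ℝ := Real.log (G * ((1 : ℕ) + 1) * C' / (Real.pi * h) * 2 ^ P * 2) with hC6
  clear_value C6
  have hC6le : C6 ≤ C8 * X + ε * Y := by
    have h1 := C6_le (h := h) (E := E) (r := infDist c (Hy n)) (C5 := C5) (l := l) (Ma := Ma)
      (C7 := C7) (ln := ln) (C1 := C1) (m := m) (P := P) hh0 hE hr hDlog3 hC5l F2 hmup hPr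
    have h2 : -Real.log (infDist c (Hy n)) < ε * Y := by
      have h3 := Real.log_lt_log (Real.exp_pos _) hcon
      rw [Real.log_exp] at h3
      have h4 : ε * a ^ 2 / M = ε * Y := by rw [hY]; ring
      linarith
    have h3 : C1 * Ma ≤ C1 / l2 * X := by
      calc C1 * Ma ≤ C1 * (X / l2) := by gcongr
        _ = _ := by ring
    have h4 : 2 + |Real.log E| ≤ (2 + |Real.log E|) * (ln / l2) * X := by
      calc 2 + |Real.log E| = (2 + |Real.log E|) * 1 := by ring
        _ ≤ (2 + |Real.log E|) * (ln / l2 * X) := by gcongr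
        _ = _ := by ring
    have h5 : (C7 + 2 * ln + C1) * Ma * (C5 * l) = (C7 + 2 * ln + C1) * C5 * X := by
      rw [hX]; ring
    rw [h5] at h1
    rw [hC8]
    have h6 : C6 ≤ (C7 + 2 * ln + C1) * C5 * X + C1 * Ma + 2 + |Real.log E| -
        Real.log (infDist c (Hy n)) := by
      rw [hC6, hG, hC']
      exact h1
    linarith
  have hmain : C9 * X + ε * Y ≤ om / 2 := by
    have h1 : 1024 * ln * C9 * X ≤ Y := (mul_le_mul_of_nonneg_right hCa hX0.le).trans F1
    have h2 : C9 * X ≤ Y / (1024 * ln) := by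
      rw [le_div_iff₀ (by positivity)]
      linarith
    have h3 : ε * Y = Y / (1024 * ln) := by rw [hε]; ring
    have h4 : om / 2 = Y / (1024 * ln) + Y / (1024 * ln) := by
      rw [homY]
      field_simp
      norm_num
    linarith
  set η : ℝ := 1 / (5 + 2 * a) with hη
  have hη0 : 0 < η := by positivity
  clear_value η
  have hη1 : η ≤ 1 := by
    rw [hη, div_le_one (by positivity)]
    linarith
  have hlogη : -Real.log η ≤ Real.log (5 + 2 * ln) + l := by
    rw [hη, hl, one_div, Real.log_inv, neg_neg, ← Real.log_mul (by positivity) hM0.ne']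
    apply Real.log_le_log (by positivity)
    calc 5 + 2 * a ≤ 5 * M + 2 * (ln * M) := by linarith
      _ = (5 + 2 * ln) * M := by ring
  have hκa : κ ≤ a := by linarith
  have hη5 : η * (5 + κ + om) ≤ 1 := by
    rw [hη, one_div_mul_eq_div, div_le_one (by positivity)]
    linarith
  apply hnot
  apply finish hn h0 (M := M) (by omega) (κ := κ) (C6 := C6) (om := om) (η := η) hη0 hη1
    (by linarith)
  · intro J hJ1 hJM hJ
    have h1 := core2 hn hc hr (C0 := 1) hh0 hh1 hy hC'0 hmass (b := b) (P := P) (m := m) (M := M)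
      (J := J) (t := 0) hm1 hP1 hcard hk1 (by rw [hbM, ← hκ]; linarith) le_rfl hJ1
      hJM (fun j hj1 hjJ => by rw [add_zero, ← hκ]; exact hJ j hj1 hjJ)
      (by
        rw [hbM, show (1 / 2 : ℝ) = Real.exp (-l2) by
          rw [hl2, Real.exp_neg, Real.exp_log (by norm_num)]; norm_num]
        apply Real.exp_le_exp.mpr
        linarith)
    have h2 := small2 (n := n) (M := M) (m := m) (P := P) hn (by omega) (x := b * M)
      (D := 1 / h) (by positivity)
      (by
        rw [hbM, ← hl2, ← hln, ← hl]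
        have e1 : C7 * Ma * (a / 16) ≤ m * (a / 8 - l2) := by
          apply mul_le_mul hmlow _ (by positivity) (Nat.cast_nonneg _)
          linarith
        have e2 : C7 * Ma * (a / 16) = (2 + ln + C1 * C5) * M := by
          rw [hC7, hMa]
          field_simp
        have e3 : (P : ℝ) * Real.log (4 * (1 / h)) ≤ C1 * C5 * M := by
          calc (P : ℝ) * Real.log (4 * (1 / h)) ≤ P * (C5 * l) := by gcongr
            _ ≤ (C1 * Ma) * (C5 * a) := by gcongr
            _ = C1 * C5 * M := by rw [hMa]; field_simp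
        have e4 : M * ln ≤ ln * M := by rw [mul_comm]
        have e5 : l2 ≤ M := by linarith
        have e6 : (2 + ln + C1 * C5) * M = M + M + ln * M + C1 * C5 * M := by ring
        linarith)
    have h3 := logform hn hc h0 (C := C') (h := h) (G := G) (C0 := 1) (P := P) (k := k) (J := J)
      hC'0 hh0 hG0 (t := 0) hJ1 (by
        rw [neg_zero, Real.exp_zero] at h1 ⊢
        rw [← hG] at h1
        linarith)
    rw [mul_zero, add_zero, ← hκ, ← hC6] at h3
    exact ⟨h3.1, h3.2 η hη0⟩
  · intro j hj1 hjM hjκ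
    by_cases hjD : j ∈ DD
    · by_contra hlt
      push Not at hlt
      exact hgap j hjD ⟨hjκ, hlt.le⟩
    · exfalso
      apply hjD
      rw [hDD, Finset.mem_filter, Finset.mem_Icc]
      refine ⟨⟨hj1, hjM⟩, ?_⟩
      rw [hbM]
      linarith
  · have h1 : C8 ≤ C9 := by
      rw [hC9]
      have : 0 ≤ (Real.log (5 + 2 * ln) + Real.log 8 + Real.log n + 2) * (ln / l2) := by positivity
      linarith
    have h2 : C8 * X ≤ C9 * X := by gcongr
    rw [← ha]
    linarith
  · exact hom0.le
  · have h1 : Real.log (n * M) = Real.log n + l := by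
      rw [Real.log_mul hn0.ne' hM0.ne', hl]
    have h2 : Real.log (5 + 2 * ln) + Real.log 8 + Real.log n + 2 ≤
        (Real.log (5 + 2 * ln) + Real.log 8 + Real.log n + 2) * (ln / l2) * X := by
      calc Real.log (5 + 2 * ln) + Real.log 8 + Real.log n + 2
          = (Real.log (5 + 2 * ln) + Real.log 8 + Real.log n + 2) * 1 := by ring
        _ ≤ (Real.log (5 + 2 * ln) + Real.log 8 + Real.log n + 2) * (ln / l2 * X) := by gcongr
        _ = _ := by ring
    have h3 : C9 * X = C8 * X + 2 * (ln * X) +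
        (Real.log (5 + 2 * ln) + Real.log 8 + Real.log n + 2) * (ln / l2) * X := by
      rw [hC9]; ring
    rw [h1]
    linarith

end Pool.Agent.T2H09.LU
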