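import Pool.Agent.T2H09.LU.Str

/-!
# Stretched exponential growth at infinitely many times
-/

set_option autoImplicit false
open Set Filter Topology Metric

namespace Pool.Agent.T2H09.LU

open Pool.Agent.W746.LD Pool.Agent.T2H09.DH N62a1eb23

/-- The qualitative form. -/
theorem strong_closure {n : ℕ} (hn : 2 ≤ n) {C ε : ℝ} (hC : 0 < C) (hε : 0 < ε)
    (h : ∀ c ∈ multibrotSet n, ∀ M : ℕ, 2 ≤ M →
      C * M ^ 2 * Real.log M ≤ Real.log ‖Pool.Agent.W746.LD.P n c c M‖ ^ 3 →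
      infDist c (Hy n) ≤ Real.exp (-(ε * Real.log ‖Pool.Agent.W746.LD.P n c c M‖ ^ 2 / M)))
    {c : ℂ} (hc : c ∈ multibrotSet n)
    (hf : ∃ᶠ N : ℕ in atTop, C * N ^ 2 * Real.log N ≤
      Real.log ‖Pool.Agent.W746.LD.P n c c N‖ ^ 3) : c ∈ closure (Hy n) := by
  have hne : (Hy n).Nonempty := ⟨0, zero_mem_Hy hn⟩
  rw [mem_closure_iff_infDist_zero hne]
  by_contra hcon
  have hr : 0 < infDist c (Hy n) := lt_of_le_of_ne infDist_nonneg (Ne.symm hcon)
  set K : ℝ := max 1 (-Real.log (infDist c (Hy n)) / ε + 1) with hK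
  have hK1 : 1 ≤ K := le_max_left _ _
  have hK2 : -Real.log (infDist c (Hy n)) / ε + 1 ≤ K := le_max_right _ _
  have hev : ∀ᶠ N : ℕ in atTop, K ^ 3 < C ^ 2 * N ∧ 3 ≤ N := by
    have h1 : Tendsto (fun N : ℕ => C ^ 2 * (N : ℝ)) atTop atTop :=
      tendsto_natCast_atTop_atTop.const_mul_atTop (by positivity)
    exact (h1.eventually_gt_atTop _).and (eventually_ge_atTop 3)
  obtain ⟨N, hN, hNK, hN3⟩ := (hf.and_eventually hev).exists
  have hN3' : (3 : ℝ) ≤ N := by exact_mod_cast hN3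
  have hN0 : (0 : ℝ) < N := by linarith
  have hlog : 1 ≤ Real.log N := by
    rw [Real.le_log_iff_exp_le hN0]
    exact (Real.exp_one_lt_d9.le.trans (by norm_num)).trans hN3'
  have h1 := h c hc N (by omega) hN
  set a : ℝ := Real.log ‖Pool.Agent.W746.LD.P n c c N‖ with ha
  have hKa : K * N ≤ a ^ 2 := by
    by_contra hlt
    push Not at hlt
    have h2 : (a ^ 2) ^ 3 < (K * N) ^ 3 := by gcongr
    have h3 : C * N ^ 2 ≤ a ^ 3 := by
      refine le_trans ?_ hN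
      have : 0 ≤ C * (N : ℝ) ^ 2 := by positivity
      nlinarith
    have h4 : (C * (N : ℝ) ^ 2) ^ 2 ≤ (a ^ 3) ^ 2 := by gcongr
    have h5 : (a ^ 3) ^ 2 = (a ^ 2) ^ 3 := by ring
    have h6 : (C * (N : ℝ) ^ 2) ^ 2 = (C ^ 2 * N) * N ^ 3 := by ring
    have h7 : (K * (N : ℝ)) ^ 3 = K ^ 3 * N ^ 3 := by ring
    have h8 : (C ^ 2 * N) * (N : ℝ) ^ 3 < K ^ 3 * N ^ 3 := by
      rw [← h6, ← h7]
      linarith
    have h9 : K ^ 3 * (N : ℝ) ^ 3 < (C ^ 2 * N) * N ^ 3 := by gcongr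
    linarith
  have h2 : ε * K ≤ ε * a ^ 2 / N := by
    rw [le_div_iff₀ hN0]
    calc ε * K * N = ε * (K * N) := by ring
      _ ≤ ε * a ^ 2 := by gcongr
  have h3 := Real.log_le_log hr h1
  rw [Real.log_exp] at h3
  have h4 : -Real.log (infDist c (Hy n)) + ε ≤ ε * K := by
    calc -Real.log (infDist c (Hy n)) + ε = ε * (-Real.log (infDist c (Hy n)) / ε + 1) := by
          field_simp
      _ ≤ ε * K := by gcongr
  linarith

/-- Stretched exponentials are larger. -/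
theorem freq_of_rpow {C χ β : ℝ} (hχ : 0 < χ) (hβ : 2 / 3 < β) {p : ℕ → ℝ}
    (hf : ∃ᶠ N : ℕ in atTop, Real.exp (χ * (N : ℝ) ^ β) ≤ p N) :
    ∃ᶠ N : ℕ in atTop, C * N ^ 2 * Real.log N ≤ Real.log (p N) ^ 3 := by
  have hlo : (fun N : ℕ => Real.log N) =o[atTop] fun N : ℕ => (N : ℝ) ^ (3 * β - 2) :=
    (isLittleO_log_rpow_atTop (by linarith)).comp_tendsto tendsto_natCast_atTop_atTop
  have hc : 0 < χ ^ 3 / (|C| + 1) := by positivity
  have hev := (hlo.bound hc).and (eventually_ge_atTop 1)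
  refine (hf.and_eventually hev).mono ?_
  rintro N ⟨h1, h2, h3⟩
  have hN1 : (1 : ℝ) ≤ N := by exact_mod_cast h3
  have hN0 : (0 : ℝ) < N := by linarith
  have hlog : 0 ≤ Real.log N := Real.log_nonneg hN1
  rw [Real.norm_of_nonneg hlog, Real.norm_of_nonneg (by positivity)] at h2
  have h4 : χ * (N : ℝ) ^ β ≤ Real.log (p N) := by
    have hp : 0 < p N := lt_of_lt_of_le (Real.exp_pos _) h1
    rwa [Real.le_log_iff_exp_le hp]
  have h5 : (χ * (N : ℝ) ^ β) ^ 3 ≤ Real.log (p N) ^ 3 := by gcongr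
  refine le_trans ?_ h5
  have e1 : ((N : ℝ) ^ β) ^ 3 = (N : ℝ) ^ 2 * (N : ℝ) ^ (3 * β - 2) := by
    rw [← Real.rpow_natCast ((N : ℝ) ^ β), ← Real.rpow_mul hN0.le, ← Real.rpow_natCast (N : ℝ) 2,
      ← Real.rpow_add hN0]
    congr 1
    push_cast
    ring
  rw [mul_pow, e1]
  have h6 : C * Real.log N ≤ χ ^ 3 * (N : ℝ) ^ (3 * β - 2) := by
    calc C * Real.log N ≤ (|C| + 1) * Real.log N := by
          gcongr
          linarith [le_abs_self C]
      _ ≤ (|C| + 1) * (χ ^ 3 / (|C| + 1) * (N : ℝ) ^ (3 * β - 2)) := by gcongr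
      _ = _ := by field_simp
  calc C * (N : ℝ) ^ 2 * Real.log N = (N : ℝ) ^ 2 * (C * Real.log N) := by ring
    _ ≤ (N : ℝ) ^ 2 * (χ ^ 3 * (N : ℝ) ^ (3 * β - 2)) := by gcongr
    _ = _ := by ring

end Pool.Agent.T2H09.LU
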